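import Pool.Agent.P.MP_8ecd01_al.SL.Iface

/-! Step BND of the top-dimensional centre theorem for SL_n. -/

namespace Pool.Agent.P.MP_8ecd01_al.SL

open Matrix Module Filter Topology

theorem bnd_abs {n : ℕ} {v : Fin n → ℝ} (h : v ⬝ᵥ v = 1) : v ∈ Metric.closedBall (0 : Fin n → ℝ) 1 := by
  rw [mem_closedBall_zero_iff, pi_norm_le_iff_of_nonneg zero_le_one]
  intro i
  have h1 : v i * v i ≤ v ⬝ᵥ v :=
    Finset.single_le_sum (f := fun j => v j * v j) (fun j _ => mul_self_nonneg (v j))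
      (Finset.mem_univ i)
  rw [Real.norm_eq_abs, abs_le]
  constructor <;> nlinarith

theorem p_BND (hUP : S_UP) :
    S_BND := by
  classical
  intro k _ n _ K A hK hA hF hW
  by_contra hc
  push Not at hc
  have h0 : ∀ m : ℕ, ∃ (b : Bs k n) (φ : Fin n → ℝ), mk b φ ∈ K ∧ φ ⬝ᵥ φ = 1 ∧
      ∀ a ∈ A, -(1 / ((m : ℝ) + 1)) ≤ ip (mk b φ) a := by
    intro m
    obtain ⟨y, hy, hl, hR⟩ := hc (((m : ℝ) + 1) ^ 2)
    obtain ⟨b, v, rfl⟩ := exists_mk y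
    have hm : (0 : ℝ) < (m : ℝ) + 1 := by positivity
    have hr : (m : ℝ) + 1 < √(ip (mk b v) (mk b v)) := Real.lt_sqrt_of_sq_lt hR
    have hs := Real.sq_sqrt (ip_self_nonneg (mk b v))
    set r := √(ip (mk b v) (mk b v)) with hr0
    have hp : 0 < r := hm.trans hr
    have hi : 0 ≤ r⁻¹ := by positivity
    refine ⟨b, r⁻¹ • v, ?_, ?_, fun a ha => ?_⟩
    · rw [← smul_mk _ _ hi]
      exact hK.smul_mem _ hi _ hy
    · rw [smul_dotProduct, dotProduct_smul, ← ip_mk b v v, ← hs, smul_eq_mul, smul_eq_mul]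
      field_simp
    · rw [← smul_mk _ _ hi, ip_smul_left hi]
      have h1 := hl a ha
      have h2 : r⁻¹ ≤ 1 / ((m : ℝ) + 1) := by
        rw [one_div]
        exact inv_anti₀ hm hr.le
      nlinarith
  choose b φ hk h1 hl using h0
  obtain ⟨ψ, -, σ, hσ, ht⟩ := tendsto_subseq_of_bounded
    (Metric.isBounded_closedBall (x := (0 : Fin n → ℝ)) (r := 1)) fun m => bnd_abs (h1 m)
  have hZ : FinT (Set.range fun m => mk (b m) ψ) :=
    finT_of (Finset.univ.image ψ) (by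
      rintro _ ⟨m, rfl⟩
      exact ⟨b m, ψ, rfl, fun i => Finset.mem_image_of_mem _ (Finset.mem_univ i)⟩)
  obtain ⟨δ, hδ, hg⟩ := exists_gap (hZ.finite_ip hF) 0
  obtain ⟨R, hR, hb⟩ := hF.bdd
  have he : Tendsto (fun m => (φ (σ m) - ψ) ⬝ᵥ (φ (σ m) - ψ)) atTop (𝓝 0) := by
    have hc : Continuous fun v : Fin n → ℝ => (v - ψ) ⬝ᵥ (v - ψ) := by fun_prop
    have h2 := (hc.tendsto ψ).comp ht
    rw [sub_self, zero_dotProduct] at h2
    exact h2
  have he2 : Tendsto (fun m => √((φ (σ m) - ψ) ⬝ᵥ (φ (σ m) - ψ)) * R + 1 / ((σ m : ℝ) + 1))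
      atTop (𝓝 0) := by
    have h2 := (he.sqrt.mul_const R).add
      ((tendsto_one_div_add_atTop_nhds_zero_nat (𝕜 := ℝ)).comp hσ.tendsto_atTop)
    simpa using h2
  obtain ⟨m, hm1, hm2⟩ := ((he.eventually (gt_mem_nhds one_pos)).and
    (he2.eventually (gt_mem_nhds hδ))).exists
  have hz : ∀ a ∈ A, (0 : ℝ) ≤ ip (mk (b (σ m)) ψ) a := by
    intro a ha
    by_contra hn
    have h2 := (hg _ ⟨_, ⟨σ m, rfl⟩, a, ha, rfl⟩).2 (not_le.1 hn)
    have h3 := ip_sub_le (mk (b (σ m)) ψ) (mk (b (σ m)) (φ (σ m))) a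
    rw [dist_comm, dist_def, d2_mk] at h3
    have h4 := mul_le_mul_of_nonneg_left (hb a ha)
      (Real.sqrt_nonneg ((φ (σ m) - ψ) ⬝ᵥ (φ (σ m) - ψ)))
    have h5 := hl (σ m) a ha
    linarith
  obtain ⟨p, hp, hp0, hp1⟩ := hUP k n K A (fun _ => 0) _ hK hA (hk (σ m)) ⟨_, hz⟩
  have h6 := hp1 _ hz
  rw [hW p hp hp0, d2_zero, ip_mk, h1, d2_mk] at h6
  linarith [d2_nonneg (zero : X k n) (mk (b (σ m)) ψ)]

end Pool.Agent.P.MP_8ecd01_al.SL
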