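import Pool.Agent.P.MP_8ecd01_al.SL.Iface

/-! Step CEN of the top-dimensional centre theorem for SL_n. -/

namespace Pool.Agent.P.MP_8ecd01_al.SL

open Matrix Module

theorem p_CEN (hPC : S_PC) :
    S_CEN := by
  intro k _ n _ D c w ψ hD hX hP hT hW hψ hs
  obtain ⟨c1, hc1, -, h1, h1'⟩ := hPC k n D (mk c ψ) hD
  obtain ⟨c2, hc2, -, h2, -⟩ := hPC k n D (mk c (-ψ)) hD
  have h3 : ∀ η ∈ D, -ip (mk c ψ) η ≤ ip c2 η := fun η hη => by
    have := h2 η hη
    rwa [ip_central_neg hψ (hP hη)] at this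
  have h4 : add c1 c2 = zero := by
    refine hW _ (hD.add_mem _ hc1 _ hc2) fun η hη => ?_
    have := ip_add_ge c1 c2 η
    linarith [h1 η hη, h3 η hη]
  have h5 : ∀ η ∈ D, ip c1 η = ip (mk c ψ) η := fun η hη => by
    have := ip_add_ge c1 c2 η
    rw [h4, ip_zero_left] at this
    linarith [h1 η hη, h3 η hη]
  obtain ⟨b, v, hb⟩ := hT
  obtain ⟨d, g, hd, hg⟩ := cb0 b v c1
  obtain ⟨e, g2, he, hg2⟩ := cb0 b v (mk c ψ)
  have s1 : ∑ i, g i = 0 := by
    have : deg c1 = 0 := hX hc1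
    rwa [hg, deg_mk] at this
  have s2 : ∑ i, g2 i = 0 := by
    have : deg (mk c ψ) = 0 := by rw [deg_mk, hs]
    rwa [hg2, deg_mk] at this
  have h6 : g - g2 = 0 := by
    refine hb _ (by simp [Finset.sum_sub_distrib, s1, s2]) fun φ hφ hφD => ?_
    have e1 := h5 _ hφD
    rw [hg, hg2] at e1
    conv_lhs at e1 => rw [← mk_comp hd hφ]
    conv_rhs at e1 => rw [← mk_comp he hφ]
    rw [ip_mk, ip_mk] at e1
    rw [dotProduct_sub, dotProduct_comm φ g, dotProduct_comm φ g2, e1, sub_self]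
  have h7 : ip c1 c1 = ip (mk c ψ) (mk c ψ) := by
    rw [hg, hg2, ip_mk, ip_mk, sub_eq_zero.1 h6]
  have h8 : mk c ψ = c1 := by
    refine eq_of_d2 ?_
    unfold d2
    linarith
  rw [h8]
  exact hc1

end Pool.Agent.P.MP_8ecd01_al.SL
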