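import Pool.Agent.P.MP_8ecd01_al.SL.Iface

/-! Step COMB of the top-dimensional centre theorem for SL_n. -/

namespace Pool.Agent.P.MP_8ecd01_al.SL

open Matrix Module

/-- the order in which the dimensions are excluded -/
def comb_r (n d : ℕ) : ℕ :=
  if min d (n - d) = 1 then 1 else if min d (n - d) = n / 2 then 2 else min d (n - d) + 1

/-- one case of the arithmetic -/
def comb_c (n j p q i : ℕ) : Prop :=
  (0 < j ∧ (p = j ∨ p + j = n) ∧ (q = j ∨ q + j = n) ∧ i ≤ p ∧ i ≤ q ∧ p + q - i ≤ n ∧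
    (n - 1) * n * i + j * (n - j) < (n - 1) * p * q ∧ ¬ (i = 0 ∧ p + q - i = n) ∧
    (3 ≤ n → ¬ (i = 1 ∧ p + q - i + 1 = n))) →
  (i = 0 ∧ comb_r n (p + q - i) < comb_r n j) ∨ (p + q - i = n ∧ comb_r n i < comb_r n j) ∨
    (n = 6 ∧ (p = 2 ∧ i = 0 ∧ p + q - i = 4 ∨ p = 4 ∧ p + q - i = 6 ∧ i = 2))

set_option synthInstance.maxSize 2000 in
instance comb_dec (n j p q i : ℕ) : Decidable (comb_c n j p q i) := by
  unfold comb_c; infer_instance

lemma comb_chk : ∀ n < 9, ∀ j < n, ∀ p < n, ∀ q < n, ∀ i < n, comb_c n j p q i := by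
  decide +kernel

lemma comb_arith (n : ℕ) (hn : n ≤ 8) (D : ℕ → Prop) (h0 : ∀ d, D d → 0 < d ∧ d < n)
    (key : ∀ j, D j → ∃ p q i s, (p = j ∨ p + j = n) ∧ (q = j ∨ q + j = n) ∧ D p ∧ D q ∧
      i + s = p + q ∧ s ≤ n ∧ i ≤ p ∧ i ≤ q ∧
      (n - 1) * n * i + j * (n - j) < (n - 1) * p * q ∧ ¬ (i = 0 ∧ s = n) ∧ (i = 0 → D s) ∧
      (s = n → D i) ∧ (3 ≤ n → ¬ (i = 1 ∧ s + 1 = n)))
    (h6 : n = 6 → D 2 → D 4 → False) : ∀ j, ¬ D j := by
  intro j
  induction' hr : comb_r n j using Nat.strong_induction_on with r ih generalizing j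
  intro hj
  obtain ⟨p, q, i, s, hp, hq, Dp, Dq, e, hs, hi1, hi2, hlt, c1, c2, c3, c4⟩ := key j hj
  have es : p + q - i = s := by omega
  have hp2 := (h0 p Dp).2
  have := comb_chk n (by omega) j (h0 j hj).2 p hp2 q (h0 q Dq).2 i (by omega)
    ⟨(h0 j hj).1, hp, hq, hi1, hi2, by omega, hlt, by rw [es]; exact c1, by rw [es]; exact c4⟩
  rw [es, hr] at this
  rcases this with ⟨a, b⟩ | ⟨a, b⟩ | ⟨a, ⟨b, c, d⟩ | ⟨b, c, d⟩⟩
  · exact ih _ b s rfl (c2 a)
  · exact ih _ b i rfl (c3 a)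
  · exact h6 a (b ▸ Dp) (d ▸ c2 c)
  · exact h6 a (d ▸ c3 (by omega)) (b ▸ Dp)

theorem p_COMB :
    S_COMB := by
  intro k _ n N hn h0 h1 h2 h3 h4 h5 h6
  have hV : finrank k (Fin n → k) = n := by simp
  have hle : ∀ U : Submodule k (Fin n → k), finrank k U ≤ n := fun U =>
    (Submodule.finrank_le U).trans hV.le
  have hbot : ∀ U : Submodule k (Fin n → k), finrank k U = 0 → U = ⊥ := fun U h =>
    Submodule.finrank_eq_zero.1 h
  have htop : ∀ U : Submodule k (Fin n → k), finrank k U = n → U = ⊤ := fun U h =>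
    Submodule.eq_top_of_finrank_eq (h.trans hV.symm)
  have main := comb_arith n hn (fun d => ∃ U ∈ N, finrank k U = d) ?_ ?_ ?_
  · exact Set.eq_empty_of_forall_notMem fun U hU => main _ ⟨U, hU, rfl⟩
  · rintro d ⟨U, hU, rfl⟩
    exact h0 U hU
  · rintro j ⟨U0, hU0, rfl⟩
    obtain ⟨U, hU, U', hU', a, b, c⟩ := h6 U0 hU0
    refine ⟨finrank k U, finrank k U', finrank k (U ⊓ U' : Submodule k (Fin n → k)),
      finrank k (U ⊔ U' : Submodule k (Fin n → k)), a, b, ⟨U, hU, rfl⟩, ⟨U', hU', rfl⟩, ?_,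
      hle _, Submodule.finrank_mono inf_le_left, Submodule.finrank_mono inf_le_right, c,
      fun h => h1 U hU U' hU' ⟨hbot _ h.1, htop _ h.2⟩,
      fun h => ⟨_, h2 U hU U' hU' (hbot _ h), rfl⟩, fun h => ⟨_, h3 U hU U' hU' (htop _ h), rfl⟩,
      fun h => h4 h U hU U' hU'⟩
    rw [add_comm]
    exact Submodule.finrank_sup_add_finrank_inf_eq U U'
  · rintro rfl ⟨L0, hL0, eL0⟩ ⟨S0, hS0, eS0⟩
    have sub : ∀ L ∈ N, finrank k L = 2 → ∀ S ∈ N, finrank k S = 4 → L ≤ S := by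
      intro L hL eL S hS eS
      have e := Submodule.finrank_sup_add_finrank_inf_eq L S
      have a1 := hle (L ⊔ S)
      have a2 : finrank k (L ⊓ S : Submodule k (Fin 6 → k)) ≤ finrank k L :=
        Submodule.finrank_mono inf_le_left
      have a3 := h4 (by norm_num) L hL S hS
      have a4 : ¬ (finrank k (L ⊓ S : Submodule k (Fin 6 → k)) = 0 ∧
          finrank k (L ⊔ S : Submodule k (Fin 6 → k)) = 6) := fun h =>
        h1 L hL S hS ⟨hbot _ h.1, htop _ h.2⟩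
      have a5 : L ⊓ S = L := Submodule.eq_of_le_of_finrank_eq inf_le_left (by omega)
      exact inf_eq_left.1 a5
    set W : Submodule k (Fin 6 → k) := sSup {L | L ∈ N ∧ finrank k L = 2} with hW
    have w1 : ∀ L ∈ N, finrank k L = 2 → L ≤ W := fun L hL eL => le_sSup ⟨hL, eL⟩
    have w2 : ∀ S ∈ N, finrank k S = 4 → W ≤ S := fun S hS eS =>
      sSup_le fun L hL => sub L hL.1 hL.2 S hS eS
    have w3 := Submodule.finrank_mono (w1 L0 hL0 eL0)
    have w4 := Submodule.finrank_mono (w2 S0 hS0 eS0)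
    obtain ⟨U, hU, a, b⟩ := h5 L0 hL0 W
    rcases a with a | a
    · have eU : finrank k U = 2 := by omega
      rw [inf_eq_right.2 (w1 U hU eU), eU] at b
      omega
    · have eU : finrank k U = 4 := by omega
      rw [inf_eq_left.2 (w2 U hU eU), eU] at b
      omega

end Pool.Agent.P.MP_8ecd01_al.SL
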