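import Pool.Agent.P.MP_8ecd01_al.SL.Iface

/-! Step CPL of the top-dimensional centre theorem for SL_n. -/

namespace Pool.Agent.P.MP_8ecd01_al.SL

open Matrix Module Filter Topology

theorem p_CPL :
    S_CPL := by
  classical
  intro k _ n _
  refine Metric.complete_of_cauchySeq_tendsto fun u hu => ?_
  choose b v hv using fun m => exists_mk (u m)
  obtain ⟨R, hR⟩ := (Metric.isBounded_iff_subset_closedBall (zero : X k n)).1 hu.isBounded_range
  have h1 : ∀ m, v m ∈ Metric.closedBall (0 : Fin n → ℝ) (max R 0) := fun m => by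
    rw [mem_closedBall_zero_iff, pi_norm_le_iff_of_nonneg (le_max_right _ _)]
    intro i
    have h2 : Dist.dist (u m) zero ≤ R := hR ⟨m, rfl⟩
    rw [dist_zero', hv m, ip_mk] at h2
    refine le_trans (Real.abs_le_sqrt ?_) (h2.trans (le_max_left _ _))
    rw [sq]
    exact Finset.single_le_sum (f := fun j => v m j * v m j) (fun j _ => mul_self_nonneg _)
      (Finset.mem_univ i)
  obtain ⟨ψ, -, f, hf, h2⟩ := tendsto_subseq_of_bounded Metric.isBounded_closedBall h1
  have h3 : Tendsto (fun m => Dist.dist (u (f m)) (mk (b (f m)) ψ)) atTop (𝓝 0) := by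
    have h4 : Continuous fun w : Fin n → ℝ => √((w - ψ) ⬝ᵥ (w - ψ)) := by fun_prop
    have h5 := (h4.tendsto ψ).comp h2
    simp only [sub_self, dotProduct_zero, Real.sqrt_zero] at h5
    refine h5.congr fun m => ?_
    conv_rhs => rw [hv (f m), dist_def, d2_mk]
    rfl
  obtain ⟨δ, hδ, h4⟩ := (finT_of (A := Set.range fun m => mk (b (f m)) ψ) (Finset.univ.image ψ) (by
    rintro _ ⟨m, rfl⟩
    exact ⟨_, ψ, rfl, fun i => Finset.mem_image_of_mem _ (Finset.mem_univ i)⟩)).discrete
  obtain ⟨N, hN⟩ := Metric.cauchySeq_iff'.1 (hu.comp_tendsto hf.tendsto_atTop) (δ / 3) (by positivity)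
  obtain ⟨M, hM⟩ := eventually_atTop.1 (h3.eventually (gt_mem_nhds (by positivity : 0 < δ / 6)))
  refine ⟨mk (b (f (max N M))) ψ, tendsto_nhds_of_cauchySeq_of_subseq hu hf.tendsto_atTop ?_⟩
  refine tendsto_iff_dist_tendsto_zero.2 (h3.congr' (eventually_atTop.2 ⟨max N M, fun m hm => ?_⟩))
  refine congrArg (Dist.dist (u (f m))) (h4 _ ⟨m, rfl⟩ _ ⟨max N M, rfl⟩ ?_)
  have a1 : Dist.dist (u (f m)) (u (f N)) < δ / 3 := hN m ((le_max_left _ _).trans hm)
  have a2 : Dist.dist (u (f (max N M))) (u (f N)) < δ / 3 := hN _ (le_max_left _ _)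
  have a3 := hM m ((le_max_right _ _).trans hm)
  have a4 := hM _ (le_max_right N M)
  have a5 := dist_triangle4 (mk (b (f m)) ψ) (u (f m)) (u (f (max N M))) (mk (b (f (max N M))) ψ)
  have a6 := dist_triangle_right (u (f m)) (u (f (max N M))) (u (f N))
  rw [dist_comm (mk (b (f m)) ψ) (u (f m))] at a5
  linarith

end Pool.Agent.P.MP_8ecd01_al.SL
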