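import Pool.Agent.P.MP_8ecd01_al.SL.Iface

/-! Step FIX of the top-dimensional centre theorem for SL_n. -/

namespace Pool.Agent.P.MP_8ecd01_al.SL

open Matrix Module

theorem p_FIX (hPROJ : S_PROJ) (hPC : S_PC) :
    S_FIX := by
  intro k _ n _ G K A hK hX hG hA hF ⟨a0, ha0⟩ hI ⟨y, hy⟩
  obtain ⟨δ, hδ, hg⟩ := hF.gap y 0
  obtain ⟨p, hp, -, hp2, -⟩ := hPC k n K y hK
  obtain ⟨c, ⟨hc, hc1⟩, hm⟩ := hPROJ k n (K ∩ {z | ∀ a ∈ A, 1 ≤ ip z a}) zero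
    (hK.closed.inter (closed_ge A fun _ => 1))
    (fun x hx z hz t h0 h1 => ⟨hK.cvx x hx.1 z hz.1 t h0 h1,
      cvx_ge A (fun _ => 1) x hx.2 z hz.2 t h0 h1⟩)
    ⟨smul δ⁻¹ p, hK.smul_mem _ (by positivity) p hp, fun a ha => by
      have h1 := (hg a ha).1 (hy a ha)
      have h2 := hp2 a (hA ha)
      rw [ip_smul_left (by positivity), le_inv_mul_iff₀ hδ]
      linarith⟩
  refine ⟨c, hc, fun e => ?_, fun g hg' => ?_⟩
  · have := hc1 a0 ha0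
    rw [e, ip_zero_left] at this
    linarith
  · obtain ⟨h, hh, e⟩ := hG.inv g hg'
    have h1 := hm (g c) ⟨hG.maps g hg' c hc, fun a ha => by
      rw [← (e a (hX (hA ha))).1, hG.ip_eq g hg' c (hX hc) _ (hX (hA (hI h hh a ha)))]
      exact hc1 _ (hI h hh a ha)⟩
    rw [d2_comm zero, d2_comm zero, d2_zero, d2_zero, hG.ip_eq g hg' c (hX hc) c (hX hc)] at h1
    exact (eq_of_d2 (by linarith)).symm

end Pool.Agent.P.MP_8ecd01_al.SL
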