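import Pool.Agent.P.MP_8ecd01_al.SL.Iface

/-! Step FORB of the top-dimensional centre theorem for SL_n. -/

namespace Pool.Agent.P.MP_8ecd01_al.SL

open Matrix Module

theorem forb_le (n a b c : ℕ) (hn : 0 < n) (h : (a : ℝ) - (b : ℝ) * (c : ℝ) / n ≤ 0) :
    n * a ≤ b * c := by
  have hn' : (0 : ℝ) < n := by exact_mod_cast hn
  have h2 : (a : ℝ) ≤ (b : ℝ) * (c : ℝ) / n := by linarith
  rw [le_div_iff₀ hn'] at h2
  have h3 : ((n * a : ℕ) : ℝ) ≤ ((b * c : ℕ) : ℝ) := by push_cast; linarith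
  exact_mod_cast h3

theorem forb_rho (n j u : ℕ) (hn : 0 < n) (h : u = j ∨ u + j = n) :
    (u : ℝ) - (u : ℝ) * (u : ℝ) / n = (j : ℝ) * ((n : ℝ) - j) / n := by
  have hn' : (n : ℝ) ≠ 0 := by exact_mod_cast hn.ne'
  rcases h with rfl | h
  · field_simp
  · have h' : (u : ℝ) = (n : ℝ) - j := by
      have : ((u + j : ℕ) : ℝ) = n := by exact_mod_cast h
      push_cast at this
      linarith
    rw [h']
    field_simp
    ring

theorem forb_ge (n j a u v : ℕ) (hj : j < n)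
    (h : (n - 1) * u * v ≤ (n - 1) * n * a + j * (n - j)) :
    -((j : ℝ) * ((n : ℝ) - j) / n) ≤ ((n : ℝ) - 1) * ((a : ℝ) - (u : ℝ) * (v : ℝ) / n) := by
  have hn : 0 < n := by omega
  have hn' : (0 : ℝ) < n := by exact_mod_cast hn
  have h1 : (((n - 1) * u * v : ℕ) : ℝ) ≤ (((n - 1) * n * a + j * (n - j) : ℕ) : ℝ) := by
    exact_mod_cast h
  have e1 : ((n - 1 : ℕ) : ℝ) = (n : ℝ) - 1 := by
    rw [Nat.cast_sub (by omega)]; simp
  have e2 : ((n - j : ℕ) : ℝ) = (n : ℝ) - j := by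
    rw [Nat.cast_sub hj.le]
  push_cast [e1, e2] at h1
  have e3 : ((n : ℝ) - 1) * ((a : ℝ) - (u : ℝ) * (v : ℝ) / n) + (j : ℝ) * ((n : ℝ) - j) / n =
      (((n : ℝ) - 1) * n * a + j * ((n : ℝ) - j) - ((n : ℝ) - 1) * u * v) / n := by
    field_simp
    ring
  have e4 : 0 ≤ (((n : ℝ) - 1) * n * a + j * ((n : ℝ) - j) - ((n : ℝ) - 1) * u * v) / n :=
    div_nonneg (by linarith) hn'.le
  linarith

theorem p_FORB (hVTX : S_VTX) (hSYM : S_SYM) (hFIX : S_FIX) (hJANT : S_JANT) (hIDEAL : S_IDEAL) (hROOT : S_ROOT) (hRINV : S_RINV) (hCOMB : S_COMB) :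
    S_FORB := by
  intro k _ n _ G K hn8 hK hX hS hno
  obtain ⟨-, -, vip, vadd, ⟨vbot, vtop⟩, -, vX, vfin⟩ := hVTX k n
  set N : Set (Submodule k (Fin n → k)) := {U | vtx U ∈ K ∧ ¬ Ant K (vtx U)} with hN
  have antz : Ant K (zero : X k n) := ⟨zero, hK.zero_mem, add_zero' _⟩
  have h1 : ∀ U ∈ N, 0 < finrank k U ∧ finrank k U < n := by
    intro U hU
    constructor
    · refine Nat.pos_of_ne_zero fun h => hU.2 ?_
      rw [Submodule.finrank_eq_zero] at h
      rw [h, vbot]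
      exact antz
    · have hle : finrank k U ≤ n := by
        have := Submodule.finrank_le U
        simpa using this
      refine lt_of_le_of_ne hle fun h => hU.2 ?_
      have : U = ⊤ := Submodule.eq_top_of_finrank_eq (by simpa using h)
      rw [this, vtop]
      exact antz
  have hsum : ∀ U ∈ N, ∀ U' ∈ N,
      add (vtx U) (vtx U') ∈ K ∧ ¬ Ant K (add (vtx U) (vtx U')) := fun U hU U' hU' =>
    ⟨hK.add_mem _ hU.1 _ hU'.1, fun h => hU.2 (hIDEAL k n K _ _ hK hU.1 hU'.1 h)⟩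
  have key : ∀ U0 ∈ N, ∀ y : X k n, ∃ a ∈ {a : X k n | ∃ U ∈ N,
      (finrank k U = finrank k U0 ∨ finrank k U + finrank k U0 = n) ∧ a = vtx U}, ip y a ≤ 0 := by
    intro U0 hU0 y
    by_contra hc
    apply hno
    refine hFIX k n G K {a : X k n | ∃ U ∈ N,
      (finrank k U = finrank k U0 ∨ finrank k U + finrank k U0 = n) ∧ a = vtx U} hK hX hS ?_ ?_
      ⟨vtx U0, U0, hU0, Or.inl rfl, rfl⟩ ?_ ⟨y, fun a ha => ?_⟩
    · rintro a ⟨U, hU, -, rfl⟩
      exact hU.1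
    · refine vfin.mono ?_
      rintro a ⟨U, -, -, rfl⟩
      exact ⟨U, rfl⟩
    · rintro g hg a ⟨U, hU, hd, rfl⟩
      obtain ⟨U', e, hd'⟩ := hS.vert g hg U
      refine ⟨U', ⟨?_, fun h => hU.2 ?_⟩, by omega, e⟩
      · rw [← e]
        exact hS.maps g hg _ hU.1
      · obtain ⟨-, -, -, -, h5, -⟩ := hSYM k n G K hS g hg
        exact h5 hX _ (vX U) (by rw [e]; exact h)
    · by_contra h
      exact hc ⟨a, ha, not_lt.1 h⟩
  have hempty : N = ∅ := by
    refine hCOMB k n N hn8 h1 ?_ ?_ ?_ ?_ ?_ ?_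
    · rintro U hU U' hU' ⟨e1, e2⟩
      refine (hsum U hU U' hU').2 ?_
      rw [vadd, e1, e2, vbot, vtop, add_zero']
      exact antz
    · intro U hU U' hU' e1
      have h := hsum U hU U' hU'
      rw [vadd, e1, vbot, zero_add'] at h
      exact h
    · intro U hU U' hU' e2
      have h := hsum U hU U' hU'
      rw [vadd, e2, vtop, add_zero'] at h
      exact h
    · rintro h3 U hU U' hU' ⟨e1, e2⟩
      have h := hsum U hU U' hU'
      obtain ⟨r1, r2⟩ := hRINV k n G K h3 hX hS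
      exact hno (hFIX k n G K (Rt K) hK hX hS (fun r hr => hr.1) r1
        ⟨add (vtx U) (vtx U'), h.1, h.2, U ⊓ U', U ⊔ U', e1, e2, inf_le_sup, vadd U U'⟩ r2
        (hROOT k n K hK))
    · intro U0 hU0 W
      obtain ⟨a, ⟨U, hU, hd, rfl⟩, h⟩ := key U0 hU0 (vtx W)
      refine ⟨U, hU, hd, ?_⟩
      rw [vip] at h
      exact forb_le n _ _ _ (by have := (h1 U0 hU0).2; omega) h
    · intro U0 hU0
      by_contra hc
      have hj := h1 U0 hU0
      have hn : 0 < n := by omega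
      have hn' : (0 : ℝ) < n := by exact_mod_cast hn
      have hj1 : (0 : ℝ) < (finrank k U0 : ℝ) := by exact_mod_cast hj.1
      have hj2 : (finrank k U0 : ℝ) < n := by exact_mod_cast hj.2
      refine hU0.2 (hJANT k n K {a : X k n | ∃ U ∈ N,
        (finrank k U = finrank k U0 ∨ finrank k U + finrank k U0 = n) ∧ a = vtx U}
        ((finrank k U0 : ℝ) * ((n : ℝ) - finrank k U0) / n) hK hX ?_ ?_ ?_ ?_ ?_ (key U0 hU0)
        (vtx U0) ⟨U0, hU0, Or.inl rfl, rfl⟩)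
      · rintro a ⟨U, hU, -, rfl⟩
        exact hU.1
      · refine vfin.mono ?_
        rintro a ⟨U, -, -, rfl⟩
        exact ⟨U, rfl⟩
      · exact div_pos (mul_pos hj1 (by linarith)) hn'
      · rintro a ⟨U, hU, hd, rfl⟩
        rw [vip, inf_idem]
        exact forb_rho n _ _ hn hd
      · rintro a ⟨U, hU, hd, rfl⟩ a' ⟨U', hU', hd', rfl⟩
        rw [vip]
        refine forb_ge n _ _ _ _ hj.2 ?_
        by_contra h
        exact hc ⟨U, hU, U', hU', hd, hd', not_le.1 h⟩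
  intro U hU
  by_contra h
  have : U ∈ N := ⟨hU, h⟩
  rw [hempty] at this
  exact this

end Pool.Agent.P.MP_8ecd01_al.SL
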