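import Pool.Agent.P.MP_8ecd01_al.SL.Iface

/-! Step IP of the top-dimensional centre theorem for SL_n. -/

namespace Pool.Agent.P.MP_8ecd01_al.SL

open Matrix Module

theorem p_IP (hLC : S_LC) (hTYP : S_TYP) :
    S_IP := by
  intro k _ n b v u
  classical
  have key : {r | ∃ (d : Bs k n) (v2 u2 : Fin n → ℝ), mk b v = mk d v2 ∧ mk b u = mk d u2 ∧
      r = v2 ⬝ᵥ u2} = {v ⬝ᵥ u} := by
    ext r
    constructor
    · rintro ⟨d, v2, u2, h1, h2, rfl⟩
      have e1 := mk_eq_iff.1 h1
      have e2 := mk_eq_iff.1 h2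
      have hc : ∀ s t : ℝ, (Finset.univ.filter fun i => s ≤ v i ∧ t ≤ u i).card =
          (Finset.univ.filter fun i => s ≤ v2 i ∧ t ≤ u2 i).card := by
        intro s t
        have a1 := finrank_pt_inf b v u s t
        have a2 := finrank_pt_inf d v2 u2 s t
        rw [e1, e2] at a1
        convert a1.symm.trans a2
      obtain ⟨σ, hσ⟩ := hTYP k n b d v v2 h1
      obtain ⟨τ, hτ⟩ := hTYP k n b d u u2 h2
      have s1 : ∑ i, v2 i = ∑ i, v i := by
        rw [hσ]
        exact Equiv.sum_comp σ v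
      have s2 : ∑ i, u2 i = ∑ i, u i := by
        rw [hτ]
        exact Equiv.sum_comp τ u
      refine Set.mem_singleton_iff.2 (le_antisymm ?_ ?_)
      · refine hLC n v u v2 u2 (fun s t => ?_) s1 s2
        convert (hc s t).ge
      · refine hLC n v2 u2 v u (fun s t => ?_) s1.symm s2.symm
        convert (hc s t).le
    · intro h
      exact ⟨b, v, u, rfl, rfl, h⟩
  unfold ip
  rw [key, csSup_singleton]

end Pool.Agent.P.MP_8ecd01_al.SL
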