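import Pool.Agent.P.MP_8ecd01_al.SL.Iface

/-! Step JANT of the top-dimensional centre theorem for SL_n. -/

namespace Pool.Agent.P.MP_8ecd01_al.SL

open Matrix Module

theorem jant_kw (k : Type) [Field k] (n : ℕ) [API k n] :
    KW (std k n) 0 (Submodule.span ℝ {fun _ => 1}) = X0 k n := by
  ext y
  refine ⟨fun h => h.2 _ (Submodule.mem_span_singleton_self _), fun h => ⟨mem_par_zero _ _, ?_⟩⟩
  intro ψ hψ
  obtain ⟨r, rfl⟩ := Submodule.mem_span_singleton.1 hψ
  obtain ⟨b, u, rfl⟩ := exists_mk y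
  have h1 : deg (mk b u) = 0 := h
  have e : (r • fun _ : Fin n => (1 : ℝ)) = fun _ => r := funext fun _ => by simp
  rw [deg_mk] at h1
  rw [e, mk_const _ b, ip_mk, dotProduct, ← Finset.sum_mul, h1, zero_mul]

theorem jant_sum {k : Type} [Field k] {n D : ℕ} [API k n] {K : Set (X k n)} {ρ : ℝ}
    (v : Fin (D + 1) → X k n) (hK : Cone K) (hρ : 0 < ρ) (hv : ∀ i, v i ∈ K)
    (h1 : ∀ i, ip (v i) (v i) = ρ) (h2 : ∀ i j, -ρ ≤ (D : ℝ) * ip (v i) (v j))
    (h3 : ∀ y ∈ K, ∑ i, ip y (v i) ≤ 0) : Ant K (v 0) := by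
  classical
  have D0 : (0 : ℝ) < D := by
    rcases Nat.eq_zero_or_pos D with rfl | e
    · have := h3 _ (hv 0)
      rw [Fin.sum_univ_succ, h1] at this
      simp at this
      linarith
    · exact_mod_cast e
  have sm : ∀ j, ∑ i, ((D : ℝ) * ip (v j) (v i) + ρ - if i = j then (D + 1) * ρ else 0) =
      D * ∑ i, ip (v j) (v i) := fun j => by
    simp [Finset.sum_sub_distrib, Finset.sum_add_distrib, Finset.mul_sum]
  have nn : ∀ j i, 0 ≤ (D : ℝ) * ip (v j) (v i) + ρ - if i = j then (D + 1) * ρ else 0 := by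
    intro j i
    split_ifs with e
    · rw [e, h1]
      linarith
    · linarith [h2 j i]
  have z : ∀ j, ∑ i, ip (v j) (v i) = 0 := fun j => le_antisymm (h3 _ (hv j))
    (le_of_mul_le_mul_left (by rw [← sm, mul_zero]; exact Finset.sum_nonneg fun i _ => nn j i) D0)
  have off : ∀ j i, i ≠ j → (D : ℝ) * ip (v j) (v i) = -ρ := fun j i e => by
    have := (Finset.sum_eq_zero_iff_of_nonneg fun i _ => nn j i).1 (by rw [sm, z, mul_zero]) i
      (Finset.mem_univ i)
    rw [if_neg e] at this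
    linarith
  let P : Finset (Fin (D + 1)) → X k n → Prop := fun S s => s ∈ K ∧
    (∀ y, ∑ r ∈ S, ip (v r) y ≤ ip s y) ∧ D * ip s s = S.card * (D + 1 - S.card) * ρ
  have step : ∀ S s i, i ∉ S → P S s → P (insert i S) (add (v i) s) := by
    rintro S s i hi ⟨p1, p2, p3⟩
    refine ⟨hK.add_mem _ (hv i) _ p1, fun y => ?_, ?_⟩
    · rw [Finset.sum_insert hi]
      linarith [ip_add_ge (v i) s y, p2 y]
    · have e0 : ∑ j, ∑ r ∈ S, ip (v r) (v j) = 0 := by
        rw [Finset.sum_comm]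
        exact Finset.sum_eq_zero fun r _ => z r
      have e1 := (Finset.sum_eq_sum_iff_of_le fun j _ => p2 (v j)).1
        (le_antisymm (Finset.sum_le_sum fun j _ => p2 (v j)) (e0 ▸ h3 s p1)) i (Finset.mem_univ i)
      have e2 : (D : ℝ) * ip s (v i) = -(S.card * ρ) := by
        rw [← e1, Finset.mul_sum,
          Finset.sum_congr rfl fun r hr => off r i fun e => hi (e ▸ hr)]
        simp
      rw [ip_add_add, Finset.card_insert_of_notMem hi, h1, ip_comm (v i) s]
      push_cast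
      linear_combination p3 + 2 * e2
  have ex : ∀ S, ∃ s, P S s := fun S => by
    induction S using Finset.induction_on with
    | empty => exact ⟨zero, hK.zero_mem, fun y => by simp [ip_zero_left], by simp [ip_zero_left]⟩
    | insert i S hi ih => exact ih.elim fun s hs => ⟨_, step S s i hi hs⟩
  obtain ⟨s, hs⟩ := ex (Finset.univ.erase 0)
  have fin := (step _ s 0 (Finset.notMem_erase _ _) hs).2.2
  rw [Finset.insert_erase (Finset.mem_univ _), Finset.card_univ, Fintype.card_fin] at fin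
  refine ⟨s, hs.1, eq_zero_of_ip_self (le_of_mul_le_mul_left ?_ D0)⟩
  rw [fin]
  simp

theorem p_JANT (hJUNG : S_JUNG) :
    S_JANT := by
  intro k _ n _ K A ρ hK hX hA fA hρ h1 h2 h3 a0 ha0
  rcases n with _ | D
  · obtain ⟨b, u, rfl⟩ := exists_mk a0
    have := h1 _ ha0
    rw [ip_mk] at this
    simp [dotProduct] at this
    linarith
  have h2' : ∀ a ∈ A, ∀ a' ∈ A, -ρ ≤ (D : ℝ) * ip a a' := by simpa using h2
  obtain ⟨l, hl, hs⟩ := hJUNG k (D + 1) D (std k _) 0 (Submodule.span ℝ {fun _ => 1}) A ρ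
    (fun ψ hψ i j _ => by
      obtain ⟨r, rfl⟩ := Submodule.mem_span_singleton.1 hψ
      rfl)
    (by rw [finrank_span_singleton (fun e => one_ne_zero (congrFun e 0)), add_comm])
    (by rw [jant_kw]; exact hA.trans hX) fA hρ h1 h2' (fun y _ => h3 y) a0 ha0
  rw [jant_kw] at hs
  have hv : ∀ i, (Fin.cons a0 l : Fin (D + 1) → X k (D + 1)) i ∈ A := Fin.cases ha0 hl
  exact jant_sum (Fin.cons a0 l) hK hρ (fun i => hA (hv i)) (fun i => h1 _ (hv i))
    (fun i j => h2' _ (hv i) _ (hv j)) fun y hy => by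
      rw [Fin.sum_univ_succ]
      exact hs y (hX hy)

end Pool.Agent.P.MP_8ecd01_al.SL
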