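import Pool.Agent.P.MP_8ecd01_al.SL.Iface

/-! Step JSTEP of the top-dimensional centre theorem for SL_n. -/

namespace Pool.Agent.P.MP_8ecd01_al.SL

open Matrix Module

theorem jstep_central {k : Type} [Field k] {n : ℕ} [API k n] {d : Bs k n} {w ξ : Fin n → ℝ}
    (hξ : Blk w ξ) (r : ℝ) {x g : X k n} (hx : x ∈ Par d w) (hg : g ∈ Par d w) :
    ip (add x (mk d (r • ξ))) g = ip x g + r * ip (mk d ξ) g := by
  have h := ip_central_lin hξ hξ r 0 hg
  rw [zero_smul, add_zero, zero_mul, add_zero] at h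
  rw [ip_add_central (hξ.smul r) hx hg, h]

theorem p_JSTEP :
    S_JSTEP := by
  intro k _ n _ c w W A x m hW hA hF hx hx1 hm hge hss
  obtain ⟨d, ξ, hd, rfl⟩ := hx.1
  rw [← KW_congr hd hW] at hA hx hss ⊢
  obtain ⟨t, -, hco⟩ := exists_large w ξ
  have hb : Blk (ξ + t • w) w := hco.blk
  have hξ : Blk (ξ + t • w) ξ := by
    have := (Blk.refl (ξ + t • w)).add (hb.smul t).neg
    rwa [add_neg_cancel_right] at this
  have hxp : mk d ξ ∈ Par d (ξ + t • w) := mk_mem_par (Apt.refl _ _) ξ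
  have hrel : ∀ a ∈ Par d w, ip (mk d ξ) (gr d (ξ + t • w) a) = ip (mk d ξ) a :=
    (ip_germ_rel hb hxp).1
  have hgerm := fun θ (h : θ ∈ Par d (ξ + t • w)) => (ip_germ_rel hb h).2
  generalize ξ + t • w = v at hb hξ hxp hrel hgerm
  have hmem : ∀ ψ ∈ W ⊔ Submodule.span ℝ {ξ}, ∃ φ ∈ W, ∃ s : ℝ, ψ = (1 : ℝ) • φ + s • ξ := by
    intro ψ h
    obtain ⟨φ, h1, z, h2, rfl⟩ := Submodule.mem_sup.1 h
    obtain ⟨s, rfl⟩ := Submodule.mem_span_singleton.1 h2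
    exact ⟨φ, h1, s, by rw [one_smul]⟩
  have hξW : ξ ∈ W ⊔ Submodule.span ℝ {ξ} :=
    Submodule.mem_sup_right (Submodule.mem_span_singleton_self ξ)
  have hK : ∀ y ∈ KW d w W, add (gr d v y) (mk d ((-ip (mk d ξ) y) • ξ)) ∈
      KW d v (W ⊔ Submodule.span ℝ {ξ}) := by
    intro y hy
    refine ⟨par_add (gr_mem _ _ _) (mk_mem_par (Apt.refl _ _) _), fun ψ h => ?_⟩
    obtain ⟨φ, h1, s, rfl⟩ := hmem ψ h
    have h2 := hb.trans (hW φ h1)
    rw [jstep_central hξ _ (gr_mem _ _ _) (mk_mem_par (Apt.refl _ _) _), ip_comm (gr d v y),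
      ip_comm (mk d ξ) (mk d _), ip_central_lin h2 hξ _ _ (gr_mem _ _ _),
      ip_central_lin h2 hξ _ _ hxp, ip_gr_central hb (hW φ h1) hy.1, hrel y hy.1, hx1,
      ip_comm (mk d φ), ip_comm (mk d φ), hy.2 φ h1, hx.2 φ h1]
    ring
  have hKa : ∀ a ∈ A, ip (mk d ξ) a = -m → add (gr d v a) (mk d (m • ξ)) ∈
      KW d v (W ⊔ Submodule.span ℝ {ξ}) := fun a ha e => by
    simpa only [e, neg_neg] using hK a (hA ha)
  have hη : ∀ η ∈ KW d v (W ⊔ Submodule.span ℝ {ξ}), ∀ a,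
      ip η (add (gr d v a) (mk d (m • ξ))) = ip η (gr d v a) := fun η h a => by
    rw [ip_comm, jstep_central hξ _ (gr_mem _ _ _) h.1, ip_comm (mk d ξ), h.2 ξ hξW, mul_zero,
      add_zero, ip_comm]
  have hpp : ∀ a ∈ A, ∀ a' ∈ A, ip (mk d ξ) a = -m → ip (mk d ξ) a' = -m →
      ip (add (gr d v a) (mk d (m • ξ))) (add (gr d v a') (mk d (m • ξ))) =
        ip (gr d v a) (gr d v a') - m ^ 2 := fun a ha a' ha' e e' => by
    rw [hη _ (hKa a ha e), jstep_central hξ _ (gr_mem _ _ _) (gr_mem _ _ _), hrel a' (hA ha').1, e']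
    ring
  refine ⟨d, v, W ⊔ Submodule.span ℝ {ξ}, fun a => add (gr d v a) (mk d (m • ξ)),
    fun ψ h => ?_, Submodule.finrank_sup_span_singleton fun h => ?_, ?_, ?_,
    fun a ha e => ?_, fun a ha a' ha' e e' => ?_, fun η h => ?_,
    fun y hy => ⟨_, hK y hy, fun a ha e => ?_⟩⟩
  · obtain ⟨φ, h1, s, rfl⟩ := hmem ψ h
    exact ((hb.trans (hW φ h1)).smul 1).add (hξ.smul s)
  · have := hx.2 ξ h
    rw [hx1] at this
    exact one_ne_zero this
  · rintro _ ⟨a, ⟨ha, e⟩, rfl⟩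
    exact hKa a ha e
  · refine ((hF.gr d v).add (finT_singleton (mk d (m • ξ)))).mono ?_
    rintro _ ⟨a, ⟨ha, -⟩, rfl⟩
    exact ⟨_, ⟨a, ha, rfl⟩, _, rfl, rfl⟩
  · rw [hpp a ha a ha e e, ip_gr_self]
  · rw [hpp a ha a' ha' e e']
    linarith [ip_le_gr d v a a']
  · by_contra hcon
    have hpos : ∀ a ∈ A, ip (mk d ξ) a = -m → 0 < ip η (gr d v a) := fun a ha e =>
      lt_of_not_ge fun k => hcon ⟨a, ha, e, by rw [hη η h]; exact k⟩
    obtain ⟨ε0, h0, hg⟩ := hgerm η h.1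
    obtain ⟨δ, hδ, hgap⟩ := hF.gap (mk d ξ) (-m)
    obtain ⟨R, hR, hbd⟩ := hF.bdd
    have hN : 0 < √(ip η η) * R + 1 := by positivity
    have hε : 0 < min ε0 (δ / (√(ip η η) * R + 1)) := lt_min h0 (by positivity)
    have hε2 := (le_div_iff₀ hN).1 (min_le_right ε0 (δ / (√(ip η η) * R + 1)))
    have hε1 := min_le_left ε0 (δ / (√(ip η η) * R + 1))
    generalize min ε0 (δ / (√(ip η η) * R + 1)) = ε at hε hε1 hε2
    have hηK : η ∈ KW d w W := ⟨par_mono hb h.1, fun ψ k => h.2 ψ (Submodule.mem_sup_left k)⟩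
    obtain ⟨a, ha, h1⟩ := hss _ ((cone_KW d hW).add_mem _ hx _
      ((cone_KW d hW).smul_mem ε hε.le η hηK))
    have h2 : 1 ≤ √(ip (add (mk d ξ) (smul ε η)) (add (mk d ξ) (smul ε η))) := by
      refine Real.le_sqrt_of_sq_le ?_
      rw [ip_add_add, hx1, ip_smul_right hε.le (mk d ξ), ip_comm (mk d ξ), h.2 ξ hξW]
      linarith [ip_self_nonneg (smul ε η)]
    rw [hg ε hε hε1 a (hA ha).1] at h1
    have h3 : ip (mk d ξ) a + ε * ip η (gr d v a) ≤ -m := by nlinarith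
    rcases (hge a ha).eq_or_lt with e | e
    · linarith [mul_pos hε (hpos a ha e.symm)]
    · have h4 := (hgap a ha).1 e
      have h5 := abs_ip_le η (gr d v a)
      rw [ip_gr_self] at h5
      have h6 := mul_le_mul_of_nonneg_left (hbd a ha) (Real.sqrt_nonneg (ip η η))
      have h7 := mul_le_mul_of_nonneg_left ((neg_le_abs _).trans (h5.trans h6)) hε.le
      linarith
  · rw [hη _ (hK y hy), jstep_central hξ _ (gr_mem _ _ _) (gr_mem _ _ _), hrel a (hA ha).1, e,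
      ip_comm y (mk d ξ)]
    linarith [ip_le_gr d v y a]

end Pool.Agent.P.MP_8ecd01_al.SL
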