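import Pool.Agent.P.MP_8ecd01_al.SL.Iface

/-! Step LC of the top-dimensional centre theorem for SL_n. -/

namespace Pool.Agent.P.MP_8ecd01_al.SL

open Matrix Module

theorem lc_int {a : ℝ} (ha : 0 ≤ a) (c : ℝ) :
    ∫ t : ℝ, (Set.Ioc (0 : ℝ) a).indicator (fun _ => c) t = c * a := by
  rw [MeasureTheory.integral_indicator_const _ measurableSet_Ioc]
  simp [MeasureTheory.Measure.real, ha, mul_comm]

theorem lc_cake {n : ℕ} (μ μ' g g' : Fin n → ℝ) (hg : ∀ i, 0 ≤ g i) (hg' : ∀ i, 0 ≤ g' i)
    (h : ∀ t, 0 < t → ∑ i, (if t ≤ g' i then μ' i else 0) ≤ ∑ i, (if t ≤ g i then μ i else 0)) :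
    ∑ i, μ' i * g' i ≤ ∑ i, μ i * g i := by
  have I : ∀ a c : ℝ, MeasureTheory.Integrable
      (fun t : ℝ => (Set.Ioc (0 : ℝ) a).indicator (fun _ => c) t) := fun a c =>
    (MeasureTheory.integrable_indicator_iff measurableSet_Ioc).2
      (MeasureTheory.integrableOn_const (by simp))
  have E : ∀ ν f : Fin n → ℝ, (∀ i, 0 ≤ f i) → ∑ i, ν i * f i =
      ∫ t : ℝ, ∑ i, (Set.Ioc (0 : ℝ) (f i)).indicator (fun _ => ν i) t := fun ν f hf => by
    rw [MeasureTheory.integral_finsetSum _ fun i _ => I _ _]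
    exact Finset.sum_congr rfl fun i _ => (lc_int (hf i) _).symm
  rw [E μ g hg, E μ' g' hg']
  refine MeasureTheory.integral_mono (MeasureTheory.integrable_finsetSum _ fun i _ => I _ _)
    (MeasureTheory.integrable_finsetSum _ fun i _ => I _ _) fun t => ?_
  by_cases ht : 0 < t
  · simpa [Set.indicator_apply, ht] using h t ht
  · simp [ht]

theorem p_LC :
    S_LC := by
  intro n φ ζ φ' ζ' h h1 h2
  obtain ⟨m, hm⟩ := ((Set.finite_range φ).union ((Set.finite_range ζ).union
    ((Set.finite_range φ').union (Set.finite_range ζ')))).bddBelow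
  have a1 : ∀ i, 0 ≤ φ i - m := fun i => sub_nonneg.2 (hm (by simp))
  have a2 : ∀ i, 0 ≤ ζ i - m := fun i => sub_nonneg.2 (hm (by simp))
  have a3 : ∀ i, 0 ≤ φ' i - m := fun i => sub_nonneg.2 (hm (by simp))
  have a4 : ∀ i, 0 ≤ ζ' i - m := fun i => sub_nonneg.2 (hm (by simp))
  have key := lc_cake (fun i => ζ i - m) (fun i => ζ' i - m) (fun i => φ i - m)
    (fun i => φ' i - m) a1 a3 fun s _ => by
      have := lc_cake (fun i => if s ≤ φ i - m then 1 else 0)
        (fun i => if s ≤ φ' i - m then 1 else 0) (fun i => ζ i - m) (fun i => ζ' i - m) a2 a4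
        fun t _ => by
          have e : ∀ f g : Fin n → ℝ,
              ∑ i, (if t ≤ g i - m then (if s ≤ f i - m then (1 : ℝ) else 0) else 0) =
              ((Finset.univ.filter fun i => s + m ≤ f i ∧ t + m ≤ g i).card : ℝ) := fun f g => by
            rw [Finset.card_filter, Nat.cast_sum]
            refine Finset.sum_congr rfl fun i _ => ?_
            by_cases p : t + m ≤ g i <;> by_cases q : s + m ≤ f i <;>
              simp [le_sub_iff_add_le, p, q]
          rw [e, e]
          exact_mod_cast h _ _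
      simpa only [ite_mul, one_mul, zero_mul] using this
  have e : ∀ f g : Fin n → ℝ, ∑ i, (g i - m) * (f i - m) =
      f ⬝ᵥ g - m * ∑ i, f i - m * ∑ i, g i + ∑ _i : Fin n, m * m := fun f g => by
    rw [dotProduct, Finset.mul_sum, Finset.mul_sum, ← Finset.sum_sub_distrib,
      ← Finset.sum_sub_distrib, ← Finset.sum_add_distrib]
    exact Finset.sum_congr rfl fun i _ => by ring
  rw [e, e, h1, h2] at key
  linarith

end Pool.Agent.P.MP_8ecd01_al.SL
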