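import Pool.Agent.P.MP_8ecd01_al.SL.Iface

/-! Step LINK of the top-dimensional centre theorem for SL_n. -/

namespace Pool.Agent.P.MP_8ecd01_al.SL

open Matrix Module

variable {k : Type} [Field k] {n : ℕ} [API k n]

theorem link_small {K : Set (X k n)} (hK : Cone K) {c : Bs k n} {w ψ : Fin n → ℝ}
    (hψ : Blk w ψ) (hp : mk c ψ ∈ K) {η : X k n} (hη : η ∈ Par c w) {ε δ : ℝ} (hε : 0 < ε)
    (h : add (mk c ψ) (smul ε η) ∈ K) (h0 : 0 ≤ δ) (h1 : δ ≤ ε) :
    add (mk c ψ) (smul δ η) ∈ K := by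
  obtain ⟨d, φ, hd, rfl⟩ := hη
  have hs0 : 0 ≤ δ / ε := by positivity
  have hs1 : δ / ε ≤ 1 := (div_le_one hε).2 h1
  have h2 := hK.cvx _ hp _ h (δ / ε) hs0 hs1
  rw [← hd ψ hψ, smul_mk _ _ hε.le, add_mk, smul_mk _ _ hs0, smul_mk _ _ (by linarith),
    add_mk] at h2
  rw [← hd ψ hψ, smul_mk _ _ h0, add_mk]
  convert h2 using 2
  funext i
  simp only [Pi.add_apply, Pi.smul_apply, smul_eq_mul]
  field_simp
  ring

/-- The directions at `mk c w` that point into `K`. -/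
def linkE (K : Set (X k n)) (c : Bs k n) (w : Fin n → ℝ) : Set (X k n) :=
  {η | η ∈ X0 k n ∧ η ∈ Par c w ∧ ∃ ε : ℝ, 0 < ε ∧ add (mk c w) (smul ε η) ∈ K}

theorem link_cone {K : Set (X k n)} (hK : Cone K) {c : Bs k n} {w : Fin n → ℝ}
    (hp : mk c w ∈ K) : Cone (closure (linkE K c w)) := by
  have hs : ∀ r : ℝ, 0 ≤ r → ∀ x ∈ linkE K c w, smul r x ∈ linkE K c w := by
    rintro r hr x ⟨h0, h1, ε, hε, h2⟩
    have h3 : 0 < ε / (r + 1) := by positivity
    refine ⟨cone_X0.smul_mem r hr x h0, par_smul hr h1, ε / (r + 1), h3, ?_⟩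
    rw [smul_smul' h3.le hr]
    refine link_small hK (Blk.refl w) hp h1 hε h2 (by positivity) ?_
    rw [div_mul_eq_mul_div, div_le_iff₀ (by positivity)]
    nlinarith
  have ha : ∀ x ∈ linkE K c w, ∀ y ∈ linkE K c w, add x y ∈ linkE K c w := by
    rintro x ⟨h0, h1, ε, hε, h2⟩ y ⟨g0, g1, δ, hδ, g2⟩
    have hm := lt_min hε hδ
    have h3 := link_small hK (Blk.refl w) hp h1 hε h2 hm.le (min_le_left _ _)
    have g3 := link_small hK (Blk.refl w) hp g1 hδ g2 hm.le (min_le_right _ _)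
    refine ⟨cone_X0.add_mem x h0 y g0, par_add h1 g1, min ε δ / 2, by positivity, ?_⟩
    have h4 := hK.smul_mem (1 / 2) (by norm_num) _ (hK.add_mem _ h3 _ g3)
    obtain ⟨d, v, u, hd, rfl, rfl⟩ := common_par h1 g1
    rw [← hd w (Blk.refl w), smul_mk _ _ hm.le, smul_mk _ _ hm.le, add_mk, add_mk, add_mk,
      smul_mk _ _ (by norm_num)] at h4
    rw [← hd w (Blk.refl w), add_mk, smul_mk _ _ (by positivity), add_mk]
    convert h4 using 2
    funext i
    simp only [Pi.add_apply, Pi.smul_apply, smul_eq_mul]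
    ring
  refine ⟨isClosed_closure, subset_closure ⟨cone_X0.zero_mem, (cone_par c w).zero_mem, 1,
    one_pos, ?_⟩, fun x hx y hy => ?_, fun r hr x hx => ?_⟩
  · rwa [one_smul', add_zero']
  · exact map_mem_closure₂ (f := fun a b : X k n => add a b) continuous_add' hx hy ha
  · exact map_mem_closure (continuous_smul' hr) hx (hs r hr)

theorem p_LINK (hUP : S_UP) :
    S_LINK := by
  classical
  intro k _ n _ K A c w ξ t hK hK0 hKP hw hw' hA ht hb hx0 hL hmax
  have hw1 : Blk (ξ + t • w) (t • w) := hb.smul t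
  have hξ : Blk (ξ + t • w) ξ := by
    have := (Blk.refl (ξ + t • w)).add hw1.neg
    rwa [add_neg_cancel_right] at this
  have hx : mk c (ξ + t • w) ∈ K := by
    have := hK.add_mem _ hx0 _ (hK.smul_mem t ht _ hw)
    rwa [smul_mk _ _ ht, add_mk] at this
  have hDP : closure (linkE K c (ξ + t • w)) ⊆ Par c (ξ + t • w) :=
    closure_minimal (fun _ h => h.2.1) (cone_par c _).closed
  refine ⟨closure (linkE K c (ξ + t • w)), link_cone hK hx,
    closure_minimal (fun _ h => h.1) cone_X0.closed, hDP, fun a ha => subset_closure ?_,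
    fun θ hθ hge => ?_⟩
  · obtain ⟨ε, hε, h⟩ := gr_germ c (ξ + t • w) a
    refine ⟨(deg_gr c _ a).trans (hK0 ha), gr_mem c _ a, ε, hε, ?_⟩
    rw [← h ε hε le_rfl]
    exact hK.add_mem _ hx _ (hK.smul_mem ε hε.le a ha)
  have hA' : insert (mk c ξ) A ⊆ K := Set.insert_subset hx0 hA
  obtain ⟨κ, hκ⟩ : ∃ κ : X k n → ℝ,
      κ = fun a => if a = mk c ξ then ip (mk c ξ) (mk c ξ) else -1 := ⟨_, rfl⟩
  have hκ0 : ∀ a ∈ insert (mk c ξ) A, κ a ≤ ip (mk c ξ) a := by
    intro a ha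
    rw [hκ]
    beta_reduce
    split_ifs with e
    · rw [e]
    · exact hL a (ha.resolve_left e)
  have key : ∀ z ∈ K, ∀ y, (∀ a ∈ insert (mk c ξ) A, κ a ≤ ip y a) →
      d2 z (mk c ξ) ≤ d2 z y := by
    intro z hz y hy
    obtain ⟨p, hp, h1, h2⟩ := hUP k n K _ κ z hK hA' hz ⟨_, hκ0⟩
    have h3 : p ∈ Lev A := fun a ha => by
      refine le_trans ?_ (h1 a (Set.mem_insert_of_mem _ ha))
      rw [hκ]
      beta_reduce
      split_ifs
      · linarith [ip_self_nonneg (mk c ξ)]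
      · exact le_rfl
    have h4 := h1 _ (Set.mem_insert _ _)
    rw [hκ] at h4
    beta_reduce at h4
    rw [if_pos rfl] at h4
    have h5 : p = mk c ξ := eq_of_d2 (by unfold d2; linarith [hmax p hp h3])
    have h6 := h2 y hy
    rw [h5] at h6
    linarith [d2_nonneg (mk c ξ) y]
  obtain ⟨-, ε0, h0, hg⟩ := ip_germ_rel hb (hDP hθ)
  have hcl : closure (linkE K c (ξ + t • w)) ⊆ {η | 2 * ip η θ ≤ ip θ θ} := by
    refine closure_minimal ?_
      (isClosed_le (continuous_const.mul (continuous_ip_left θ)) continuous_const)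
    rintro η ⟨-, h1, ε, hε, h2⟩
    have hm := lt_min hε h0
    have h3 : add (mk c ξ) (smul ε η) ∈ K := by
      have h4 := hK.add_mem _ h2 _ (hK.smul_mem t ht _ hw')
      obtain ⟨d, φ, hd, rfl⟩ := h1
      rw [← hd _ (Blk.refl _), ← hd _ hb.neg, smul_mk _ _ hε.le, smul_mk _ _ ht, add_mk,
        add_mk] at h4
      rw [← hd ξ hξ, smul_mk _ _ hε.le, add_mk]
      convert h4 using 2
      funext i
      simp only [Pi.add_apply, Pi.smul_apply, Pi.neg_apply, smul_eq_mul]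
      ring
    have h5 := key _ (link_small hK hξ hx0 h1 hε h3 hm.le (min_le_left _ _))
      (add (mk c ξ) (smul (min ε ε0) θ)) fun a ha => by
        rw [hg _ hm (min_le_right _ _) a (hKP (hA' ha))]
        have := mul_nonneg hm.le (hge _ ⟨a, ha, rfl⟩)
        linarith [hκ0 a ha]
    obtain ⟨d, v, u, hd, rfl, rfl⟩ := common_par h1 (hDP hθ)
    rw [← hd ξ hξ, smul_mk _ _ hm.le, smul_mk _ _ hm.le, add_mk, add_mk, d2_mk, d2_mk,
      add_sub_cancel_left, add_sub_add_left_eq_sub, ← smul_sub, smul_dotProduct, smul_dotProduct,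
      dotProduct_smul, dotProduct_smul, sub_dotProduct, dotProduct_sub, dotProduct_sub,
      dotProduct_comm u v] at h5
    simp only [smul_eq_mul] at h5
    show 2 * ip _ _ ≤ ip _ _
    rw [ip_mk, ip_mk]
    have h6 := le_of_mul_le_mul_left (le_of_mul_le_mul_left h5 hm) hm
    linarith
  have h7 : 2 * ip θ θ ≤ ip θ θ := hcl hθ
  exact eq_zero_of_ip_self (by linarith)

end Pool.Agent.P.MP_8ecd01_al.SL
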