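import Pool.Agent.P.MP_8ecd01_al.SL.Iface

/-! Step MAIN of the top-dimensional centre theorem for SL_n. -/

namespace Pool.Agent.P.MP_8ecd01_al.SL

open Matrix Module

theorem main_hull {k : Type} [Field k] {n : ℕ} [API k n] (A : Set (X k n)) :
    Cone {y | ∀ L : Set (X k n), Cone L → A ⊆ L → y ∈ L} := by
  refine ⟨?_, fun L h _ => h.zero_mem, fun x hx y hy L h e => h.add_mem x (hx L h e) y (hy L h e),
    fun r hr x hx L h e => h.smul_mem r hr x (hx L h e)⟩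
  have : {y | ∀ L : Set (X k n), Cone L → A ⊆ L → y ∈ L} = ⋂₀ {L | Cone L ∧ A ⊆ L} := by
    ext y
    simp
  rw [this]
  exact isClosed_sInter fun L h => h.1.closed

theorem main_pos {k : Type} [Field k] {n : ℕ} {c : X k n} (h : c ≠ zero) : 1 ≤ n := by
  rcases Nat.eq_zero_or_pos n with e | e
  · subst e
    obtain ⟨b, v, rfl⟩ := exists_mk c
    exact absurd (by rw [Subsingleton.elim v 0, mk_zero]) h
  · exact e

theorem p_MAIN (hSYM : S_SYM) (hORB : S_ORB) (hFIX : S_FIX) (hJANT : S_JANT) (hNV : S_NV) (hFORB : S_FORB) :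
    S_MAIN := by
  intro k _ n _ G K F p hn hK hX hG hF hFK hT hp hA
  by_contra hno
  have hB : insert p F ⊆ K := Set.insert_subset hp hFK
  have fin : ∀ B : Set (X k n), B.Finite → B ⊆ K → FinT {x | ∃ a ∈ B, ∃ g ∈ G, x = g a} := by
    intro B hB
    induction B, hB using Set.Finite.induction_on with
    | empty => exact fun _ => ⟨∅, fun _ ⟨_, h, _⟩ => h.elim⟩
    | @insert a s _ _ ih =>
      intro e
      refine ((hORB k n G K hG a (hX (e (Set.mem_insert _ _)))).union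
        (ih ((Set.subset_insert _ _).trans e))).mono ?_
      rintro x ⟨b, rfl | hb, h⟩
      exacts [.inl h, .inr ⟨b, hb, h⟩]
  set A : Set (X k n) := {x | ∃ a ∈ insert p F, ∃ g ∈ G, x = g a} with hAd
  have fA : FinT A := fin _ (hF.insert p) hB
  have AK : A ⊆ K := by
    rintro _ ⟨a, ha, g, hg, rfl⟩
    exact hG.maps g hg a (hB ha)
  have inA : insert p F ⊆ A := fun a ha => ⟨a, ha, id, hG.one, rfl⟩
  have invA : ∀ g ∈ G, ∀ a ∈ A, g a ∈ A := by
    rintro g hg _ ⟨a, ha, h, hh, rfl⟩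
    exact ⟨a, ha, g ∘ h, hG.comp g hg h hh, rfl⟩
  set K2 : Set (X k n) := {y | ∀ L : Set (X k n), Cone L → A ⊆ L → y ∈ L} with hK2
  have c2 : Cone K2 := main_hull A
  have A2 : A ⊆ K2 := fun a ha L _ e => e ha
  have s2 : K2 ⊆ K := fun y hy => hy K hK AK
  have x2 : K2 ⊆ X0 k n := s2.trans hX
  have g2 : Sym G K2 := ⟨hG.x0, hG.ip_eq, hG.vert, fun g hg x hx =>
    (hx _ ((hSYM k n G K hG g hg).2.2.2.2.2 K2 c2) fun a ha =>
      ⟨hX (AK ha), A2 (invA g hg a ha)⟩).2, hG.inv, hG.comp, hG.one⟩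
  have no2 : ¬ ∃ c ∈ K2, c ≠ zero ∧ ∀ g ∈ G, g c = c := fun ⟨c, h1, h2⟩ => hno ⟨c, s2 h1, h2⟩
  have w2 : Wide K2 A := by
    intro c hc h0
    by_contra hz
    have pos : ∀ y ∈ K2, 0 ≤ ip y c := fun y hy =>
      hy _ (cone_half c) fun a ha => (h0 a ha).trans_eq (ip_comm c a)
    have O2 : {x | ∃ g ∈ G, x = g c} ⊆ K2 := by
      rintro _ ⟨g, hg, rfl⟩
      exact g2.maps g hg c hc
    have fO := hORB k n G K hG c (x2 hc)
    have n1 : (1 : ℝ) ≤ n := by exact_mod_cast main_pos hz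
    have r0 := ip_self_pos hz
    obtain ⟨q, hq, e⟩ := hJANT k n K2 _ (ip c c) c2 x2 O2 fO r0
      (by rintro _ ⟨g, hg, rfl⟩; exact hG.ip_eq g hg c (x2 hc) c (x2 hc))
      (by
        rintro _ ⟨g, hg, rfl⟩ y hy
        obtain ⟨h, hh, e⟩ := hG.inv g hg
        have h1 := g2.maps h hh y (O2 hy)
        have h2 := hG.ip_eq g hg c (x2 hc) _ (x2 h1)
        rw [(e y (x2 (O2 hy))).1, ip_comm c] at h2
        have h3 := mul_nonneg (sub_nonneg.2 n1) (pos _ h1)
        rw [h2]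
        linarith)
      (by
        intro y
        by_contra hy
        refine no2 (hFIX k n G K2 _ c2 x2 g2 O2 fO ⟨c, id, hG.one, rfl⟩ ?_
          ⟨y, fun a ha => lt_of_not_ge fun e => hy ⟨a, ha, e⟩⟩)
        rintro g hg _ ⟨h, hh, rfl⟩
        exact ⟨g ∘ h, hG.comp g hg h hh, rfl⟩)
      c ⟨id, hG.one, rfl⟩
    have h1 := (ip_of_add_eq_zero e).1
    have h2 := pos q hq
    rw [ip_comm] at h2
    linarith
  obtain ⟨U, hU, hU'⟩ := hNV k n K2 A p c2 x2
    (hT.mono (((Set.subset_insert _ _).trans inA).trans A2)) A2 fA w2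
    (A2 (inA (Set.mem_insert _ _))) fun ⟨q, h1, h2⟩ => hA ⟨q, s2 h1, h2⟩
  exact hU' (hFORB k n G K2 hn c2 x2 g2 no2 U hU)

end Pool.Agent.P.MP_8ecd01_al.SL
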