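import Pool.Agent.P.MP_8ecd01_al.SL.Iface

/-! Step MAX of the top-dimensional centre theorem for SL_n. -/

namespace Pool.Agent.P.MP_8ecd01_al.SL

open Matrix Module

theorem max_gen {Y : Type} [MetricSpace Y] (C O : Set Y) (N : Y → ℝ) (hN : Continuous N)
    (hC : _root_.IsClosed C) (hne : C.Nonempty) (R : ℝ) (hR : ∀ y ∈ C, N y ≤ R)
    (hT : ∀ z ∈ C, ∃ p ∈ C, N z + 3 * Dist.dist z p ^ 2 ≤ N p ∧
      ∃ o ∈ O, Dist.dist p o ≤ 2 * Dist.dist z p) {δ0 : ℝ} (h0 : 0 < δ0)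
    (hO : ∀ a ∈ O, ∀ b ∈ O, Dist.dist a b < δ0 → a = b) (hf : (N '' O).Finite) :
    ∃ x ∈ C, ∀ y ∈ C, N y ≤ N x := by
  have hb : ∀ D ⊆ C, BddAbove (N '' D) := fun D hD =>
    ⟨R, by rintro _ ⟨y, hy, rfl⟩; exact hR y (hD hy)⟩
  have hs : ∀ D ⊆ C, D.Nonempty → ∀ ε : ℝ, 0 < ε → ∃ z ∈ D, ∀ y ∈ D, N y < N z + ε := by
    intro D hD hn ε hε
    obtain ⟨_, ⟨z, hz, rfl⟩, h⟩ := exists_lt_of_lt_csSup (hn.image N)
      (show sSup (N '' D) - ε < sSup (N '' D) by linarith)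
    exact ⟨z, hz, fun y hy => by linarith [le_csSup (hb D hD) ⟨y, hy, rfl⟩]⟩
  obtain ⟨δ1, h1, hg⟩ := exists_gap hf (sSup (N '' C))
  obtain ⟨z0, hz0, h2⟩ := hs C subset_rfl hne (min (δ0 ^ 2 / 12) (δ1 / 2)) (by positivity)
  have hd : ∀ z p, N z0 ≤ N z → p ∈ C → N z + 3 * Dist.dist z p ^ 2 ≤ N p →
      Dist.dist z p ≤ δ0 / 6 ∧ N z0 ≤ N p := by
    intro z p h3 hp h4
    have h5 := h2 p hp
    have h6 := min_le_left (δ0 ^ 2 / 12) (δ1 / 2)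
    refine ⟨?_, by nlinarith [sq_nonneg (Dist.dist z p)]⟩
    by_contra h7
    nlinarith [not_le.1 h7]
  obtain ⟨z1, hz1, h3, o, ho, h4⟩ := hT z0 hz0
  obtain ⟨h5, h6⟩ := hd z0 z1 le_rfl hz1 h3
  let D : Set Y := {p | p ∈ C ∧ N z0 ≤ N p ∧ Dist.dist p o ≤ δ0 / 3}
  have hD : D ⊆ C := fun p hp => hp.1
  have hcl : _root_.IsClosed (C ∩ {p | N z0 ≤ N p}) := hC.inter (isClosed_le continuous_const hN)
  have hm : o ∈ C ∩ {p | N z0 ≤ N p} := by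
    refine hcl.closure_subset_iff.2 subset_rfl (Metric.mem_closure_iff.2 fun ε hε => ?_)
    obtain ⟨z, hz, h7⟩ := hs D hD ⟨z1, hz1, h6, by linarith⟩ (3 * (ε / 2) ^ 2) (by positivity)
    obtain ⟨p, hp, h8, o', ho', h9⟩ := hT z hz.1
    obtain ⟨h10, h11⟩ := hd z p hz.2.1 hp h8
    have e : o' = o := by
      refine hO o' ho' o ho ?_
      have h12 := dist_triangle4 o' p z o
      rw [dist_comm o' p, dist_comm p z] at h12
      linarith [hz.2.2]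
    subst e
    have h12 := h7 p ⟨hp, h11, by linarith⟩
    refine ⟨p, ⟨hp, h11⟩, ?_⟩
    rw [dist_comm]
    have h13 : Dist.dist z p < ε / 2 := by
      by_contra h14
      nlinarith [not_lt.1 h14]
    linarith
  refine ⟨o, hm.1, fun y hy => (le_csSup (hb C subset_rfl) ⟨y, hy, rfl⟩).trans ?_⟩
  by_contra h7
  have h8 := (hg _ ⟨o, ho, rfl⟩).2 (not_le.1 h7)
  have h9 : sSup (N '' C) ≤ N z0 + δ1 / 2 := by
    refine csSup_le (hne.image N) ?_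
    rintro _ ⟨y, hy, rfl⟩
    linarith [h2 y hy, min_le_right (δ0 ^ 2 / 12) (δ1 / 2)]
  have h10 : N z0 ≤ N o := hm.2
  linarith

theorem p_MAX (hUP : S_UP) (hBND : S_BND) (hFOOT : S_FOOT) :
    S_MAX := by
  intro k _ n _ K A hK hA hF hW
  obtain ⟨R, hR⟩ := hBND k n K A hK hA hF hW
  obtain ⟨O, hO, hO'⟩ := hFOOT k n A hF
  obtain ⟨δ0, h0, hd⟩ := hO.discrete
  have hz : (zero : X k n) ∈ Lev A := fun a _ => by rw [ip_zero_left]; norm_num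
  have hT : ∀ z ∈ K ∩ Lev A, ∃ p ∈ K ∩ Lev A, ip z z + 3 * Dist.dist z p ^ 2 ≤ ip p p ∧
      ∃ o ∈ O, Dist.dist p o ≤ 2 * Dist.dist z p := by
    intro z hz'
    obtain ⟨p, hp, h1, h2⟩ := hUP k n K A (fun _ => -1) (smul 2 z) hK hA
      (hK.smul_mem 2 zero_le_two z hz'.1) ⟨zero, hz⟩
    refine ⟨p, ⟨hp, h1⟩, ?_, hO' z p h1 fun y hy => ?_⟩
    · have h3 := h2 z hz'.2
      rw [dist_sq]
      unfold d2 at h3 ⊢
      simp only [ip_smul_left zero_le_two, ip_smul_right zero_le_two] at h3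
      rw [ip_comm p z] at h3
      linarith
    · linarith [h2 y hy, d2_nonneg p y]
  obtain ⟨x, hx, h⟩ := max_gen (K ∩ Lev A) O (fun x => ip x x) continuous_ip_self
    (hK.closed.inter (closed_ge A fun _ => -1)) ⟨zero, hK.zero_mem, hz⟩ R
    (fun y hy => hR y hy.1 hy.2) hT h0 hd
    ((hO.finite_ip hO).subset (by rintro _ ⟨o, ho, rfl⟩; exact ⟨o, ho, o, ho, rfl⟩))
  exact ⟨x, hx.1, hx.2, fun y h1 h2 => h y ⟨h1, h2⟩⟩

end Pool.Agent.P.MP_8ecd01_al.SL
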