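import Pool.Agent.P.MP_8ecd01_al.SL.Iface

/-! Step NONC of the top-dimensional centre theorem for SL_n. -/

namespace Pool.Agent.P.MP_8ecd01_al.SL

open Matrix Module

/-- the vectors that are constant on the blocks -/
def noncW {n : ℕ} (w : Fin n → ℝ) : Submodule ℝ (Fin n → ℝ) where
  carrier := {ψ | Blk w ψ}
  add_mem' h h' := Blk.add h h'
  zero_mem' _ _ _ := rfl
  smul_mem' r _ h := Blk.smul h r

theorem nonc_small {n : ℕ} {ξ : Fin n → ℝ} {R : ℝ} (hR : 0 < R) (h0 : ∑ i, ξ i = 0)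
    (h : -1 ≤ 3 * R * ∑ i ∈ Finset.univ.filter (fun i => ξ i < 0), ξ i) :
    R ^ 2 * (ξ ⬝ᵥ ξ) < 1 := by
  have h1 : ∑ i, |ξ i| = -2 * ∑ i ∈ Finset.univ.filter (fun i => ξ i < 0), ξ i := by
    rw [show ∑ i, |ξ i| = ∑ i, |ξ i| - ∑ i, ξ i by rw [h0, sub_zero], ← Finset.sum_sub_distrib,
      Finset.sum_filter, Finset.mul_sum]
    refine Finset.sum_congr rfl fun i _ => ?_
    split_ifs with c
    · rw [abs_of_neg c]; ring
    · rw [abs_of_nonneg (not_lt.1 c)]; ring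
  have h2 : ξ ⬝ᵥ ξ ≤ (∑ i, |ξ i|) ^ 2 := by
    have := Finset.sum_sq_le_sq_sum_of_nonneg (s := Finset.univ) (f := fun i => |ξ i|)
      fun i _ => abs_nonneg _
    simpa [dotProduct, sq] using this
  have h3 : 0 ≤ ∑ i, |ξ i| := Finset.sum_nonneg fun i _ => abs_nonneg _
  have h4 : R * ∑ i, |ξ i| ≤ 2 / 3 := by rw [h1]; linarith
  have h5 := pow_le_pow_left₀ (mul_nonneg hR.le h3) h4 2
  have h6 := mul_le_mul_of_nonneg_left h2 (sq_nonneg R)
  rw [mul_pow] at h5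
  linarith

theorem p_NONC (hCEN : S_CEN) (hMAX : S_MAX) :
    S_NONC := by
  intro k _ n _ K A c w p hK h0 hT hw hw' hA hF hW hp hn
  have c1 : Cone (K ∩ Par c w) := hK.inter (cone_par c w)
  have g1 : ∀ a ∈ K, gr c w a ∈ K ∩ Par c w := fun a ha =>
    ⟨cone_gr_mem hK hw hw' ha, gr_mem c w a⟩
  have cen : ∀ ψ, Blk w ψ → ∑ i, ψ i = 0 → mk c ψ ∈ K ∩ Par c w := fun ψ h h' =>
    hCEN k n _ c w ψ c1 (fun _ h => h0 h.1) (fun _ h => h.2) (hT.gr' c w g1) (hW.mono hA) h h'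
  obtain ⟨d0, π, hd0, hq⟩ := gr_mem c w p
  have hπ : ∑ i, π i = 0 := by rw [← deg_mk d0, ← hq, deg_gr]; exact h0 hp
  have hpp : ip p p = π ⬝ᵥ π := by rw [← ip_gr_self c w, hq, ip_mk]
  have hb : ¬ Blk w π := fun hb => by
    have q2 := cen _ hb.neg (by simp [hπ])
    have i1 := ip_le_gr c w p (mk c (-π))
    rw [gr_id q2.2, hq, hd0 π hb, ip_mk (v := π), dotProduct_neg] at i1
    exact hn ⟨_, q2.1, add_eq_zero_of_ip (by rw [ip_mk, hpp]; simp) (by rw [hpp]; exact i1)⟩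
  obtain ⟨u, hu, ho⟩ := exists_orth (noncW w) π
  have hu' : Blk w u := hu
  have su : ∑ i, u i = 0 := by
    have := ho (fun _ => 1) fun _ _ _ => rfl
    simp only [dotProduct, Pi.sub_apply, mul_one, Finset.sum_sub_distrib, hπ] at this
    linarith
  have y1 : mk d0 (π - u) ∈ K ∩ Par c w := by
    have := c1.add_mem _ (g1 p hp) _ (cen _ hu'.neg (by simp [su]))
    rwa [hq, ← hd0 _ hu'.neg, add_mk, ← sub_eq_add_neg] at this
  have y0 : 0 < (π - u) ⬝ᵥ (π - u) := by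
    refine lt_of_le_of_ne (dot_self_nonneg _) fun e => hb ?_
    rw [sub_eq_zero.1 (dotProduct_self_eq_zero.1 e.symm)]
    exact hu'
  obtain ⟨R, hR, hb1⟩ := hF.bdd
  obtain ⟨N, hN⟩ : ∃ N, N = √((π - u) ⬝ᵥ (π - u)) := ⟨_, rfl⟩
  have N0 : 0 < N := hN ▸ Real.sqrt_pos.2 y0
  have N2 : N ^ 2 = (π - u) ⬝ᵥ (π - u) := hN ▸ Real.sq_sqrt y0.le
  have r0 : 0 ≤ (R * N)⁻¹ := by positivity
  let B : Set (X k n) := (fun S => mk c ((3 * R) • ind S)) '' {S | Blk w (ind S)}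
  have hB : B ⊆ K ∩ Par c w := by
    rintro _ ⟨S, hS, rfl⟩
    refine cen _ (Blk.smul hS _) ?_
    simp only [Pi.smul_apply, smul_eq_mul, ← Finset.mul_sum, sum_ind, mul_zero]
  have hF2 : FinT (A ∪ B) := hF.union (finT_finite ((Set.toFinite _).image _))
  have hA2 : A ∪ B ⊆ K ∩ Par c w := Set.union_subset hA hB
  have y2 : smul (R * N)⁻¹ (mk d0 (π - u)) ∈ Lev (A ∪ B) := by
    rintro a (ha | ⟨S, hS, rfl⟩)
    · have b1 := abs_ip_le (mk d0 (π - u)) a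
      rw [ip_mk, ← hN] at b1
      have b2 := (abs_le.1 (b1.trans (mul_le_mul_of_nonneg_left (hb1 a ha) N0.le))).1
      rw [ip_smul_left r0, ← div_eq_inv_mul, le_div_iff₀ (by positivity)]
      linarith
    · have hS' : Blk w ((3 * R) • ind S) := Blk.smul hS _
      rw [ip_smul_left r0]
      simp only []
      rw [← hd0 _ hS', ip_mk, ho _ hS']
      simp
  obtain ⟨x, ⟨hx, d, ξ, hd, rfl⟩, hl, hm⟩ := hMAX k n _ _ c1 hA2 hF2 (hW.mono Set.subset_union_left)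
  refine ⟨A ∪ B, d, ξ, hA2, hF2, hd, fun hξ => ?_, hx, hl, hm⟩
  have m1 := hm _ (c1.smul_mem _ r0 _ y1) y2
  rw [ip_smul_left r0, ip_smul_right r0, ip_mk, ip_mk, ← N2] at m1
  have sξ : ∑ i, ξ i = 0 := by rw [← deg_mk d]; exact h0 hx
  have hS : Blk w (ind (Finset.univ.filter fun i => ξ i < 0)) := fun i j e => by
    simp [ind, hξ i j e]
  have m2 := hl _ (Or.inr ⟨_, hS, rfl⟩)
  simp only [] at m2
  rw [← hd _ (Blk.smul hS _), ip_mk, dotProduct_smul, dotProduct_comm, ind_dot, sξ, mul_zero,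
    sub_zero, smul_eq_mul] at m2
  have m3 := nonc_small hR sξ m2
  have m4 := mul_le_mul_of_nonneg_left m1 (sq_nonneg R)
  have m5 : R ^ 2 * ((R * N)⁻¹ * ((R * N)⁻¹ * N ^ 2)) = 1 := by field_simp
  linarith

end Pool.Agent.P.MP_8ecd01_al.SL
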