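import Pool.Agent.P.MP_8ecd01_al.SL.Iface

/-! Step NV of the top-dimensional centre theorem for SL_n. -/

namespace Pool.Agent.P.MP_8ecd01_al.SL

open Matrix Module

theorem p_NV (hSTEP : S_STEP) (hVTX : S_VTX) :
    S_NV := by
  intro k _ n _ K A p hK h0 hT hA hf hw hp hp'
  classical
  suffices key : ∀ (m : ℕ) (c : Bs k n) (w : Fin n → ℝ) (A : Set (X k n)),
      (Finset.univ.filter fun x : Fin n × Fin n => w x.1 = w x.2).card = m → mk c w ∈ K →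
      mk c (-w) ∈ K → A ⊆ K ∩ Par c w → FinT A → Wide (K ∩ Par c w) A →
      ∃ U : Submodule k (Fin n → k), vtx U ∈ K ∧ ¬ Ant K (vtx U) from
    key _ (std k n) 0 A rfl (mk_zero (std k n) ▸ hK.zero_mem)
      (by rw [neg_zero, mk_zero]; exact hK.zero_mem) (fun a ha => ⟨hA ha, mem_par_zero _ _⟩) hf
      fun y hy => hw y hy.1
  intro m
  induction m using Nat.strong_induction_on with
  | _ m ih =>
  intro c w A hm h1 h2 h3 h4 h5
  obtain ⟨B, d, S, ξ, hB, fB, hd, hc, hb, hy, hξ, hW⟩ :=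
    hSTEP k n K A c w p hK h0 hT h1 h2 h3 h4 h5 hp hp'
  by_cases ha : Ant K (mk d (ind S))
  swap
  · exact ⟨_, by rw [(hVTX k n).1 d S]; exact ⟨hy, ha⟩⟩
  obtain ⟨q, hq, e⟩ := ha
  obtain ⟨e1, e2⟩ := ip_of_add_eq_zero e
  have e3 : add (mk d (ind S)) (gr c w q) = zero :=
    add_eq_zero_of_ip ((ip_gr_self c w q).trans e2).le ((ip_gr_compat hd hc q).trans e1).le
  obtain ⟨c1, u, h6, h7, h8⟩ := API.cb c d w (ind S) _ hd (gr_mem c w q)
  obtain rfl : u = -ind S := eq_neg_of_add (by rw [h7, ← h8, e3])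
  have e4 : mk c1 (w + ind S) = mk d (w + ind S) := by
    rw [← add_mk, ← add_mk, h7, h6 w (Blk.refl w), hd w (Blk.refl w)]
  have h9 : mk c1 (w + ind S) ∈ K := by
    rw [← add_mk, h7, h6 w (Blk.refl w)]
    exact hK.add_mem _ h1 _ hy
  have h10 : mk c1 (-(w + ind S)) ∈ K := by
    rw [neg_add, ← add_mk, ← h8, h6 _ (Blk.refl w).neg]
    exact hK.add_mem _ h2 _ (cone_gr_mem hK h1 h2 hq)
  refine ih _ (hm ▸ Finset.card_lt_card ⟨fun x hx => ?_, fun h => hb fun i j e => ?_⟩) c1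
    (w + ind S) (gr c1 (w + ind S) '' B) rfl h9 h10 ?_ (fB.gr _ _) fun y hy h => ?_
  · rintro _ ⟨a, ha, rfl⟩
    exact ⟨cone_gr_mem hK h9 h10 (hB ha), gr_mem _ _ _⟩
  · refine hW y ⟨hy.1, par_congr h6 ▸ par_mono hc.comono_add.blk hy.2⟩ fun a ha => ?_
    rw [← gr_gr e4 hξ a]
    exact (h _ ⟨a, ha, rfl⟩).trans (ip_le_gr _ _ _ _)
  · exact Finset.mem_filter.2 ⟨Finset.mem_univ _,
      hc.comono_add.blk _ _ (Finset.mem_filter.1 hx).2⟩
  · exact hc.comono_add'.blk i j (Finset.mem_filter.1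
      (h (Finset.mem_filter.2 ⟨Finset.mem_univ (i, j), e⟩))).2

end Pool.Agent.P.MP_8ecd01_al.SL
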