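import Pool.Agent.P.MP_8ecd01_al.SL.Iface

/-! Step ORB of the top-dimensional centre theorem for SL_n. -/

namespace Pool.Agent.P.MP_8ecd01_al.SL

open Matrix Module

theorem orb_sum {n : ℕ} (c : Fin n → ℝ) (s : Finset (Fin n)) :
    ∑ j, (∑ i ∈ s, c i • ind ({i} : Finset (Fin n))) j = 0 := by
  simp only [Finset.sum_apply, Pi.smul_apply, smul_eq_mul]
  rw [Finset.sum_comm]
  refine Finset.sum_eq_zero fun i _ => ?_
  rw [← Finset.mul_sum, sum_ind, mul_zero]

theorem orb_decomp {n : ℕ} (w : Fin n → ℝ) (hw : ∑ i, w i = 0) (m : ℝ) :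
    w = ∑ i, (w i - m) • ind ({i} : Finset (Fin n)) := by
  funext j
  have hn : (n : ℝ) ≠ 0 := by
    have := j.pos
    positivity
  simp only [Finset.sum_apply, Pi.smul_apply, smul_eq_mul, ind, Finset.mem_singleton,
    Finset.card_singleton, Nat.cast_one, mul_sub, mul_ite, mul_one, mul_zero,
    Finset.sum_sub_distrib, Finset.sum_ite_eq, Finset.mem_univ, if_true]
  rw [← Finset.sum_mul, Finset.sum_sub_distrib, hw]
  simp only [Finset.sum_const, Finset.card_univ, Fintype.card_fin, nsmul_eq_mul]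
  field_simp
  ring

theorem p_ORB (hSYM : S_SYM) (hVTX : S_VTX) :
    S_ORB := by
  intro k _ n _ G K hG p hp
  obtain ⟨b, w, rfl⟩ := exists_mk p
  have hw : ∑ i, w i = 0 := by
    have : deg (mk b w) = 0 := hp
    rwa [deg_mk] at this
  obtain ⟨hV1, -, -, -, -, -, hV7, hV8⟩ := hVTX k n
  have key : ∀ c : Fin n → ℝ, (∀ i, 0 ≤ c i) → ∀ s : Finset (Fin n),
      FinT {x | ∃ g ∈ G, x = g (mk b (∑ i ∈ s, c i • ind ({i} : Finset (Fin n))))} := by
    intro c hc s
    induction s using Finset.induction_on with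
    | empty =>
      refine (finT_singleton (zero : X k n)).mono ?_
      rintro _ ⟨g, hg, rfl⟩
      rw [Finset.sum_empty, mk_zero]
      exact (hSYM k n G K hG g hg).1
    | insert i s hi ih =>
      refine ((hV8.smul (hc i)).add ih).mono ?_
      rintro _ ⟨g, hg, rfl⟩
      obtain ⟨-, h2, h3, -⟩ := hSYM k n G K hG g hg
      have hx : mk b (∑ j ∈ s, c j • ind ({j} : Finset (Fin n))) ∈ X0 k n := by
        show deg _ = 0
        rw [deg_mk, orb_sum]
      obtain ⟨U', hU', -⟩ := hG.vert g hg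
        (Submodule.span k (b '' (({i} : Finset (Fin n)) : Set (Fin n))))
      rw [Finset.sum_insert hi, ← add_mk, ← smul_mk b _ (hc i), ← hV1,
        h2 _ (cone_X0.smul_mem _ (hc i) _ (hV7 _)) _ hx, h3 _ (hc i) _ (hV7 _), hU']
      exact ⟨_, ⟨_, ⟨U', rfl⟩, rfl⟩, _, ⟨g, hg, rfl⟩, rfl⟩
  have h := key (fun i => w i - -∑ j, |w j|) (fun i => by
    have h1 : |w i| ≤ ∑ j, |w j| :=
      Finset.single_le_sum (f := fun j => |w j|) (fun j _ => abs_nonneg _) (Finset.mem_univ i)
    have h2 := neg_abs_le (w i)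
    linarith) Finset.univ
  rwa [← orb_decomp w hw] at h

end Pool.Agent.P.MP_8ecd01_al.SL
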