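import Pool.Agent.P.MP_8ecd01_al.SL.Iface

/-! Step PROJ of the top-dimensional centre theorem for SL_n. -/

namespace Pool.Agent.P.MP_8ecd01_al.SL

open Matrix Module Filter Topology

theorem proj_min {k : Type} [Field k] {n : ℕ} [API k n] [CompleteSpace (X k n)] {H : Set (X k n)}
    (v : X k n) (hc : _root_.IsClosed H) (hv : Cvx H) (hne : H.Nonempty) :
    ∃ p ∈ H, ∀ h ∈ H, d2 v p ≤ d2 v h := by
  have hb : BddBelow (d2 v '' H) := ⟨0, by rintro _ ⟨h, -, rfl⟩; exact d2_nonneg _ _⟩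
  obtain ⟨m, hm⟩ : ∃ m, m = sInf (d2 v '' H) := ⟨_, rfl⟩
  have h1 : ∀ h ∈ H, m ≤ d2 v h := fun h hh => hm ▸ csInf_le hb ⟨h, hh, rfl⟩
  have h2 : ∀ j : ℕ, ∃ h ∈ H, d2 v h < m + 1 / ((j : ℝ) + 1) := fun j => by
    have : sInf (d2 v '' H) < m + 1 / ((j : ℝ) + 1) := by
      rw [← hm]; exact lt_add_of_pos_right _ (by positivity)
    obtain ⟨_, ⟨h, hh, rfl⟩, e⟩ := exists_lt_of_csInf_lt (hne.image _) this
    exact ⟨h, hh, e⟩
  choose u hu hu' using h2
  have h0 : Tendsto (fun j : ℕ => 1 / ((j : ℝ) + 1)) atTop (𝓝 0) :=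
    tendsto_one_div_add_atTop_nhds_zero_nat
  have h3 : CauchySeq u := by
    refine cauchySeq_of_le_tendsto_0 (fun N : ℕ => √(4 * (1 / ((N : ℝ) + 1)))) (fun i j N hi hj => ?_)
      ?_
    · refine Real.sqrt_le_sqrt ?_
      have e1 := d2_seg (u i) (u j) v (t := 1 / 2) (by norm_num) (by norm_num)
      have e2 := h1 _ (hv _ (hu i) _ (hu j) (1 / 2) (by norm_num) (by norm_num))
      have e3 : 1 / ((i : ℝ) + 1) ≤ 1 / ((N : ℝ) + 1) := Nat.one_div_le_one_div hi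
      have e4 : 1 / ((j : ℝ) + 1) ≤ 1 / ((N : ℝ) + 1) := Nat.one_div_le_one_div hj
      linarith [hu' i, hu' j]
    · have := (h0.const_mul 4).sqrt
      rwa [mul_zero, Real.sqrt_zero] at this
  obtain ⟨p, hp⟩ := cauchySeq_tendsto_of_complete h3
  refine ⟨p, hc.mem_of_tendsto hp (Eventually.of_forall hu), fun h hh => le_trans ?_ (h1 h hh)⟩
  have e1 : Tendsto (fun j => d2 v (u j)) atTop (𝓝 (d2 v p)) := by
    simp only [← dist_sq]
    exact ((tendsto_const_nhds (x := v)).dist hp).pow 2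
  have e2 := h0.const_add m
  rw [add_zero] at e2
  exact le_of_tendsto_of_tendsto' e1 e2 fun j => (hu' j).le

theorem p_PROJ (hCPL : S_CPL) :
    S_PROJ := by
  intro k _ n _ H v hc hv hne
  have := hCPL k n
  obtain ⟨p, hp, hmin⟩ := proj_min v hc hv hne
  refine ⟨p, hp, fun h hh => le_of_forall_pos_le_add fun ε hε => ?_⟩
  have hd := d2_nonneg p h
  obtain ⟨t, ht⟩ : ∃ t, t = ε / (d2 p h + ε) := ⟨_, rfl⟩
  have h0 : 0 < t := ht ▸ by positivity
  have h1 : t * (d2 p h + ε) = ε := by rw [ht]; field_simp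
  have h2 : t ≤ 1 := by rw [ht]; exact (div_le_one (by positivity)).2 (by linarith)
  have e1 := (hmin _ (hv _ hp _ hh t h0.le h2)).trans (d2_seg p h v h0.le h2)
  have e2 : t * (d2 v p + (1 - t) * d2 p h) ≤ t * d2 v h := by linarith
  have e3 := le_of_mul_le_mul_left e2 h0
  nlinarith [mul_pos h0 hε]

end Pool.Agent.P.MP_8ecd01_al.SL
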