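import Pool.Agent.P.MP_8ecd01_al.SL.Iface

/-! Step RET of the top-dimensional centre theorem for SL_n. -/

namespace Pool.Agent.P.MP_8ecd01_al.SL

open Matrix Module

variable {k : Type} [Field k] {n : ℕ}

/-- Two bases of the same full flag see the same leading index. -/
theorem ret_tri {b c : Bs k n} {w : Fin n → ℕ} (hw : Function.Injective w)
    (h : pt c (fun i => w i) = pt b fun i => w i) {x : Fin n → k} {j : Fin n}
    (h0 : c.repr x j ≠ 0) (hm : ∀ i, c.repr x i ≠ 0 → w j ≤ w i) : b.repr x j ≠ 0 := fun e => by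
  have h1 : x ∈ pt b (fun i => w i) (w j) := h ▸ mem_pt.2 fun i hi => Nat.cast_le.2 (hm i hi)
  have h2 : x ∈ pt c (fun i => w i) (w j + 1 : ℕ) := h ▸ mem_pt.2 fun i hi => Nat.cast_le.2
    ((Nat.cast_le.1 (mem_pt.1 h1 i hi)).lt_of_ne fun e' => hi (hw e' ▸ e))
  exact Nat.not_succ_le_self _ (Nat.cast_le.1 (mem_pt.1 h2 j h0))

open Classical in
theorem ret_rank {b c : Bs k n} {w : Fin n → ℕ} (hw : Function.Injective w)
    (h : pt c (fun i => w i) = pt b fun i => w i) (ψ ζ : Fin n → ℝ) (s t : ℝ) :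
    finrank k (pt b ψ s ⊓ pt c ζ t : Submodule k (Fin n → k)) ≤
      (Finset.univ.filter fun i => s ≤ ψ i ∧ t ≤ ζ i).card := by
  set T := Finset.univ.filter fun i => s ≤ ψ i ∧ t ≤ ζ i
  have h1 : Disjoint (pt b ψ s ⊓ pt c ζ t) (Submodule.span k (b '' (Tᶜ : Finset (Fin n)))) := by
    refine Submodule.disjoint_def.2 fun x hx hx' => by_contra fun h0 => ?_
    obtain ⟨j, hj, hm⟩ := (c.repr x).support.exists_min_image w
      (Finsupp.support_nonempty_iff.2 fun e => h0 (c.repr.map_eq_zero_iff.1 e))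
    rw [Finsupp.mem_support_iff] at hj
    have h2 := ret_tri hw h hj fun i hi => hm i (Finsupp.mem_support_iff.2 hi)
    exact Finset.mem_compl.1 (b.mem_span_image.1 hx' (Finsupp.mem_support_iff.2 h2))
      (Finset.mem_filter.2 ⟨Finset.mem_univ _, mem_pt.1 hx.1 j h2, mem_pt.1 hx.2 j hj⟩)
  have h2 := Submodule.finrank_add_finrank_le_of_disjoint h1
  have h3 := T.card_add_card_compl
  rw [finrank_span_basis, finrank_fintype_fun_eq_card] at h2
  omega

theorem p_RET (hCB : S_CB) (hTYP : S_TYP) (hLC : S_LC) (hIP : S_IP) :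
    S_RET := by
  intro k _ n b φ z
  let w : Fin n → ℕ := fun i => (Tuple.sort φ).symm i
  have hw : Function.Injective w := Fin.val_injective.comp (Tuple.sort φ).symm.injective
  have hc : Comono (fun i => w i) φ := fun i j e => by
    simpa using Tuple.monotone_sort φ (Fin.le_def.2 (Nat.cast_le.1 e))
  obtain ⟨c, ζ, -, h1, rfl⟩ := hCB k n b b 0 (fun i => w i) z (Apt.refl _ _) (mem_par_zero _ _)
  refine ⟨ζ, (hIP k n _ _ _).symm, by rw [← mk_comp h1 hc, hIP], fun ψ => ?_⟩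
  obtain ⟨d, ζ', -, h2, h3⟩ := hCB k n b b 0 ψ (mk c ζ) (Apt.refl _ _) (mem_par_zero _ _)
  obtain ⟨σ, h4⟩ := hTYP k n _ _ _ _ h3
  rw [← h2, h3, hIP]
  refine hLC n ψ ζ ψ ζ' (fun s t => ?_) rfl (h4 ▸ Equiv.sum_comp σ ζ)
  rw [← finrank_pt_inf d, mk_eq_iff.1 h2, ← mk_eq_iff.1 h3]
  exact ret_rank hw (mk_eq_iff.1 h1) ψ ζ s t

end Pool.Agent.P.MP_8ecd01_al.SL
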