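import Pool.Agent.P.MP_8ecd01_al.SL.Iface

/-! Step RINV of the top-dimensional centre theorem for SL_n. -/

namespace Pool.Agent.P.MP_8ecd01_al.SL

open Matrix Module

theorem rinv_nat {n i p q : ℕ} (hn : 3 ≤ n) (h : n * i = 1 + p * q)
    (hp : p = 1 ∨ p + 1 = n) (hq : q = 1 ∨ q + 1 = n) :
    i = 1 ∧ ((p = 1 ∧ q + 1 = n) ∨ (q = 1 ∧ p + 1 = n)) := by
  rcases hp with hp | hp <;> rcases hq with hq | hq
  · subst hp hq
    have : n ∣ 2 := ⟨i, by omega⟩
    have := Nat.le_of_dvd two_pos this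
    omega
  · subst hp
    refine ⟨?_, Or.inl ⟨rfl, hq⟩⟩
    have : n * i = n * 1 := by omega
    exact Nat.eq_of_mul_eq_mul_left (by omega) this
  · subst hq
    refine ⟨?_, Or.inr ⟨rfl, hp⟩⟩
    have : n * i = n * 1 := by omega
    exact Nat.eq_of_mul_eq_mul_left (by omega) this
  · exfalso
    obtain rfl : q = p := by omega
    subst hp
    have h1 : ((q + 1 : ℕ) : ℤ) ∣ 2 := ⟨(i : ℤ) - q + 1, by
      have : ((q : ℤ) + 1) * i = 1 + q * q := by exact_mod_cast h
      push_cast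
      linarith⟩
    have := Int.le_of_dvd two_pos h1
    omega

theorem p_RINV (hVTX : S_VTX) (hSYM : S_SYM) :
    S_RINV := by
  intro k _ n _ G K hn hK hG
  obtain ⟨-, -, hV3, -, -, -, hV7, hV8⟩ := hVTX k n
  refine ⟨(hV8.add hV8).mono ?_, ?_⟩
  · rintro _ ⟨-, -, P, H, -, -, -, rfl⟩
    exact ⟨_, ⟨P, rfl⟩, _, ⟨H, rfl⟩, rfl⟩
  · rintro g hg r ⟨hr, hna, P, H, hP, hH, hPH, e⟩
    obtain ⟨-, h2, -, -, h5, -⟩ := hSYM k n G K hG g hg
    refine ⟨hG.maps g hg r hr, fun h => hna (h5 hK r (hK hr) h), ?_⟩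
    obtain ⟨P', eP, dP⟩ := hG.vert g hg P
    obtain ⟨H', eH, dH⟩ := hG.vert g hg H
    have e' : g r = add (vtx P') (vtx H') := by rw [e, h2 _ (hV7 _) _ (hV7 _), eP, eH]
    have h1 := hG.ip_eq g hg _ (hV7 P) _ (hV7 H)
    rw [eP, eH, hV3, hV3, inf_eq_left.2 hPH, hP] at h1
    have hn0 : (n : ℝ) ≠ 0 := by
      have : 0 < n := by omega
      positivity
    have hH' : (finrank k H : ℝ) + 1 = n := by exact_mod_cast hH
    have h3 : n * finrank k (P' ⊓ H' : Submodule k (Fin n → k)) =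
        1 + finrank k P' * finrank k H' := by
      have : (n : ℝ) * finrank k (P' ⊓ H' : Submodule k (Fin n → k)) =
          1 + finrank k P' * finrank k H' := by
        field_simp at h1
        push_cast at h1
        linarith
      exact_mod_cast this
    obtain ⟨hi, hc⟩ := rinv_nat hn h3 (by omega) (by omega)
    rcases hc with ⟨c1, c2⟩ | ⟨c1, c2⟩
    · refine ⟨P', H', c1, c2, ?_, e'⟩
      exact inf_eq_left.1 (Submodule.eq_of_le_of_finrank_eq inf_le_left (by rw [hi, c1]))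
    · refine ⟨H', P', c1, c2, ?_, by rw [e', add_comm']⟩
      exact inf_eq_right.1 (Submodule.eq_of_le_of_finrank_eq inf_le_right (by rw [hi, c1]))

end Pool.Agent.P.MP_8ecd01_al.SL
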