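import Pool.Agent.P.MP_8ecd01_al.SL.Iface

/-! Step ROOT of the top-dimensional centre theorem for SL_n. -/

namespace Pool.Agent.P.MP_8ecd01_al.SL

open Matrix Module

section
variable {k : Type} [Field k] {n : ℕ}

/-- point-hyperplane flags -/
def rootFl (P H : Submodule k (Fin n → k)) : Prop :=
  finrank k P = 1 ∧ finrank k H + 1 = n ∧ P ≤ H

/-- the flags of the root points without antipode -/
def rootR (K : Set (X k n)) (P H : Submodule k (Fin n → k)) : Prop :=
  rootFl P H ∧ add (vtx P) (vtx H) ∈ K ∧ ¬ Ant K (add (vtx P) (vtx H))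

theorem root_inf0 {P H : Submodule k (Fin n → k)} (hP : finrank k P = 1) (h : ¬ P ≤ H) :
    finrank k (P ⊓ H : Submodule k (Fin n → k)) = 0 := by
  have := Submodule.finrank_lt_finrank_of_lt
    (lt_of_le_of_ne (inf_le_left : P ⊓ H ≤ P) fun e => h (inf_eq_left.1 e))
  omega

theorem root_le (U : Submodule k (Fin n → k)) : finrank k U ≤ n :=
  U.finrank_le.trans (by simp)

variable [API k n]

theorem root_ip (hVTX : S_VTX) {P H : Submodule k (Fin n → k)} (h : rootFl P H)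
    (U : Submodule k (Fin n → k)) : ip (vtx U) (add (vtx P) (vtx H)) =
      (finrank k (P ⊓ U : Submodule k (Fin n → k)) : ℝ) +
        finrank k (H ⊓ U : Submodule k (Fin n → k)) - finrank k U := by
  obtain ⟨-, -, h3, -, -, h6, -⟩ := hVTX k n
  have e : (n : ℝ) = finrank k H + 1 := by exact_mod_cast h.2.1.symm
  have e0 : (n : ℝ) ≠ 0 := by rw [e]; positivity
  rw [ip_comm, h6 P H _ h.2.2, h3, h3, h.1, eq_sub_of_add_eq e.symm]
  field_simp
  ring

theorem root_ip2 (hVTX : S_VTX) {P H P2 H2 : Submodule k (Fin n → k)} (h : rootFl P H)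
    (h2 : rootFl P2 H2) : ip (add (vtx P2) (vtx H2)) (add (vtx P) (vtx H)) =
      (finrank k (P ⊓ P2 : Submodule k (Fin n → k)) : ℝ) +
        finrank k (H ⊓ P2 : Submodule k (Fin n → k)) +
        finrank k (P ⊓ H2 : Submodule k (Fin n → k)) +
        finrank k (H ⊓ H2 : Submodule k (Fin n → k)) - n := by
  have e : (n : ℝ) = finrank k H2 + 1 := by exact_mod_cast h2.2.1.symm
  rw [(hVTX k n).2.2.2.2.2.1 P2 H2 _ h2.2.2, root_ip hVTX h, root_ip hVTX h, h2.1]
  push_cast
  linarith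

theorem root_norm (hVTX : S_VTX) {P H : Submodule k (Fin n → k)} (h : rootFl P H) :
    ip (add (vtx P) (vtx H)) (add (vtx P) (vtx H)) = 2 := by
  have e : (n : ℝ) = finrank k H + 1 := by exact_mod_cast h.2.1.symm
  rw [root_ip2 hVTX h h, inf_idem, inf_idem, inf_eq_left.2 h.2.2, inf_eq_right.2 h.2.2, h.1]
  push_cast
  linarith

theorem root_key (hVTX : S_VTX) (hIDEAL : S_IDEAL) {K : Set (X k n)} (hK : Cone K)
    {P H P2 H2 : Submodule k (Fin n → k)} (h : rootR K P H) (h2 : rootR K P2 H2)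
    (hn : ¬ P ≤ H2) : rootR K P2 H := by
  have a1 := root_inf0 h.1.1 hn
  have a2 := root_inf0 h.1.1 fun e : P ≤ P2 => hn (e.trans h2.1.2.2)
  have a3 : finrank k (H ⊓ H2 : Submodule k (Fin n → k)) + 2 = n := by
    have b1 := Submodule.finrank_sup_add_finrank_inf_eq H H2
    have b2 := root_le (H ⊔ H2)
    have b3 := Submodule.finrank_lt_finrank_of_lt (lt_of_le_of_ne (le_sup_right : H2 ≤ H ⊔ H2)
      fun e => hn (h.1.2.2.trans (le_sup_left.trans e.ge)))
    have b4 := h.1.2.1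
    have b5 := h2.1.2.1
    omega
  have a4 : (n : ℝ) = finrank k (H ⊓ H2 : Submodule k (Fin n → k)) + 2 := by
    exact_mod_cast a3.symm
  have a5 : (n : ℝ) = finrank k H + 1 := by exact_mod_cast h.1.2.1.symm
  have n1 := root_norm hVTX h.1
  have n2 := root_norm hVTX h2.1
  have i1 := root_ip2 hVTX h.1 h2.1
  rw [a1, a2, ip_comm] at i1
  have hle : P2 ≤ H := by
    by_contra c
    rw [inf_comm H P2, root_inf0 h2.1.1 c] at i1
    push_cast at i1
    exact h.2.2 ⟨_, h2.2.1, add_eq_zero_of_ip (by rw [n1, n2]) (by rw [n1, i1]; linarith)⟩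
  have f3 : rootFl P2 H := ⟨h2.1.1, h.1.2.1, hle⟩
  have n3 := root_norm hVTX f3
  have i2 := root_ip2 hVTX f3 h.1
  have i3 := root_ip2 hVTX f3 h2.1
  rw [inf_eq_right.2 hle, h2.1.1] at i1
  rw [inf_comm P2 P, a2, inf_eq_right.2 h.1.2.2, inf_eq_left.2 hle, inf_idem, h.1.1, h2.1.1] at i2
  rw [inf_idem, inf_eq_right.2 hle, inf_eq_left.2 h2.1.2.2, h2.1.1] at i3
  push_cast at i1 i2 i3
  have e : add (add (vtx P) (vtx H)) (add (vtx P2) (vtx H2)) = add (vtx P2) (vtx H) := by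
    refine eq_of_d2 ?_
    have := ip_add_ge (add (vtx P) (vtx H)) (add (vtx P2) (vtx H2)) (add (vtx P2) (vtx H))
    rw [d2, ip_add_add]
    linarith
  exact ⟨f3, e ▸ hK.add_mem _ h.2.1 _ h2.2.1,
    fun c => h.2.2 (hIDEAL k n K _ _ hK h.2.1 h2.2.1 (e ▸ c))⟩

end

theorem p_ROOT (hVTX : S_VTX) (hIDEAL : S_IDEAL) :
    S_ROOT := by
  intro k _ n _ K hK
  let Y : Submodule k (Fin n → k) → Submodule k (Fin n → k) := fun H => sSup {P | rootR K P H}
  have hY : ∀ P H P2 H2, rootR K P H → rootR K P2 H2 → ¬ P ≤ H2 →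
      finrank k (Y H2) < finrank k (Y H) := fun P H P2 H2 h h2 hn =>
    Submodule.finrank_lt_finrank_of_lt (lt_of_le_of_ne
      (sSup_le fun P' hP' => le_sSup (root_key hVTX hIDEAL hK h hP' hn)) fun e =>
        hn ((le_sSup (s := {P | rootR K P H}) h).trans
          (e.ge.trans (sSup_le fun P' hP' => hP'.1.2.2))))
  let V : ℕ → Submodule k (Fin n → k) := fun m =>
    sSup {P | ∃ H, rootR K P H ∧ finrank k (Y H) ≤ m}
  have hV : ∀ m P H, rootR K P H → 0 ≤ ip (vtx (V m)) (add (vtx P) (vtx H)) ∧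
      (m = finrank k (Y H) → 0 < ip (vtx (V m)) (add (vtx P) (vtx H))) := by
    intro m P H h
    have v1 : m ≤ finrank k (Y H) → H ⊓ V m = V m := fun e => inf_eq_right.2 (sSup_le ?_)
    swap
    · rintro P' ⟨H', h', e'⟩
      by_contra c
      have := hY _ _ _ _ h' h c
      omega
    have v2 : finrank k (Y H) ≤ m → P ⊓ V m = P := fun e => inf_eq_left.2 (le_sSup ⟨H, h, e⟩)
    rw [root_ip hVTX h.1]
    refine ⟨?_, fun e => ?_⟩
    · rcases le_total m (finrank k (Y H)) with e | e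
      · rw [v1 e, add_sub_cancel_right]
        positivity
      · have b1 := Submodule.finrank_sup_add_finrank_inf_eq H (V m)
        have b2 := root_le (H ⊔ V m)
        have b3 := h.1.2.1
        rw [v2 e, h.1.1, sub_nonneg]
        exact_mod_cast (by omega)
    · rw [v1 e.le, v2 e.ge, h.1.1, add_sub_cancel_right]
      positivity
  have main : ∀ M : ℕ, ∃ y : X k n, ∀ P H, rootR K P H → 0 ≤ ip y (add (vtx P) (vtx H)) ∧
      (finrank k (Y H) < M → 0 < ip y (add (vtx P) (vtx H))) := by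
    intro M
    induction M with
    | zero => exact ⟨zero, fun P H _ => ⟨(ip_zero_left _).ge, fun e => absurd e (by omega)⟩⟩
    | succ M ih =>
      obtain ⟨y, hy⟩ := ih
      refine ⟨add y (vtx (V M)), fun P H h => ?_⟩
      have b1 := ip_add_ge y (vtx (V M)) (add (vtx P) (vtx H))
      obtain ⟨b2, b3⟩ := hy P H h
      obtain ⟨b4, b5⟩ := hV M P H h
      refine ⟨by linarith, fun e => ?_⟩
      rcases Nat.lt_succ_iff_lt_or_eq.1 e with e | e
      · linarith [b3 e]
      · linarith [b5 e.symm]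
  obtain ⟨y, hy⟩ := main (n + 1)
  refine ⟨y, ?_⟩
  rintro r ⟨h1, h2, P, H, h3, h4, h5, rfl⟩
  exact (hy P H ⟨⟨h3, h4, h5⟩, h1, h2⟩).2 (Nat.lt_succ_of_le (root_le _))

end Pool.Agent.P.MP_8ecd01_al.SL
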