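import Pool.Agent.P.MP_8ecd01_al.SL.Iface

/-! Step STEP of the top-dimensional centre theorem for SL_n. -/

namespace Pool.Agent.P.MP_8ecd01_al.SL

open Matrix Module

open Classical in
theorem step_ind {n : ℕ} (ξ : Fin n → ℝ) (r : ℝ) :
    Comono ξ (ind (Finset.univ.filter fun l => r ≤ ξ l)) := by
  intro a b h
  simp only [ind, Finset.mem_filter, Finset.mem_univ, true_and, sub_le_sub_iff_right]
  split_ifs with h1 h2
  · exact le_rfl
  · exact absurd (h1.trans h) h2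
  · exact zero_le_one
  · exact le_rfl

theorem step_pair {n : ℕ} {w ξ : Fin n → ℝ} (t : ℝ) (h : ¬ Blk w ξ) :
    ∃ i j, w i = w j ∧ (ξ + t • w) i < (ξ + t • w) j := by
  simp only [Blk, not_forall] at h
  obtain ⟨i, j, e, h⟩ := h
  rcases lt_or_gt_of_ne h with h | h
  · exact ⟨i, j, e, by simp only [Pi.add_apply, Pi.smul_apply, e]; linarith⟩
  · exact ⟨j, i, e.symm, by simp only [Pi.add_apply, Pi.smul_apply, e]; linarith⟩

theorem p_STEP (hNONC : S_NONC) (hLINK : S_LINK) (hCEN : S_CEN) (hSIMP : S_SIMP) :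
    S_STEP := by
  classical
  intro k _ n _ K A c w p hK hX hT h1 h2 hA hF hW hp hn
  obtain ⟨A2, d, ξ0, a1, a2, a3, a4, a5, a6, a7⟩ :=
    hNONC k n K A c w p hK hX hT h1 h2 hA hF hW hp hn
  have e1 : Par d w = Par c w := par_congr a3
  have e2 : mk d w = mk c w := a3 w (Blk.refl w)
  have e3 : mk d (-w) = mk c (-w) := a3 _ (Blk.refl w).neg
  obtain ⟨t, ht, hc⟩ := exists_large w ξ0
  have hK1 : Cone (K ∩ Par c w) := hK.inter (cone_par c w)
  have m0 : mk d ξ0 ∈ K ∩ Par c w := ⟨a5, mk_mem_par a3 _⟩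
  obtain ⟨D, d1, d2, d3, d4, d5⟩ := hLINK k n (K ∩ Par c w) A2 d w ξ0 t hK1
    (fun x hx => hX hx.1) (fun x hx => e1 ▸ hx.2) ⟨e2 ▸ h1, mk_mem_par a3 _⟩
    ⟨e3 ▸ h2, mk_mem_par a3 _⟩ a1 ht.le hc.blk m0 a6 a7
  have hB : insert (mk d ξ0) A2 ⊆ K ∩ Par c w := Set.insert_subset m0 a1
  have t1 : Top (K ∩ Par c w) :=
    hT.gr' c w fun a ha => ⟨cone_gr_mem hK h1 h2 ha, gr_mem c w a⟩
  have t2 : Top D := t1.gr' d _ d4
  have w2 : Wide D D := d5.mono (by rintro _ ⟨a, ha, rfl⟩; exact d4 a (hB ha))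
  obtain ⟨i, j, e, hij⟩ := step_pair t a4
  have c1 := step_ind (ξ0 + t • w) ((ξ0 + t • w) j)
  set S := Finset.univ.filter fun l => (ξ0 + t • w) j ≤ (ξ0 + t • w) l with hS
  have c2 : mk d (-ind S) ∈ D := hCEN k n D d _ _ d1 d2 d3 t2 w2 c1.blk.neg
    (by simp [sum_ind S])
  have c3 := hSIMP k n _ D _ d _ _ hK1 d1 d3 d4 hB d5 c1 c2
  refine ⟨insert (mk d ξ0) A2, d, S, ξ0 + t • w, fun x hx => (hB hx).1, a2.insert _, a3,
    fun a b h => c1 a b (le_of_not_gt fun q => absurd (hc b a q.le) (not_le.2 h)), fun h => ?_,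
    c3.1, fun a b h => add_le_add (hc a b h) (c1 a b h), fun y hy h => ?_⟩
  · have := h i j e
    have hi : i ∉ S := fun q => absurd (Finset.mem_filter.1 q).2 (not_le.2 hij)
    have hj : j ∈ S := Finset.mem_filter.2 ⟨Finset.mem_univ _, le_rfl⟩
    simp only [ind, if_neg hi, if_pos hj] at this
    linarith
  · have := d5 _ (d4 y hy) (by rintro _ ⟨a, ha, rfl⟩; exact h a ha)
    refine eq_zero_of_ip_self ?_
    rw [← ip_gr_self d (ξ0 + t • w) y, this, ip_zero_left]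

end Pool.Agent.P.MP_8ecd01_al.SL
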