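import Pool.Agent.P.MP_8ecd01_al.SL.Iface

/-! Step SYM of the top-dimensional centre theorem for SL_n. -/

namespace Pool.Agent.P.MP_8ecd01_al.SL

open Matrix Module

section

variable {k : Type} [Field k] {n : ℕ} [API k n] {G : Set (X k n → X k n)} {K : Set (X k n)}
  {g : X k n → X k n}

theorem sym_zero (hG : Sym G K) (hg : g ∈ G) : g zero = zero := by
  refine eq_zero_of_ip_self ?_
  rw [hG.ip_eq g hg _ cone_X0.zero_mem _ cone_X0.zero_mem, ip_zero_left]

theorem sym_add (hG : Sym G K) (hg : g ∈ G) {x y : X k n} (hx : x ∈ X0 k n) (hy : y ∈ X0 k n) :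
    g (add x y) = add (g x) (g y) := by
  have hs := cone_X0.add_mem x hx y hy
  have e := hG.ip_eq g hg
  refine eq_of_d2 ?_
  have h1 := ip_add_ge' (g x) (g y) (g (add x y))
  rw [e _ hs _ hx, e _ hs _ hy, ip_add_left_self, ip_add_right_self, ip_comm y x] at h1
  unfold d2
  rw [e _ hs _ hs, ip_add_add, ip_add_add, e _ hx _ hx, e _ hx _ hy, e _ hy _ hy]
  linarith

theorem sym_smul (hG : Sym G K) (hg : g ∈ G) {r : ℝ} (hr : 0 ≤ r) {x : X k n} (hx : x ∈ X0 k n) :
    g (smul r x) = smul r (g x) := by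
  have hs := cone_X0.smul_mem r hr x hx
  have e := hG.ip_eq g hg
  refine eq_of_d2 ?_
  unfold d2
  rw [e _ hs _ hs, ip_smul_right hr (g (smul r x)), e _ hs _ hx]
  simp only [ip_smul_left hr, ip_smul_right hr, e _ hx _ hx]
  linarith

theorem sym_dist (hG : Sym G K) (hg : g ∈ G) {x y : X k n} (hx : x ∈ X0 k n) (hy : y ∈ X0 k n) :
    Dist.dist (g x) (g y) = Dist.dist x y := by
  have e := hG.ip_eq g hg
  rw [dist_def, dist_def]
  unfold d2
  rw [e _ hx _ hx, e _ hx _ hy, e _ hy _ hy]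

end

theorem p_SYM :
    S_SYM := by
  intro k _ n _ G K hG g hg
  refine ⟨sym_zero hG hg, fun x hx y hy => sym_add hG hg hx hy,
    fun r hr x hx => sym_smul hG hg hr hx, fun x hx y hy => sym_dist hG hg hx hy, ?_, ?_⟩
  · rintro hK p hp ⟨q, hq, e⟩
    obtain ⟨h, hh, hi⟩ := hG.inv g hg
    refine ⟨h q, hG.maps h hh q hq, ?_⟩
    have := sym_add hG hh (hG.x0 g hg p hp) (hK hq)
    rw [e, sym_zero hG hh, (hi p hp).2] at this
    exact this.symm
  · intro L hL
    have hc : ContinuousOn g (X0 k n) :=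
      (LipschitzOnWith.of_dist_le_mul (K := 1) fun x hx y hy => by
        rw [sym_dist hG hg hx hy]; simp).continuousOn
    refine ⟨hc.preimage_isClosed_of_isClosed cone_X0.closed hL.closed,
      ⟨cone_X0.zero_mem, by rw [sym_zero hG hg]; exact hL.zero_mem⟩,
      fun x hx y hy => ⟨cone_X0.add_mem x hx.1 y hy.1, ?_⟩,
      fun r hr x hx => ⟨cone_X0.smul_mem r hr x hx.1, ?_⟩⟩
    · rw [sym_add hG hg hx.1 hy.1]
      exact hL.add_mem _ hx.2 _ hy.2
    · rw [sym_smul hG hg hr hx.1]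
      exact hL.smul_mem r hr _ hx.2

end Pool.Agent.P.MP_8ecd01_al.SL
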