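import Pool.Agent.P.MP_8ecd01_al.SL.Iface

/-! Step TRA of the top-dimensional centre theorem for SL_n. -/

namespace Pool.Agent.P.MP_8ecd01_al.SL

open Matrix Module

section
variable {k : Type} [Field k] {n : ℕ}

theorem tra_emb {s : Delta k n} {b : Bs k n} {w : Fin n → ℝ} : s.1 = pt b w ↔ emb s = mk b w :=
  (Subtype.ext_iff (a1 := emb s) (a2 := mk b w)).symm

theorem tra_inj {s s' : Delta k n} (h : emb s = emb s') : s = s' :=
  Subtype.ext (congrArg (fun x : X k n => x.1) h)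

variable [API k n]

theorem tra_one (s : Delta k n) : emb s ∈ X0 k n ∧ ip (emb s) (emb s) = 1 := by
  obtain ⟨b, w, h0, h1, h⟩ := s.2
  rw [tra_emb.1 h]
  refine ⟨(deg_mk b w).trans h0, ?_⟩
  rw [ip_mk, ← h1]
  simp [dotProduct, sq]

theorem tra_norm {r : ℝ} (hr : 0 < r) (s : Delta k n) :
    ip (smul r (emb s)) (smul r (emb s)) = r ^ 2 := by
  rw [ip_smul_left hr.le, ip_smul_right hr.le, (tra_one s).2]
  ring

theorem tra_uniq {r r' : ℝ} {s s' : Delta k n} (hr : 0 < r) (hr' : 0 < r')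
    (h : smul r (emb s) = smul r' (emb s')) : r = r' ∧ s = s' := by
  have h1 := tra_norm hr s
  rw [h, tra_norm hr'] at h1
  have h2 : r = r' := ((pow_left_inj₀ hr'.le hr.le two_ne_zero).1 h1).symm
  subst h2
  refine ⟨rfl, tra_inj ?_⟩
  have h3 := congrArg (smul r⁻¹) h
  rwa [smul_smul' (inv_pos.2 hr).le hr.le, smul_smul' (inv_pos.2 hr).le hr.le,
    inv_mul_cancel₀ hr.ne', one_smul', one_smul'] at h3

theorem tra_dist (s s' : Delta k n) : SL.dist s s' = Real.arccos (ip (emb s) (emb s')) := by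
  have : {θ | ∃ b v w, s.1 = pt b v ∧ s'.1 = pt b w ∧ θ = Real.arccos (∑ i, v i * w i)} =
      {Real.arccos (ip (emb s) (emb s'))} := by
    ext θ
    constructor
    · rintro ⟨b, v, w, h1, h2, rfl⟩
      rw [tra_emb.1 h1, tra_emb.1 h2, ip_mk]
      rfl
    · rintro rfl
      obtain ⟨b, v, w, h1, h2⟩ := common (emb s) (emb s')
      refine ⟨b, v, w, tra_emb.2 h1, tra_emb.2 h2, ?_⟩
      rw [h1, h2, ip_mk]
      rfl
  unfold SL.dist
  rw [this, csInf_singleton]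

theorem tra_mem (s s' : Delta k n) : ip (emb s) (emb s') ∈ Set.Icc (-1 : ℝ) 1 := by
  have := abs_ip_le (emb s) (emb s')
  rw [(tra_one s).2, (tra_one s').2, Real.sqrt_one, mul_one] at this
  exact abs_le.1 this

omit [API k n] in
theorem tra_fix (β : Equiv.Perm (Delta k n)) (x : X k n)
    (h : ¬ ∃ r : ℝ, 0 < r ∧ ∃ s : Delta k n, x = smul r (emb s)) : lift β x = x := by
  unfold lift
  exact dif_neg fun ⟨p, h1, h2⟩ => h ⟨p.1, h1, p.2, h2⟩

end

theorem p_TRA :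
    S_TRA := by
  intro k _ n _
  refine ⟨tra_one, fun x hx h0 => ?_, fun r r' s s' => tra_uniq, fun β r s hr => ?_, tra_fix,
    fun β => tra_fix β _ ?_, tra_dist, fun s s' => ⟨?_, fun h => ?_⟩, fun β hβ s s' => ?_⟩
  · have h1 := ip_self_pos h0
    obtain ⟨b, v, rfl⟩ := exists_mk x
    rw [ip_mk] at h1
    have hr : 0 < √(v ⬝ᵥ v) := Real.sqrt_pos.2 h1
    have h2 : ∑ i, v i = 0 := (deg_mk b v).symm.trans hx
    refine ⟨_, hr, ⟨pt b ((√(v ⬝ᵥ v))⁻¹ • v), b, _, ?_, ?_, rfl⟩, ?_⟩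
    · simp only [Pi.smul_apply, smul_eq_mul, ← Finset.mul_sum, h2, mul_zero]
    · simp only [Pi.smul_apply, smul_eq_mul, mul_pow, ← Finset.mul_sum, inv_pow,
        Real.sq_sqrt h1.le]
      rw [show ∑ i, v i ^ 2 = v ⬝ᵥ v by simp [dotProduct, sq]]
      exact inv_mul_cancel₀ h1.ne'
    · change _ = smul _ (mk b _)
      rw [smul_mk _ _ hr.le, smul_smul, mul_inv_cancel₀ hr.ne', one_smul]
  · have h : ∃ p : ℝ × Delta k n, 0 < p.1 ∧ smul r (emb s) = smul p.1 (emb p.2) :=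
      ⟨(r, s), hr, rfl⟩
    unfold lift
    rw [dif_pos h]
    obtain ⟨h1, h2⟩ := tra_uniq hr h.choose_spec.1 h.choose_spec.2
    rw [← h1, ← h2]
  · rintro ⟨r, hr, s, h⟩
    have := tra_norm hr s
    rw [← h, ip_zero_left] at this
    exact (pow_pos hr 2).ne this
  · rintro ⟨b, v, h1, h2⟩
    rw [tra_emb.1 h1, tra_emb.1 h2, add_mk, add_neg_cancel, mk_zero]
  · obtain ⟨b, v, u, h1, h2⟩ := common (emb s) (emb s')
    rw [h1, h2] at h
    exact ⟨b, v, tra_emb.2 h1, tra_emb.2 (eq_neg_of_add h ▸ h2)⟩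
  · have := hβ.1 s s'
    rw [tra_dist, tra_dist] at this
    exact Real.arccos_injOn (tra_mem _ _) (tra_mem _ _) this

end Pool.Agent.P.MP_8ecd01_al.SL
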