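import Pool.Agent.P.MP_8ecd01_al.SL.Iface

/-! Step TRC of the top-dimensional centre theorem for SL_n. -/

namespace Pool.Agent.P.MP_8ecd01_al.SL

open Matrix Module

section
variable {k : Type} [Field k] {n : ℕ}

theorem trc_smul {S : Set (Delta k n)} {s : Delta k n} (hs : s ∈ S) {r : ℝ} (hr : 0 ≤ r) :
    smul r (emb s) ∈ CS S := by
  rcases hr.eq_or_lt with rfl | h
  exacts [Or.inl (zero_smul' _), Or.inr ⟨r, h, s, hs, rfl⟩]

variable [API k n]

theorem trc_norm {y : X k n} (hy : ip y y = 1) {r : ℝ} (hr : 0 < r) :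
    √(ip (smul r y) (smul r y)) = r := by
  rw [ip_smul_left hr.le, ip_smul_right hr.le, hy, mul_one, Real.sqrt_mul_self hr.le]

theorem trc_ang (z : X k n) {y : X k n} (hy : ip y y = 1) {r : ℝ} (hr : 0 < r) :
    ip z (smul r y) / √(ip (smul r y) (smul r y)) = ip z y := by
  rw [trc_norm hy hr, ip_smul_right hr.le, mul_div_cancel_left₀ _ hr.ne']

end

theorem p_TRC (hTRA : S_TRA) :
    S_TRC := by
  intro k _ n _ S hcl hcv
  obtain ⟨t1, t2, -, -, -, -, t7, t8, -⟩ := hTRA k n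
  have h0 : CS S ⊆ X0 k n := by
    rintro x (rfl | ⟨r, hr, s, -, rfl⟩)
    exacts [cone_X0.zero_mem, cone_X0.smul_mem r hr.le _ (t1 s).1]
  refine ⟨⟨isClosed_of_closure_subset fun x hx => ?_, Or.inl rfl, ?_, ?_⟩, h0⟩
  · by_cases e : x = zero
    · exact Or.inl e
    obtain ⟨r, hr, s, rfl⟩ := t2 x (closure_minimal h0 cone_X0.closed hx) e
    refine trc_smul (hcl s fun ε hε => ?_) hr.le
    have c1 : ContinuousAt (fun y : X k n => Real.arccos (ip (emb s) y / √(ip y y)))
        (smul r (emb s)) :=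
      Real.continuous_arccos.continuousAt.comp ((continuous_ip_right _).continuousAt.div
        continuous_ip_self.sqrt.continuousAt (by rw [trc_norm (t1 s).2 hr]; exact hr.ne'))
    have c2 := c1.eventually_lt (g := fun _ => ε) continuousAt_const
      (by rw [trc_ang _ (t1 s).2 hr, (t1 s).2, Real.arccos_one]; exact hε)
    obtain ⟨y, ⟨y1, y2⟩, y3⟩ := mem_closure_iff_nhds.1 hx _ (c2.and (eventually_ne_nhds e))
    obtain ⟨r2, hr2, s2, hs2, rfl⟩ := y3.resolve_left y2
    refine ⟨s2, hs2, ?_⟩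
    rw [t7, ← trc_ang _ (t1 s2).2 hr2]
    exact y1
  · rintro x hx y hy
    have hz := cone_X0.add_mem x (h0 hx) y (h0 hy)
    rcases hx with rfl | ⟨r, hr, s, hs, rfl⟩
    · rwa [zero_add']
    rcases hy with rfl | ⟨r2, hr2, s2, hs2, rfl⟩
    · rw [add_zero']
      exact trc_smul hs hr.le
    obtain ⟨b, v, u, e1, e2⟩ := common (emb s) (emb s2)
    by_cases ho : Opp s s2
    · have e3 : u = -v := eq_neg_of_add (b := b) (by rw [← e1, ← e2]; exact (t8 s s2).1 ho)
      rw [e1, e2, smul_mk _ _ hr.le, smul_mk _ _ hr2.le, add_mk]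
      rcases le_total r2 r with h | h
      · have := trc_smul hs (sub_nonneg.2 h)
        rwa [e1, smul_mk _ _ (sub_nonneg.2 h), sub_smul, sub_eq_add_neg, ← smul_neg, ← e3] at this
      · have := trc_smul hs2 (sub_nonneg.2 h)
        rwa [e2, smul_mk _ _ (sub_nonneg.2 h), sub_smul, sub_eq_neg_add, ← smul_neg,
          neg_eq_iff_eq_neg.2 e3] at this
    by_cases e : add (smul r (emb s)) (smul r2 (emb s2)) = zero
    · exact Or.inl e
    obtain ⟨ρ, hρ, s3, e3⟩ := t2 _ hz e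
    rw [e3]
    have hi := (inv_pos.2 hρ).le
    have e4 : emb s3 = mk b ((ρ⁻¹ * r) • v + (ρ⁻¹ * r2) • u) := by
      rw [← one_smul' (emb s3), ← inv_mul_cancel₀ hρ.ne', ← smul_smul' hi hρ.le, ← e3, e1, e2,
        smul_mk _ _ hr.le, smul_mk _ _ hr2.le, add_mk, smul_mk _ _ hi, smul_add, smul_smul,
        smul_smul]
    exact trc_smul (hcv b v u _ _ s s2 s3 (congrArg Subtype.val e1) (congrArg Subtype.val e2)
      (congrArg Subtype.val e4) (mul_nonneg hi hr.le) (mul_nonneg hi hr2.le) hs hs2 ho) hρ.le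
  · rintro r hr x (rfl | ⟨r2, hr2, s, hs, rfl⟩)
    · exact Or.inl (smul_zero' hr)
    · rw [smul_smul' hr hr2.le]
      exact trc_smul hs (mul_nonneg hr hr2.le)

end Pool.Agent.P.MP_8ecd01_al.SL
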