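import Pool.Agent.P.MP_8ecd01_al.SL.Iface

/-! Step TRF of the top-dimensional centre theorem for SL_n. -/

namespace Pool.Agent.P.MP_8ecd01_al.SL

open Matrix Module

theorem trf_lin {n : ℕ} (φ : Fin (n - 1) → Fin n → ℝ) (hφ : LinearIndependent ℝ φ)
    (h0 : ∀ j, ∑ i, φ j i = 0) (ψ : Fin n → ℝ) (hψ : ∑ i, ψ i = 0) (h : ∀ j, φ j ⬝ᵥ ψ = 0) :
    ψ = 0 := by
  rcases Nat.eq_zero_or_pos n with hn | hn
  · subst hn
    exact funext fun i => i.elim0
  let f : (Fin n → ℝ) →ₗ[ℝ] ℝ := ∑ i, LinearMap.proj i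
  have hf : ∀ v, f v = ∑ i, v i := fun v => by simp [f]
  have h1 : Submodule.span ℝ (Set.range φ) ≤ LinearMap.ker f := by
    refine Submodule.span_le.2 ?_
    rintro _ ⟨j, rfl⟩
    exact LinearMap.mem_ker.2 ((hf _).trans (h0 j))
  have h2 : LinearMap.ker f ≠ ⊤ := fun e => by
    have : f (fun _ => 1) = 0 := LinearMap.mem_ker.1 (e ▸ Submodule.mem_top)
    rw [hf] at this
    simp at this
    omega
  have h3 := Submodule.finrank_lt h2
  have h4 := finrank_span_eq_card hφ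
  rw [finrank_fin_fun] at h3
  rw [Fintype.card_fin] at h4
  have h5 := Submodule.eq_of_le_of_finrank_le h1 (by omega)
  have h6 : ∀ v ∈ Submodule.span ℝ (Set.range φ), v ⬝ᵥ ψ = 0 := by
    intro v hv
    induction hv using Submodule.span_induction with
    | mem v hv =>
      obtain ⟨j, rfl⟩ := hv
      exact h j
    | zero => exact zero_dotProduct ψ
    | add v u _ _ e1 e2 => rw [add_dotProduct, e1, e2, add_zero]
    | smul r v _ e => rw [smul_dotProduct, e, smul_zero]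
  exact dotProduct_self_eq_zero.1 (h6 ψ (h5 ▸ LinearMap.mem_ker.2 ((hf _).trans hψ)))

theorem p_TRF (hTRA : S_TRA) (hTRC : S_TRC) (hTRV : S_TRV) (hMAIN : S_MAIN) :
    S_TRF := by
  intro k _ n _ S hn hc hv ht
  obtain ⟨a1, a2, a3, a4, a5, a6, -, a8, a9⟩ := hTRA k n
  obtain ⟨c1, c2⟩ := hTRC k n S hc hv
  by_cases hl : ∀ x ∈ S, ∃ y ∈ S, Opp x y
  · exact .inl hl
  right
  push Not at hl
  obtain ⟨x, hx, hno⟩ := hl
  have cs : ∀ s ∈ S, emb s ∈ CS S := fun s hs => .inr ⟨1, one_pos, s, hs, (one_smul' _).symm⟩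
  have cas : ∀ y ∈ X0 k n, y = zero ∨ ∃ r : ℝ, 0 < r ∧ ∃ s : Delta k n, y = smul r (emb s) :=
    fun y hy => or_iff_not_imp_left.2 (a2 y hy)
  have lm : ∀ (β γ : Equiv.Perm (Delta k n)) (y : X k n),
      lift β (lift γ y) = lift (β * γ) y := by
    intro β γ y
    by_cases h : ∃ r : ℝ, 0 < r ∧ ∃ s : Delta k n, y = smul r (emb s)
    · obtain ⟨r, hr, s, rfl⟩ := h
      rw [a4 _ _ _ hr, a4 _ _ _ hr, a4 _ _ _ hr, Equiv.Perm.mul_apply]
    · rw [a5 γ y h, a5 β y h, a5 _ y h]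
  have l1 : ∀ y : X k n, lift 1 y = y := by
    intro y
    by_cases h : ∃ r : ℝ, 0 < r ∧ ∃ s : Delta k n, y = smul r (emb s)
    · obtain ⟨r, hr, s, rfl⟩ := h
      rw [a4 _ _ _ hr, Equiv.Perm.one_apply]
    · exact a5 _ y h
  have hG : Sym {g | ∃ β : Equiv.Perm (Delta k n), IsAut β ∧ β '' S = S ∧ g = lift β} (CS S) := by
    refine ⟨?_, ?_, ?_, ?_, ?_, ?_, ⟨1, IsAut.one, by simp, (funext l1).symm⟩⟩
    · rintro _ ⟨β, -, -, rfl⟩ y hy
      rcases cas y hy with rfl | ⟨r, hr, s, rfl⟩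
      · rw [a6]
        exact hy
      · rw [a4 _ _ _ hr]
        have : deg (emb (β s)) = 0 := (a1 _).1
        exact (deg_smul hr.le _).trans (by rw [this, mul_zero])
    · rintro _ ⟨β, hβ, -, rfl⟩ y hy z hz
      rcases cas y hy with rfl | ⟨r, hr, s, rfl⟩
      · rw [a6, ip_zero_left, ip_zero_left]
      rcases cas z hz with rfl | ⟨r', hr', s', rfl⟩
      · rw [a6, ip_zero_right, ip_zero_right]
      rw [a4 _ _ _ hr, a4 _ _ _ hr', ip_smul_left hr.le, ip_smul_left hr.le, ip_smul_right hr'.le,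
        ip_smul_right hr'.le, a9 β hβ]
    · rintro _ ⟨β, hβ, -, rfl⟩ U
      exact hTRV k n β hβ U
    · rintro _ ⟨β, -, hS, rfl⟩ y (rfl | ⟨r, hr, s, hs, rfl⟩)
      · exact .inl (a6 β)
      · exact .inr ⟨r, hr, β s, hS ▸ ⟨s, hs, rfl⟩, a4 _ _ _ hr⟩
    · rintro _ ⟨β, hβ, hS, rfl⟩
      refine ⟨lift β⁻¹, ⟨β⁻¹, hβ.inv, ?_, rfl⟩, fun y _ => ?_⟩
      · conv_lhs => rw [← hS]
        rw [← Set.image_comp]
        simp
      · rw [lm, lm, mul_inv_cancel, inv_mul_cancel, l1]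
        exact ⟨rfl, rfl⟩
    · rintro _ ⟨β, hβ, hS, rfl⟩ _ ⟨γ, hγ, hS', rfl⟩
      exact ⟨β * γ, hβ.mul hγ, by rw [Equiv.Perm.coe_mul, Set.image_comp, hS', hS],
        funext (lm β γ)⟩
  obtain ⟨b, φ, hφ, hb⟩ := ht
  choose hm z hz hzb using hb
  have ez : ∀ j, emb (z j) = mk b (φ j) := fun j => Subtype.ext (hzb j)
  have hT : Top (Set.range fun j => emb (z j)) := by
    refine ⟨b, fun i => ((i : ℕ) : ℝ), fun ψ hψ h => trf_lin φ hφ (fun j => ?_) ψ hψ fun j =>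
      h _ (fun i i' e => hm j ?_) ⟨j, ez j⟩⟩
    · rw [← deg_mk b, ← ez]
      exact (a1 _).1
    · exact Fin.le_def.2 ((Nat.cast_le (α := ℝ)).1 e)
  have hA : ¬ Ant (CS S) (emb x) := by
    rintro ⟨q, hq, e⟩
    have h1 := (ip_of_add_eq_zero e).2
    rw [(a1 x).2] at h1
    rcases hq with rfl | ⟨r, hr, s, hs, rfl⟩
    · rw [ip_zero_left] at h1
      exact zero_ne_one h1
    · rw [ip_smul_left hr.le, ip_smul_right hr.le, (a1 s).2] at h1
      have : r = 1 := by nlinarith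
      rw [this, one_smul'] at e
      exact hno s hs ((a8 x s).2 e)
  obtain ⟨c, hc1, hc2, hc3⟩ := hMAIN k n _ (CS S) _ (emb x) hn c1 c2 hG (Set.finite_range _)
    (by rintro _ ⟨j, rfl⟩; exact cs _ (hz j)) hT (cs x hx) hA
  rcases hc1 with rfl | ⟨r, hr, s, hs, rfl⟩
  · exact absurd rfl hc2
  · refine ⟨s, hs, fun β hβ hS => ?_⟩
    have := hc3 _ ⟨β, hβ, hS, rfl⟩
    rw [a4 _ _ _ hr] at this
    exact (a3 _ _ _ _ hr hr this).2

end Pool.Agent.P.MP_8ecd01_al.SL
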