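import Pool.Agent.P.MP_8ecd01_al.SL.Iface

/-! Step TRV of the top-dimensional centre theorem for SL_n. -/

namespace Pool.Agent.P.MP_8ecd01_al.SL

open Matrix Module

section

variable {k : Type} [Field k] {n : ℕ} [API k n] {U V : Submodule k (Fin n → k)} {s t : Delta k n}

lemma trv_ip (hVTX : S_VTX) (h : U ≤ V) :
    ip (vtx U) (vtx V) * n = finrank k U * (n - finrank k V) := by
  rw [(hVTX k n).2.2.1, inf_eq_left.2 h]
  rcases Nat.eq_zero_or_pos n with rfl | hn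
  · simp [Nat.le_zero.1 ((Submodule.finrank_le U).trans (by simp))]
  · field_simp

lemma trv_sq (hTRA : S_TRA) (hVTX : S_VTX) {r : ℝ} (h0 : 0 < r) (h : vtx U = smul r (emb s)) :
    r ^ 2 * n = finrank k U * (n - finrank k U) := by
  rw [← trv_ip hVTX le_rfl, h, ip_smul_left h0.le, ip_smul_right h0.le, ((hTRA k n).1 s).2]
  ring

lemma trv_uv (hTRA : S_TRA) (hVTX : S_VTX) (h1 : 0 < finrank k U) (h2 : finrank k U < n) :
    ∃ s, UV U s := by
  obtain ⟨r, h3, s, h4⟩ := (hTRA k n).2.1 _ ((hVTX k n).2.2.2.2.2.2.1 U) fun e => by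
    have := trv_ip hVTX (le_refl U)
    rw [e, ip_zero_left, zero_mul] at this
    exact (mul_pos (Nat.cast_pos.2 h1) (sub_pos.2 (Nat.cast_lt.2 h2))).ne this
  exact ⟨s, h1, h2, r, h3, h4⟩

lemma trv_cos (hTRA : S_TRA) (hVTX : S_VTX) (hU : UV U s) (hV : UV V t) (h : U ≤ V) :
    ip (emb s) (emb t) ^ 2 * (finrank k V * (n - finrank k U)) =
      finrank k U * (n - finrank k V) := by
  obtain ⟨a1, -, r, a3, a4⟩ := hU
  obtain ⟨-, b2, q, b3, b4⟩ := hV
  have c1 := trv_sq hTRA hVTX a3 a4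
  have c2 := trv_sq hTRA hVTX b3 b4
  have c3 := trv_ip hVTX h
  rw [a4, b4, ip_smul_left a3.le, ip_smul_right b3.le] at c3
  refine mul_left_cancel₀ (mul_pos (Nat.cast_pos.2 a1)
    (sub_pos.2 (Nat.cast_lt.2 b2) : (0 : ℝ) < n - finrank k V)).ne' ?_
  calc _ = ip (emb s) (emb t) ^ 2 * (r ^ 2 * n) * (q ^ 2 * n) := by rw [c1, c2]; ring
    _ = (r * (q * ip (emb s) (emb t)) * n) ^ 2 := by ring
    _ = _ := by rw [c3]; ring

lemma trv_num {c : ℝ} {n a b h : ℕ} (ha : a < n) (hb : b < n) (hh : h < n)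
    (h1 : c ^ 2 * ((n - 1) * (n - a)) = a) (h2 : c ^ 2 * (h * (n - b)) = b * (n - h)) : b ≤ a := by
  have a1 : (0 : ℝ) < n - a := sub_pos.2 (Nat.cast_lt.2 ha)
  have a2 : (0 : ℝ) < n - b := sub_pos.2 (Nat.cast_lt.2 hb)
  have a3 : (h : ℝ) + 1 ≤ n := by exact_mod_cast hh
  have a4 : (0 : ℝ) ≤ b := Nat.cast_nonneg b
  have a5 : (0 : ℝ) ≤ a := Nat.cast_nonneg a
  have a6 : (b : ℝ) ≤ c ^ 2 * ((n - 1) * (n - b)) := by
    nlinarith [mul_nonneg (mul_nonneg (sq_nonneg c) a2.le) (sub_nonneg.2 a3),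
      mul_nonneg a4 (sub_nonneg.2 a3)]
  have a7 : (b : ℝ) * (n - a) ≤ a * (n - b) := by
    rw [← h1]
    nlinarith [mul_le_mul_of_nonneg_right a6 a1.le]
  exact_mod_cast (by nlinarith : (b : ℝ) ≤ a)

lemma trv_le (hTRA : S_TRA) (hVTX : S_VTX) (hTRU : S_TRU) {β : Equiv.Perm (Delta k n)}
    (hβ : IsAut β) (hU : UV U s) (hV : UV V (β s)) :
    (finrank k V ≤ finrank k U ∨ n - finrank k V ≤ finrank k U) ∧
      (finrank k V ≤ n - finrank k U ∨ n - finrank k V ≤ n - finrank k U) := by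
  have key : ∀ (W : Submodule k (Fin n → k)) t (a : ℕ), UV W (β t) → (V ≤ W ∨ W ≤ V) → a < n →
      ip (emb s) (emb t) ^ 2 * ((n - 1) * (n - a)) = a →
        finrank k V ≤ a ∨ n - finrank k V ≤ a := fun W t a hW h ha e => by
    rw [← (hTRA k n).2.2.2.2.2.2.2.2 β hβ] at e
    refine h.imp (fun h => trv_num ha hV.2.1 hW.2.1 e (trv_cos hTRA hVTX hV hW h)) fun h =>
      trv_num (h := n - finrank k W) ha (Nat.sub_lt_self hV.1 hV.2.1.le)
        (Nat.sub_lt_self hW.1 hW.2.1.le) e ?_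
    rw [Nat.cast_sub hV.2.1.le, Nat.cast_sub hW.2.1.le, ip_comm]
    linear_combination trv_cos hTRA hVTX hW hV h
  obtain ⟨b, S, -, e, -⟩ := (hVTX k n).2.1 U U
  have e' : finrank k U = S.card := e ▸ finrank_span_basis b S
  have h1 := hU.1
  have h2 := hU.2.1
  constructor
  · obtain ⟨T, a1, a2⟩ := Finset.exists_superset_card_eq (s := S) (n := n - 1) (by omega) (by simp)
    rw [← finrank_span_basis b] at a2
    obtain ⟨t, ht⟩ := trv_uv hTRA hVTX (a2.ge.trans_lt' (by omega)) (a2.trans_lt (by omega))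
    have a3 := e.le.trans (Submodule.span_mono (Set.image_mono (Finset.coe_subset.2 a1)))
    obtain ⟨W, hW⟩ := (hTRU k n β hβ).1 _ _ ht
    refine key W t _ hW ((hTRU k n β hβ).2 _ _ _ _ _ _ hU ht a3 hV hW) h2 ?_
    have := trv_cos hTRA hVTX hU ht a3
    rw [a2, Nat.cast_pred (by omega)] at this
    linear_combination this
  · obtain ⟨T, a1, a2⟩ := Finset.exists_subset_card_eq (s := S) (n := 1) (by omega)
    rw [← finrank_span_basis b] at a2
    obtain ⟨t, ht⟩ := trv_uv hTRA hVTX (a2.ge.trans_lt' (by omega)) (a2.trans_lt (by omega))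
    have a3 := (Submodule.span_mono (Set.image_mono (Finset.coe_subset.2 a1))).trans e.ge
    obtain ⟨W, hW⟩ := (hTRU k n β hβ).1 _ _ ht
    refine key W t _ hW ((hTRU k n β hβ).2 _ _ _ _ _ _ ht hU a3 hW hV).symm (by omega) ?_
    have := trv_cos hTRA hVTX ht hU a3
    rw [a2, ip_comm] at this
    rw [Nat.cast_sub h2.le]
    linear_combination this

end

theorem p_TRV (hTRA : S_TRA) (hVTX : S_VTX) (hTRU : S_TRU) :
    S_TRV := by
  intro k _ n _ β hβ U
  by_cases h : 0 < finrank k U ∧ finrank k U < n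
  swap
  · have : vtx U = zero := by
      rcases Nat.eq_zero_or_pos (finrank k U) with e | e
      · rw [Submodule.finrank_eq_zero.1 e, (hVTX k n).2.2.2.2.1.1]
      · rw [Submodule.eq_top_of_finrank_eq (S := U) (le_antisymm (Submodule.finrank_le U)
          (by simpa using not_lt.1 fun c => h ⟨e, c⟩)), (hVTX k n).2.2.2.2.1.2]
    exact ⟨U, by rw [this, (hTRA k n).2.2.2.2.2.1], .inl rfl⟩
  obtain ⟨s, hs⟩ := trv_uv hTRA hVTX h.1 h.2
  obtain ⟨V, hV⟩ := (hTRU k n β hβ).1 U s hs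
  have a1 := trv_le hTRA hVTX hTRU hβ hs hV
  have a2 := trv_le hTRA hVTX hTRU hβ.inv hV (V := U) (by simpa using hs)
  obtain ⟨-, -, r, b1, b2⟩ := hs
  obtain ⟨b3, b4, q, b5, b6⟩ := hV
  have a3 : finrank k V = finrank k U ∨ finrank k V + finrank k U = n := by omega
  have c1 := trv_sq hTRA hVTX b1 b2
  have c2 := trv_sq hTRA hVTX b5 b6
  have c3 : q ^ 2 * n = r ^ 2 * n := by
    rw [c1, c2]
    rcases a3 with e | e
    · rw [e]
    · rw [show (n : ℝ) = finrank k V + finrank k U by exact_mod_cast e.symm]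
      ring
  refine ⟨V, ?_, a3⟩
  rw [b2, (hTRA k n).2.2.2.1 β r s b1, b6, (pow_left_inj₀ b5.le b1.le two_ne_zero).1
    (mul_right_cancel₀ (Nat.cast_pos.2 (by omega)).ne' c3)]

end Pool.Agent.P.MP_8ecd01_al.SL
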