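import Pool.Agent.P.MP_8ecd01_al.SL.Iface

/-! Step TYP of the top-dimensional centre theorem for SL_n. -/

namespace Pool.Agent.P.MP_8ecd01_al.SL

open Matrix Module

theorem typ_split {n : ℕ} (v : Fin n → ℝ) (r δ : ℝ) (h0 : 0 < δ)
    (h : ∀ i, r < v i → r + δ ≤ v i) :
    (Finset.univ.filter fun i => r ≤ v i).card =
      (Finset.univ.filter fun i => v i = r).card +
        (Finset.univ.filter fun i => r + δ ≤ v i).card := by
  classical
  rw [← Finset.card_union_of_disjoint]
  · congr 1
    ext i
    simp only [Finset.mem_filter, Finset.mem_univ, true_and, Finset.mem_union]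
    constructor
    · intro hi
      rcases hi.eq_or_lt with e | e
      · exact Or.inl e.symm
      · exact Or.inr (h i e)
    · rintro (e | e)
      · exact e.ge
      · linarith
  · rw [Finset.disjoint_left]
    intro i h1 h2
    simp only [Finset.mem_filter, Finset.mem_univ, true_and] at h1 h2
    linarith

theorem p_TYP :
    S_TYP := by
  classical
  intro k _ n b d v u h
  have h1 : pt b v = pt d u := congrArg Subtype.val h
  have h2 : ∀ t : ℝ, (Finset.univ.filter fun i => t ≤ v i).card =
      (Finset.univ.filter fun i => t ≤ u i).card := by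
    intro t
    rw [← finrank_pt b v t, ← finrank_pt d u t, h1]
  have h3 : ∀ r : ℝ, Fintype.card {i // u i = r} = Fintype.card {i // v i = r} := by
    intro r
    obtain ⟨δ, h0, hδ⟩ := exists_gap ((Set.finite_range v).union (Set.finite_range u)) r
    have a1 := typ_split v r δ h0 fun i => (hδ _ (Or.inl ⟨i, rfl⟩)).1
    have a2 := typ_split u r δ h0 fun i => (hδ _ (Or.inr ⟨i, rfl⟩)).1
    have a3 := h2 r
    have a4 := h2 (r + δ)
    rw [Fintype.card_subtype, Fintype.card_subtype]
    omega
  refine ⟨Equiv.ofFiberEquiv (f := u) (g := v) fun r => Fintype.equivOfCardEq (h3 r), ?_⟩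
  funext i
  exact (Equiv.ofFiberEquiv_map (f := u) (g := v) _ i).symm

end Pool.Agent.P.MP_8ecd01_al.SL
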