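import Pool.Agent.P.MP_8ecd01_al.SL.Iface

/-! Step UNIP of the top-dimensional centre theorem for SL_n. -/

namespace Pool.Agent.P.MP_8ecd01_al.SL

open Matrix Module

variable {k : Type} [Field k] {n : ℕ}

open Classical in
/-- The leading part of `d i` in the grading `(c, w)`. -/
noncomputable def unipE (c d : Bs k n) (w : Fin n → ℝ) (i : Fin n) : Fin n → k :=
  ∑ j, (if w j = w i then c.repr (d i) j else 0) • c j

open Classical in
theorem unip_repr (c d : Bs k n) (w : Fin n → ℝ) (i j : Fin n) :
    c.repr (unipE c d w i) j = if w j = w i then c.repr (d i) j else 0 := by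
  unfold unipE
  rw [Module.Basis.repr_sum_self]

theorem unip_sub {c d : Bs k n} {w : Fin n → ℝ} (h : mk d w = mk c w) (i : Fin n) :
    d i - unipE c d w i ∈ Submodule.span k (d '' {j | w i < w j}) := by
  classical
  have hc : Comono w (fun j => if w i < w j then (1 : ℝ) else 0) := by
    intro a b hab
    by_cases ha : w i < w a
    · simp [ha, ha.trans_le hab]
    · by_cases hb : w i < w b <;> simp [ha, hb]
  have h1 := congrFun (mk_eq_iff.1 (mk_comp h hc)) 1
  have h2 : {j | (1 : ℝ) ≤ if w i < w j then (1 : ℝ) else 0} = {j | w i < w j} := by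
    ext j
    by_cases hj : w i < w j <;> simp [hj]
  have h3 : d i ∈ pt c w (w i) := by
    rw [← mk_eq_iff.1 h]
    exact self_mem_pt.2 le_rfl
  have h4 : d i - unipE c d w i ∈ pt c (fun j => if w i < w j then (1 : ℝ) else 0) 1 := by
    refine mem_pt.2 fun j hj => ?_
    rw [map_sub, Finsupp.sub_apply, unip_repr] at hj
    by_cases e : w j = w i
    · simp [e] at hj
    · rw [if_neg e, sub_zero] at hj
      have := lt_of_le_of_ne (mem_pt.1 h3 j hj) (Ne.symm e)
      simp [this]
  rw [← h1] at h4
  unfold pt at h4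
  rwa [h2] at h4

theorem unip_span {c d : Bs k n} {w : Fin n → ℝ} (h : mk d w = mk c w) :
    ⊤ ≤ Submodule.span k (Set.range (unipE c d w)) := by
  classical
  have key : ∀ m : ℕ, ∀ i, (Finset.univ.filter fun j => w i < w j).card = m →
      d i ∈ Submodule.span k (Set.range (unipE c d w)) := by
    intro m
    induction m using Nat.strong_induction_on with
    | _ m ih =>
      intro i hi
      have h1 : Submodule.span k (d '' {j | w i < w j}) ≤
          Submodule.span k (Set.range (unipE c d w)) := by
        refine Submodule.span_le.2 ?_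
        rintro _ ⟨j, hj, rfl⟩
        have hj' : w i < w j := hj
        refine ih _ ?_ j rfl
        rw [← hi]
        refine Finset.card_lt_card ⟨fun a ha => ?_, fun hs => ?_⟩
        · simp only [Finset.mem_filter, Finset.mem_univ, true_and] at ha ⊢
          exact hj'.trans ha
        · have := hs (Finset.mem_filter.2 ⟨Finset.mem_univ j, hj'⟩)
          simp at this
      have h2 := add_mem (h1 (unip_sub h i))
        (Submodule.subset_span (Set.mem_range_self (f := unipE c d w) i))
      rwa [sub_add_cancel] at h2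
  rw [← d.span_eq]
  refine Submodule.span_le.2 ?_
  rintro _ ⟨i, rfl⟩
  exact key _ i rfl

theorem unip_eq {b d : Bs k n} {φ : Fin n → ℝ} (h : ∀ i, b i ∈ pt d φ (φ i)) :
    mk b φ = mk d φ := by
  refine mk_eq_iff.2 (funext fun t => ?_)
  refine Submodule.eq_of_le_of_finrank_eq ?_ (by rw [finrank_pt, finrank_pt])
  refine Submodule.span_le.2 ?_
  rintro _ ⟨i, hi, rfl⟩
  exact mem_pt.2 fun j hj => le_trans hi (mem_pt.1 (h i) j hj)

theorem p_UNIP :
    S_UNIP := by
  intro k _ n c d w h
  classical
  have hb : ∀ i, basisOfTopLeSpanOfCardEqFinrank (unipE c d w) (unip_span h) (by simp) i =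
      unipE c d w i := fun i => by rw [coe_basisOfTopLeSpanOfCardEqFinrank]
  refine ⟨basisOfTopLeSpanOfCardEqFinrank (unipE c d w) (unip_span h) (by simp),
    fun ψ hψ => unip_eq fun i => ?_, fun φ hφ => unip_eq fun i => ?_⟩
  · rw [hb]
    refine mem_pt.2 fun j hj => ?_
    rw [unip_repr] at hj
    by_cases e : w j = w i
    · exact (hψ _ _ e).ge
    · simp [e] at hj
  · rw [hb]
    have h1 : Submodule.span k (d '' {j | w i < w j}) ≤ pt d φ (φ i) :=
      Submodule.span_mono (Set.image_mono fun j hj => hφ i j hj)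
    have h2 := sub_mem (self_mem_pt.2 le_rfl : d i ∈ pt d φ (φ i)) (h1 (unip_sub h i))
    rwa [sub_sub_cancel] at h2

end Pool.Agent.P.MP_8ecd01_al.SL
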