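import Pool.Agent.P.MP_8ecd01_al.SL.Iface

/-! Step UP of the top-dimensional centre theorem for SL_n. -/

namespace Pool.Agent.P.MP_8ecd01_al.SL

open Matrix Module

theorem p_UP (hPROJ : S_PROJ) (hPC : S_PC) :
    S_UP := by
  intro k _ n _ K A κ z hK hA hz hne
  obtain ⟨p, hp, h1⟩ := hPROJ k n {y | ∀ a ∈ A, κ a ≤ ip y a} z (closed_ge A κ) (cvx_ge A κ) hne
  obtain ⟨q, hq, h2, h3, -⟩ := hPC k n K p hK
  have e1 := h1 q fun a ha => (hp a ha).trans (h3 a (hA ha))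
  have e2 := h2 z hz
  rw [d2_comm p z, d2_comm q z] at e2
  obtain rfl : p = q := eq_of_d2 (by linarith)
  exact ⟨p, hq, hp, h1⟩

end Pool.Agent.P.MP_8ecd01_al.SL
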