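import Pool.Agent.P.MP_8ecd01_al.SL.Iface

/-! Step VTX of the top-dimensional centre theorem for SL_n. -/

namespace Pool.Agent.P.MP_8ecd01_al.SL

open Matrix Module

section

variable {k : Type} [Field k] {n : ℕ}

theorem vtx_pt (b : Bs k n) (S : Finset (Fin n)) (c t : ℝ) :
    pt b (fun i => (if i ∈ S then (1 : ℝ) else 0) - c) t =
      if t ≤ -c then ⊤ else if t ≤ 1 - c then Submodule.span k (b '' (S : Set (Fin n)))
        else ⊥ := by
  by_cases h1 : t ≤ -c
  · rw [if_pos h1]
    refine eq_top_iff.2 fun v _ => mem_pt.2 fun i _ => ?_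
    split_ifs <;> linarith
  · rw [if_neg h1]
    by_cases h2 : t ≤ 1 - c
    · rw [if_pos h2]
      unfold pt
      congr 2
      ext i
      by_cases hi : i ∈ S
      · simp [hi, h2]
      · simp [hi, h1]
    · rw [if_neg h2]
      unfold pt
      have : {i : Fin n | t ≤ (if i ∈ S then (1 : ℝ) else 0) - c} = ∅ := by
        ext i
        simp only [Set.mem_ofPred_eq, Set.mem_empty_iff_false, iff_false, not_le]
        split_ifs
        · linarith [not_le.1 h2]
        · linarith [not_le.1 h1]
      simp [this]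

theorem vtx_mk_eq {b d : Bs k n} {S T : Finset (Fin n)}
    (h : Submodule.span k (b '' (S : Set (Fin n))) = Submodule.span k (d '' (T : Set (Fin n)))) :
    mk b (ind S) = mk d (ind T) := by
  have hc : S.card = T.card := by
    rw [← finrank_span_basis b S, ← finrank_span_basis d T, h]
  refine mk_eq_iff.2 (funext fun t => ?_)
  unfold ind
  rw [vtx_pt, vtx_pt, hc, h]

theorem vtx_span (b : Bs k n) (S : Finset (Fin n)) :
    vtx (Submodule.span k (b '' (S : Set (Fin n)))) = mk b (ind S) := by
  have h : ∃ p : Bs k n × Finset (Fin n), Submodule.span k (b '' (S : Set (Fin n))) =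
      Submodule.span k (p.1 '' (p.2 : Set (Fin n))) := ⟨(b, S), rfl⟩
  unfold vtx
  rw [dif_pos h]
  exact (vtx_mk_eq h.choose_spec).symm

theorem vtx_exists (U : Submodule k (Fin n → k)) :
    ∃ (b : Bs k n) (S : Finset (Fin n)), U = Submodule.span k (b '' (S : Set (Fin n))) := by
  classical
  obtain ⟨s, -, hs, hl⟩ := exists_linearIndependent k (U : Set (Fin n → k))
  have hl' : LinearIndepOn k id s := hl
  let B := Module.Basis.extend hl'
  let e := B.indexEquiv (Pi.basisFun k (Fin n))
  refine ⟨B.reindex e, Finset.univ.filter fun i => B.reindex e i ∈ s, ?_⟩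
  rw [← Submodule.span_eq U, ← hs]
  congr 1
  ext x
  constructor
  · intro hx
    have hx' : x ∈ hl'.extend (Set.subset_univ _) := hl'.subset_extend _ hx
    have h1 : B.reindex e (e ⟨x, hx'⟩) = x := by
      simp [B]
    refine ⟨e ⟨x, hx'⟩, ?_, h1⟩
    simp only [Finset.coe_filter, Finset.mem_univ, true_and, Set.mem_ofPred_eq]
    rwa [h1]
  · rintro ⟨i, hi, rfl⟩
    simpa using hi

theorem vtx_pt_one (b : Bs k n) (S : Finset (Fin n)) :
    pt b (fun i => if i ∈ S then (1 : ℝ) else 0) 1 =
      Submodule.span k (b '' (S : Set (Fin n))) := by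
  have := vtx_pt b S 0 1
  rw [if_neg (by norm_num), if_pos (by norm_num)] at this
  simpa using this

theorem vtx_common [API k n] (U U' : Submodule k (Fin n → k)) :
    ∃ (b : Bs k n) (S S' : Finset (Fin n)), U = Submodule.span k (b '' (S : Set (Fin n))) ∧
      U' = Submodule.span k (b '' (S' : Set (Fin n))) := by
  classical
  obtain ⟨b, S, rfl⟩ := vtx_exists U
  obtain ⟨b', S', rfl⟩ := vtx_exists U'
  obtain ⟨d, u, h1, h2⟩ := cb0 b (fun i => if i ∈ S then (1 : ℝ) else 0)
    (mk b' fun i => if i ∈ S' then (1 : ℝ) else 0)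
  refine ⟨d, S, Finset.univ.filter fun i => 1 ≤ u i, ?_, ?_⟩
  · rw [← vtx_pt_one, ← vtx_pt_one, mk_eq_iff.1 h1]
  · rw [← vtx_pt_one, mk_eq_iff.1 h2]
    unfold pt
    congr 2
    ext i
    simp

theorem vtx_ind_add (S T : Finset (Fin n)) : ind S + ind T = ind (S ∩ T) + ind (S ∪ T) := by
  funext i
  have h : ((S ∪ T).card : ℝ) + (S ∩ T).card = S.card + T.card := by
    exact_mod_cast Finset.card_union_add_card_inter S T
  have h2 : ((S ∩ T).card : ℝ) / n + ((S ∪ T).card : ℝ) / n =
      (S.card : ℝ) / n + (T.card : ℝ) / n := by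
    rw [← add_div, ← add_div, ← h, add_comm]
  simp only [Pi.add_apply, ind, Finset.mem_inter, Finset.mem_union]
  by_cases h3 : i ∈ S <;> by_cases h4 : i ∈ T <;> simp [h3, h4] <;> linarith

theorem vtx_ind_dot (S T : Finset (Fin n)) :
    ind S ⬝ᵥ ind T = ((S ∩ T).card : ℝ) - (S.card : ℝ) * T.card / n := by
  rw [ind_dot, sum_ind]
  simp only [ind, Finset.sum_sub_distrib, Finset.sum_boole, Finset.filter_mem_eq_inter,
    Finset.sum_const, nsmul_eq_mul]
  ring

theorem vtx_inf (b : Bs k n) (S T : Finset (Fin n)) :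
    Submodule.span k (b '' (S : Set (Fin n))) ⊓ Submodule.span k (b '' (T : Set (Fin n))) =
      Submodule.span k (b '' ((S ∩ T : Finset (Fin n)) : Set (Fin n))) := by
  rw [span_inf_span, Finset.coe_inter]

theorem vtx_sup (b : Bs k n) (S T : Finset (Fin n)) :
    Submodule.span k (b '' (S : Set (Fin n))) ⊔ Submodule.span k (b '' (T : Set (Fin n))) =
      Submodule.span k (b '' ((S ∪ T : Finset (Fin n)) : Set (Fin n))) := by
  rw [span_sup_span, Finset.coe_union]

end

theorem p_VTX :
    S_VTX := by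
  intro k _ n _
  classical
  refine ⟨vtx_span, vtx_common, fun U U' => ?_, fun U U' => ?_, ⟨?_, ?_⟩, fun U U' z h => ?_,
    fun U => ?_, ?_⟩
  · obtain ⟨b, S, T, rfl, rfl⟩ := vtx_common U U'
    rw [vtx_inf, vtx_span, vtx_span, ip_mk, finrank_span_basis, finrank_span_basis,
      finrank_span_basis, vtx_ind_dot]
  · obtain ⟨b, S, T, rfl, rfl⟩ := vtx_common U U'
    rw [vtx_inf, vtx_sup, vtx_span, vtx_span, vtx_span, vtx_span, add_mk, add_mk, vtx_ind_add]
  · have h := vtx_span (std k n) ∅
    have h2 : ind (∅ : Finset (Fin n)) = 0 := by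
      funext i
      simp [ind]
    rw [h2, mk_zero] at h
    simpa using h
  · have h := vtx_span (std k n) Finset.univ
    have h2 : ind (Finset.univ : Finset (Fin n)) = 0 := by
      funext i
      have : (n : ℝ) ≠ 0 := by
        have := i.pos
        positivity
      simp [ind, this]
    rw [h2, mk_zero, Finset.coe_univ, Set.image_univ, Module.Basis.span_eq] at h
    exact h
  · obtain ⟨b, S, T, rfl, rfl⟩ := vtx_common U U'
    have hST : ∀ i ∈ S, i ∈ T := fun i hi => by
      have : b i ∈ Submodule.span k (b '' (T : Set (Fin n))) :=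
        h (Submodule.subset_span ⟨i, hi, rfl⟩)
      exact (Module.Basis.self_mem_span_image b).1 this
    rw [vtx_span, vtx_span, add_mk]
    refine ip_add_compat b (fun i j hij => ?_) z
    simp only [ind] at hij ⊢
    by_cases h1 : j ∈ S
    · rw [if_pos (hST j h1)]
      split_ifs <;> linarith
    · rw [if_neg h1] at hij
      split_ifs at hij <;> linarith
  · obtain ⟨b, S, rfl⟩ := vtx_exists U
    show deg _ = 0
    rw [vtx_span, deg_mk, sum_ind]
  · refine finT_of (Finset.image₂ (fun (e : ℝ) (j : ℕ) => e - (j : ℝ) / n) {0, 1}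
      (Finset.range (n + 1))) ?_
    rintro _ ⟨U, rfl⟩
    obtain ⟨b, S, rfl⟩ := vtx_exists U
    refine ⟨b, ind S, vtx_span b S, fun i => ?_⟩
    refine Finset.mem_image₂_of_mem (a := if i ∈ S then (1 : ℝ) else 0) (b := S.card) ?_ ?_
    · split_ifs <;> simp
    · have := Finset.card_le_univ S
      rw [Fintype.card_fin] at this
      exact Finset.mem_range.2 (Nat.lt_succ_of_le this)

end Pool.Agent.P.MP_8ecd01_al.SL
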