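import Pool.Agent.P.MP_8ecd01_al.SL.Cb
import Pool.Agent.P.MP_8ecd01_al.SL.Typ
import Pool.Agent.P.MP_8ecd01_al.SL.Lc
import Pool.Agent.P.MP_8ecd01_al.SL.Ip
import Pool.Agent.P.MP_8ecd01_al.SL.Ret
import Pool.Agent.P.MP_8ecd01_al.SL.Unip
import Pool.Agent.P.MP_8ecd01_al.SL.Cpl
import Pool.Agent.P.MP_8ecd01_al.SL.Proj
import Pool.Agent.P.MP_8ecd01_al.SL.Pc
import Pool.Agent.P.MP_8ecd01_al.SL.Up
import Pool.Agent.P.MP_8ecd01_al.SL.Bnd
import Pool.Agent.P.MP_8ecd01_al.SL.Foot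
import Pool.Agent.P.MP_8ecd01_al.SL.Max
import Pool.Agent.P.MP_8ecd01_al.SL.Link
import Pool.Agent.P.MP_8ecd01_al.SL.Cen
import Pool.Agent.P.MP_8ecd01_al.SL.Simp
import Pool.Agent.P.MP_8ecd01_al.SL.Nonc
import Pool.Agent.P.MP_8ecd01_al.SL.Step
import Pool.Agent.P.MP_8ecd01_al.SL.Vtx
import Pool.Agent.P.MP_8ecd01_al.SL.Nv
import Pool.Agent.P.MP_8ecd01_al.SL.Ideal
import Pool.Agent.P.MP_8ecd01_al.SL.Jmin
import Pool.Agent.P.MP_8ecd01_al.SL.Jstep
import Pool.Agent.P.MP_8ecd01_al.SL.Jung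
import Pool.Agent.P.MP_8ecd01_al.SL.Jant
import Pool.Agent.P.MP_8ecd01_al.SL.Sym
import Pool.Agent.P.MP_8ecd01_al.SL.Orb
import Pool.Agent.P.MP_8ecd01_al.SL.Fix
import Pool.Agent.P.MP_8ecd01_al.SL.Root
import Pool.Agent.P.MP_8ecd01_al.SL.Rinv
import Pool.Agent.P.MP_8ecd01_al.SL.Comb
import Pool.Agent.P.MP_8ecd01_al.SL.Forb
import Pool.Agent.P.MP_8ecd01_al.SL.Main
import Pool.Agent.P.MP_8ecd01_al.SL.Tra
import Pool.Agent.P.MP_8ecd01_al.SL.Trc
import Pool.Agent.P.MP_8ecd01_al.SL.Tru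
import Pool.Agent.P.MP_8ecd01_al.SL.Trv
import Pool.Agent.P.MP_8ecd01_al.SL.Trf

/-! Assembly of the top-dimensional centre theorem for SL_n, n at most 8. -/

namespace Pool.Agent.P.MP_8ecd01_al.SL

theorem all_CB : S_CB := p_CB
theorem all_TYP : S_TYP := p_TYP
theorem all_LC : S_LC := p_LC
theorem all_IP : S_IP := p_IP all_LC all_TYP
theorem all_RET : S_RET := p_RET all_CB all_TYP all_LC all_IP
theorem all_UNIP : S_UNIP := p_UNIP
theorem all_CPL : S_CPL := p_CPL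
theorem all_PROJ : S_PROJ := p_PROJ all_CPL
theorem all_PC : S_PC := p_PC all_PROJ
theorem all_UP : S_UP := p_UP all_PROJ all_PC
theorem all_BND : S_BND := p_BND all_UP
theorem all_FOOT : S_FOOT := p_FOOT
theorem all_MAX : S_MAX := p_MAX all_UP all_BND all_FOOT
theorem all_LINK : S_LINK := p_LINK all_UP
theorem all_CEN : S_CEN := p_CEN all_PC
theorem all_SIMP : S_SIMP := p_SIMP all_PC
theorem all_NONC : S_NONC := p_NONC all_CEN all_MAX
theorem all_STEP : S_STEP := p_STEP all_NONC all_LINK all_CEN all_SIMP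
theorem all_VTX : S_VTX := p_VTX
theorem all_NV : S_NV := p_NV all_STEP all_VTX
theorem all_IDEAL : S_IDEAL := p_IDEAL
theorem all_JMIN : S_JMIN := p_JMIN all_MAX
theorem all_JSTEP : S_JSTEP := p_JSTEP
theorem all_JUNG : S_JUNG := p_JUNG all_JMIN all_JSTEP
theorem all_JANT : S_JANT := p_JANT all_JUNG
theorem all_SYM : S_SYM := p_SYM
theorem all_ORB : S_ORB := p_ORB all_SYM all_VTX
theorem all_FIX : S_FIX := p_FIX all_PROJ all_PC
theorem all_ROOT : S_ROOT := p_ROOT all_VTX all_IDEAL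
theorem all_RINV : S_RINV := p_RINV all_VTX all_SYM
theorem all_COMB : S_COMB := p_COMB
theorem all_FORB : S_FORB := p_FORB all_VTX all_SYM all_FIX all_JANT all_IDEAL all_ROOT all_RINV all_COMB
theorem all_MAIN : S_MAIN := p_MAIN all_SYM all_ORB all_FIX all_JANT all_NV all_FORB
theorem all_TRA : S_TRA := p_TRA
theorem all_TRC : S_TRC := p_TRC all_TRA
theorem all_TRU : S_TRU := p_TRU all_TRA all_VTX
theorem all_TRV : S_TRV := p_TRV all_TRA all_VTX all_TRU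
theorem all_TRF : S_TRF := p_TRF all_TRA all_TRC all_TRV all_MAIN

theorem api (k : Type) [Field k] (n : ℕ) : API k n :=
  ⟨all_CB k n, all_TYP k n, all_IP k n, all_RET k n, all_UNIP k n⟩

theorem centre (k : Type) [Field k] (n : ℕ) (hn : n ≤ 8) (S : Set (Delta k n))
    (hc : IsClosed S) (hv : IsConvex S) (ht : TopDim S) :
    (∀ x ∈ S, ∃ y ∈ S, Opp x y) ∨
      ∃ c ∈ S, ∀ β : Equiv.Perm (Delta k n), IsAut β → β '' S = S → β c = c :=
  haveI := api k n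
  all_TRF k n S hn hc hv ht

end Pool.Agent.P.MP_8ecd01_al.SL
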