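import Pool.Agent.P.MP_8ecd01_al.SL.Defs

/-!
The cone over the building of `GL_n(k)`: filtrations, sums, the inner product, the metric.
-/

namespace Pool.Agent.P.MP_8ecd01_al.SL

open Matrix

abbrev Bs (k : Type) [Field k] (n : ℕ) := Module.Basis (Fin n) k (Fin n → k)

/-- The vector building: all real filtrations of `k^n`. -/
def X (k : Type) [Field k] (n : ℕ) : Type :=
  {F : ℝ → Submodule k (Fin n → k) // ∃ (b : Bs k n) (w : Fin n → ℝ), F = pt b w}

variable {k : Type} [Field k] {n : ℕ}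

def mk (b : Bs k n) (w : Fin n → ℝ) : X k n := ⟨pt b w, b, w, rfl⟩

noncomputable def std (k : Type) [Field k] (n : ℕ) : Bs k n := Pi.basisFun k (Fin n)

noncomputable def zero : X k n := mk (std k n) 0

open Classical in
noncomputable def add (x y : X k n) : X k n :=
  if h : ∃ (b : Bs k n) (w : Fin n → ℝ), (fun t => ⨆ s, x.1 s ⊓ y.1 (t - s)) = pt b w then
    ⟨_, h⟩ else x

theorem mem_pt {b : Bs k n} {w : Fin n → ℝ} {t : ℝ} {v : Fin n → k} :
    v ∈ pt b w t ↔ ∀ i, b.repr v i ≠ 0 → t ≤ w i := by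
  unfold pt
  rw [Module.Basis.mem_span_image]
  constructor
  · intro h i hi
    exact h (Finset.mem_coe.2 (Finsupp.mem_support_iff.2 hi))
  · intro h i hi
    exact h i (Finsupp.mem_support_iff.1 (Finset.mem_coe.1 hi))

theorem self_mem_pt {b : Bs k n} {w : Fin n → ℝ} {t : ℝ} {i : Fin n} :
    b i ∈ pt b w t ↔ t ≤ w i := by
  unfold pt
  rw [Module.Basis.self_mem_span_image]
  rfl

theorem pt_div (b : Bs k n) (w : Fin n → ℝ) {r : ℝ} (hr : 0 < r) :
    (fun t => pt b w (t / r)) = pt b (r • w) := by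
  funext t
  unfold pt
  congr 2
  ext i
  simp only [Set.mem_ofPred_eq, Pi.smul_apply, smul_eq_mul]
  rw [div_le_iff₀ hr, mul_comm]

open Classical in
noncomputable def smul (r : ℝ) (x : X k n) : X k n :=
  if h : 0 < r then ⟨fun t => x.1 (t / r), by
    obtain ⟨b, w, hx⟩ := x.2
    exact ⟨b, r • w, by rw [hx]; exact pt_div b w h⟩⟩ else zero

/-- The inner product, computed in a common basis. -/
noncomputable def ip (x y : X k n) : ℝ :=
  sSup {r | ∃ (b : Bs k n) (v u : Fin n → ℝ), x = mk b v ∧ y = mk b u ∧ r = v ⬝ᵥ u}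

noncomputable def d2 (x y : X k n) : ℝ := ip x x - 2 * ip x y + ip y y

noncomputable def deg (x : X k n) : ℝ := ip x (mk (std k n) fun _ => 1)

/-- `φ` is monotone with respect to `w`. -/
def Comono (w φ : Fin n → ℝ) : Prop := ∀ i j, w i ≤ w j → φ i ≤ φ j

/-- `φ` and `w` lie in a common chamber. -/
def Compat (w φ : Fin n → ℝ) : Prop := ∀ i j, w i < w j → φ i ≤ φ j

/-- `φ` is constant on the blocks of `w`. -/
def Blk (w φ : Fin n → ℝ) : Prop := ∀ i j, w i = w j → φ i = φ j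

/-- The basis `d` is adapted to the grading given by the basis `c` and the blocks of `w`. -/
def Apt (c : Bs k n) (w : Fin n → ℝ) (d : Bs k n) : Prop :=
  ∀ ψ, Blk w ψ → mk d ψ = mk c ψ

/-- The filtrations compatible with the grading `(c, w)`. -/
def Par (c : Bs k n) (w : Fin n → ℝ) : Set (X k n) :=
  {x | ∃ (d : Bs k n) (φ : Fin n → ℝ), Apt c w d ∧ x = mk d φ}

def A_CB (k : Type) [Field k] (n : ℕ) : Prop :=
  ∀ (c d0 : Bs k n) (w v : Fin n → ℝ) (y : X k n), Apt c w d0 → y ∈ Par c w →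
    ∃ (d : Bs k n) (u : Fin n → ℝ), Apt c w d ∧ mk d v = mk d0 v ∧ y = mk d u

def A_TYP (k : Type) [Field k] (n : ℕ) : Prop :=
  ∀ (b d : Bs k n) (v u : Fin n → ℝ), mk b v = mk d u → ∃ σ : Equiv.Perm (Fin n), u = v ∘ σ

def A_IP (k : Type) [Field k] (n : ℕ) : Prop :=
  ∀ (b : Bs k n) (v u : Fin n → ℝ), ip (mk b v) (mk b u) = v ⬝ᵥ u

def A_RET (k : Type) [Field k] (n : ℕ) : Prop :=
  ∀ (b : Bs k n) (φ : Fin n → ℝ) (z : X k n), ∃ ζ : Fin n → ℝ, ζ ⬝ᵥ ζ = ip z z ∧
    ip (mk b φ) z = φ ⬝ᵥ ζ ∧ ∀ ψ, ip (mk b ψ) z ≤ ψ ⬝ᵥ ζ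

def A_UNIP (k : Type) [Field k] (n : ℕ) : Prop :=
  ∀ (c d : Bs k n) (w : Fin n → ℝ), mk d w = mk c w →
    ∃ d' : Bs k n, Apt c w d' ∧ ∀ φ, Compat w φ → mk d' φ = mk d φ

/-- The five basic facts of linear algebra on which the geometry rests. -/
class API (k : Type) [Field k] (n : ℕ) : Prop where
  cb : A_CB k n
  typ : A_TYP k n
  ipm : A_IP k n
  ret : A_RET k n
  unip : A_UNIP k n

theorem exists_mk (x : X k n) : ∃ b w, x = mk b w := by
  obtain ⟨F, b, w, h⟩ := x
  exact ⟨b, w, Subtype.ext h⟩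

theorem mk_eq_iff {b d : Bs k n} {v u : Fin n → ℝ} : mk b v = mk d u ↔ pt b v = pt d u :=
  Subtype.ext_iff

theorem add_mk (b : Bs k n) (v u : Fin n → ℝ) : add (mk b v) (mk b u) = mk b (v + u) := by
  have h : (fun t => ⨆ s, (mk b v).1 s ⊓ (mk b u).1 (t - s)) = pt b (v + u) := by
    funext t
    apply le_antisymm
    · refine iSup_le fun s x hx => mem_pt.2 fun i hi => ?_
      have h1 := mem_pt.1 hx.1 i hi
      have h2 := mem_pt.1 hx.2 i hi
      simp only [Pi.add_apply]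
      linarith
    · refine Submodule.span_le.2 ?_
      rintro _ ⟨i, hi, rfl⟩
      refine (le_iSup (fun s => (mk b v).1 s ⊓ (mk b u).1 (t - s)) (v i)) ⟨?_, ?_⟩
      · exact self_mem_pt.2 le_rfl
      · refine self_mem_pt.2 ?_
        have : t ≤ v i + u i := hi
        linarith
  unfold add
  rw [dif_pos ⟨b, _, h⟩]
  exact Subtype.ext h

theorem mk_const (b d : Bs k n) (r : ℝ) : mk b (fun _ => r) = mk d (fun _ => r) := by
  refine mk_eq_iff.2 (funext fun t => ?_)
  by_cases h : t ≤ r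
  · have : ∀ c : Bs k n, pt c (fun _ => r) t = ⊤ := fun c =>
      eq_top_iff.2 fun v _ => mem_pt.2 fun _ _ => h
    rw [this, this]
  · have : ∀ c : Bs k n, pt c (fun _ => r) t = ⊥ := fun c => by
      unfold pt
      simp [h]
    rw [this, this]

theorem mk_zero (b : Bs k n) : mk b 0 = zero := mk_const b _ 0

theorem smul_mk (b : Bs k n) (v : Fin n → ℝ) {r : ℝ} (hr : 0 ≤ r) :
    smul r (mk b v) = mk b (r • v) := by
  unfold smul
  rcases hr.eq_or_lt with h | h
  · subst h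
    rw [dif_neg (lt_irrefl _), zero_smul, mk_zero]
  · rw [dif_pos h]
    exact Subtype.ext (pt_div b v h)

theorem mk_inj {b : Bs k n} {v u : Fin n → ℝ} (h : mk b v = mk b u) : v = u := by
  have h' := mk_eq_iff.1 h
  funext i
  apply le_antisymm
  · exact self_mem_pt.1 (h' ▸ (self_mem_pt.2 le_rfl : b i ∈ pt b v (v i)))
  · exact self_mem_pt.1 (h'.symm ▸ (self_mem_pt.2 le_rfl : b i ∈ pt b u (u i)))

theorem mk_comp {b d : Bs k n} {w φ : Fin n → ℝ} (h : mk d w = mk b w) (hc : Comono w φ) :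
    mk d φ = mk b φ := by
  classical
  refine mk_eq_iff.2 (funext fun t => ?_)
  have h' := mk_eq_iff.1 h
  by_cases he : (Finset.univ.filter fun i => t ≤ φ i).Nonempty
  · obtain ⟨i0, hi0, hmin⟩ := Finset.exists_min_image _ w he
    have hS : {i | t ≤ φ i} = {i | w i0 ≤ w i} := by
      ext i
      constructor
      · intro hi
        exact hmin i (Finset.mem_filter.2 ⟨Finset.mem_univ _, hi⟩)
      · intro hi
        exact (Finset.mem_filter.1 hi0).2.trans (hc _ _ hi)
    have := congrFun h' (w i0)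
    unfold pt at this ⊢
    rw [hS, this]
  · have hS : {i | t ≤ φ i} = ∅ := by
      ext i
      simp only [Set.mem_ofPred_eq, Set.mem_empty_iff_false, iff_false]
      exact fun hi => he ⟨i, Finset.mem_filter.2 ⟨Finset.mem_univ _, hi⟩⟩
    unfold pt
    simp [hS]

theorem mk_reidx (b : Bs k n) (v : Fin n → ℝ) (σ : Equiv.Perm (Fin n)) :
    mk (b.reindex σ.symm) (v ∘ σ) = mk b v := by
  refine mk_eq_iff.2 (funext fun t => ?_)
  unfold pt
  congr 1
  ext x
  constructor
  · rintro ⟨i, hi, rfl⟩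
    exact ⟨σ i, hi, by simp⟩
  · rintro ⟨i, hi, rfl⟩
    exact ⟨σ.symm i, by simpa using hi, by simp⟩

theorem Apt.refl (c : Bs k n) (w : Fin n → ℝ) : Apt c w c := fun _ _ => rfl

theorem Apt.symm {c d : Bs k n} {w : Fin n → ℝ} (h : Apt c w d) : Apt d w c :=
  fun ψ hψ => (h ψ hψ).symm

theorem Apt.trans {c d e : Bs k n} {w : Fin n → ℝ} (h : Apt c w d) (h' : Apt d w e) :
    Apt c w e := fun ψ hψ => (h' ψ hψ).trans (h ψ hψ)

theorem Blk.refl (w : Fin n → ℝ) : Blk w w := fun _ _ h => h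

theorem Blk.trans {w w' ψ : Fin n → ℝ} (h : Blk w' w) (h' : Blk w ψ) : Blk w' ψ :=
  fun i j e => h' i j (h i j e)

theorem Blk.neg {w ψ : Fin n → ℝ} (h : Blk w ψ) : Blk w (-ψ) :=
  fun i j e => by simp [h i j e]

theorem Blk.add {w ψ φ : Fin n → ℝ} (h : Blk w ψ) (h' : Blk w φ) : Blk w (ψ + φ) :=
  fun i j e => by simp [h i j e, h' i j e]

theorem Blk.smul {w ψ : Fin n → ℝ} (h : Blk w ψ) (r : ℝ) : Blk w (r • ψ) :=
  fun i j e => by simp [h i j e]

theorem Comono.blk {w φ : Fin n → ℝ} (h : Comono w φ) : Blk w φ :=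
  fun i j e => le_antisymm (h i j e.le) (h j i e.ge)

theorem Comono.compat {w φ : Fin n → ℝ} (h : Comono w φ) : Compat w φ :=
  fun i j e => h i j e.le

theorem Comono.compat' {w φ : Fin n → ℝ} (h : Comono w φ) : Compat φ w :=
  fun i j e => le_of_not_gt fun h' => absurd (h j i h'.le) (not_le.2 e)

theorem Compat.symm {w φ : Fin n → ℝ} (h : Compat w φ) : Compat φ w :=
  fun i j e => le_of_not_gt fun h' => absurd (h j i h') (not_le.2 e)

theorem Compat.refl (w : Fin n → ℝ) : Compat w w := fun _ _ h => h.le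

theorem Compat.comono_add {w φ : Fin n → ℝ} (h : Compat w φ) : Comono (w + φ) w := by
  intro i j e
  by_contra h'
  have h1 := not_le.1 h'
  have h2 := h j i h1
  simp only [Pi.add_apply] at e
  linarith

theorem Compat.comono_add' {w φ : Fin n → ℝ} (h : Compat w φ) : Comono (w + φ) φ := by
  rw [add_comm]
  exact h.symm.comono_add

theorem Apt.mono {c d : Bs k n} {w w' : Fin n → ℝ} (h : Apt c w' d) (hb : Blk w' w) :
    Apt c w d := fun ψ hψ => h ψ (hb.trans hψ)

theorem apt_zero (c d : Bs k n) : Apt c 0 d := by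
  intro ψ hψ
  rcases Nat.eq_zero_or_pos n with h | h
  · subst h
    have : ψ = fun _ => 0 := funext fun i => i.elim0
    rw [this]
    exact mk_const _ _ _
  · have : ψ = fun _ => ψ ⟨0, h⟩ := funext fun i => hψ _ _ rfl
    rw [this]
    exact mk_const _ _ _

theorem mem_par_zero (c : Bs k n) (x : X k n) : x ∈ Par c 0 := by
  obtain ⟨b, w, rfl⟩ := exists_mk x
  exact ⟨b, w, apt_zero _ _, rfl⟩

theorem mk_mem_par {c d : Bs k n} {w : Fin n → ℝ} (h : Apt c w d) (φ : Fin n → ℝ) :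
    mk d φ ∈ Par c w := ⟨d, φ, h, rfl⟩

theorem par_mono {c : Bs k n} {w w' : Fin n → ℝ} (hb : Blk w' w) : Par c w' ⊆ Par c w := by
  rintro _ ⟨d, φ, h, rfl⟩
  exact ⟨d, φ, h.mono hb, rfl⟩

theorem par_congr {c d : Bs k n} {w : Fin n → ℝ} (h : Apt c w d) : Par d w = Par c w := by
  ext x
  constructor
  · rintro ⟨e, φ, h', rfl⟩
    exact ⟨e, φ, h.trans h', rfl⟩
  · rintro ⟨e, φ, h', rfl⟩
    exact ⟨e, φ, h.symm.trans h', rfl⟩

/-- Small perturbations of `w` refine `w`. -/
theorem exists_small (w α : Fin n → ℝ) : ∃ ε0 : ℝ, 0 < ε0 ∧ ∀ ε : ℝ, |ε| ≤ ε0 →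
    ∀ i j, w i < w j → (w + ε • α) i < (w + ε • α) j := by
  have h : ∀ᶠ ε in nhds (0 : ℝ), ∀ p : Fin n × Fin n, w p.1 < w p.2 →
      (w + ε • α) p.1 < (w + ε • α) p.2 := by
    refine Filter.eventually_all.2 fun p => ?_
    by_cases hp : w p.1 < w p.2
    · have : ∀ᶠ ε in nhds (0 : ℝ), (w + ε • α) p.1 < (w + ε • α) p.2 := by
        refine ContinuousAt.eventually_lt (by fun_prop) (by fun_prop) ?_
        simpa using hp
      exact this.mono fun _ h _ => h
    · exact Filter.Eventually.of_forall fun _ h => absurd h hp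
  obtain ⟨δ, hδ, h'⟩ := Metric.eventually_nhds_iff.1 h
  refine ⟨δ / 2, by positivity, fun ε hε i j => h' ?_ (i, j)⟩
  rw [Real.dist_eq, sub_zero]
  linarith

theorem comono_of_lt {w φ : Fin n → ℝ} (h : ∀ i j, w i < w j → φ i < φ j) : Comono φ w :=
  fun i j e => le_of_not_gt fun h' => absurd (h j i h') (not_lt.2 e)

theorem dot_self_nonneg (v : Fin n → ℝ) : 0 ≤ v ⬝ᵥ v :=
  Finset.sum_nonneg fun i _ => mul_self_nonneg (v i)

theorem dot_sq_le (v u : Fin n → ℝ) : (v ⬝ᵥ u) ^ 2 ≤ (v ⬝ᵥ v) * (u ⬝ᵥ u) := by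
  have := Finset.sum_mul_sq_le_sq_mul_sq Finset.univ v u
  simpa [dotProduct, sq] using this

theorem dot_le (v u : Fin n → ℝ) : v ⬝ᵥ u ≤ √(v ⬝ᵥ v) * √(u ⬝ᵥ u) := by
  rw [← Real.sqrt_mul (dot_self_nonneg v)]
  exact Real.le_sqrt_of_sq_le (dot_sq_le v u)

theorem sqrt_dot_add (v u : Fin n → ℝ) :
    √((v + u) ⬝ᵥ (v + u)) ≤ √(v ⬝ᵥ v) + √(u ⬝ᵥ u) := by
  refine Real.sqrt_le_iff.2 ⟨by positivity, ?_⟩
  have h1 := Real.sq_sqrt (dot_self_nonneg v)
  have h2 := Real.sq_sqrt (dot_self_nonneg u)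
  have h3 := dot_le v u
  rw [add_dotProduct, dotProduct_add, dotProduct_add, dotProduct_comm u v]
  nlinarith

/-- Orthogonal decomposition for the dot product. -/
theorem exists_orth (W : Submodule ℝ (Fin n → ℝ)) (v : Fin n → ℝ) :
    ∃ u ∈ W, ∀ ψ ∈ W, (v - u) ⬝ᵥ ψ = 0 := by
  let e := (EuclideanSpace.equiv (Fin n) ℝ).toLinearEquiv
  obtain ⟨y, hy, z, hz, h⟩ := (W.comap e.toLinearMap).exists_add_mem_mem_orthogonal (e.symm v)
  refine ⟨e y, hy, fun ψ hψ => ?_⟩
  have h1 : v - e y = e z := by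
    have := congrArg e h
    rw [e.apply_symm_apply, map_add] at this
    rw [this, add_sub_cancel_left]
  have h2 := (Submodule.mem_orthogonal _ _).1 hz (e.symm ψ) (by simpa using hψ)
  rw [h1]
  simpa [e, PiLp.inner_apply, dotProduct] using h2

variable [API k n]

theorem ip_mk (b : Bs k n) (v u : Fin n → ℝ) : ip (mk b v) (mk b u) = v ⬝ᵥ u := API.ipm b v u

/-- A common basis, keeping the weights of the first point. -/
theorem cb0 (b : Bs k n) (v : Fin n → ℝ) (y : X k n) :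
    ∃ (d : Bs k n) (u : Fin n → ℝ), mk d v = mk b v ∧ y = mk d u := by
  obtain ⟨d, u, -, h⟩ := API.cb b b 0 v y (Apt.refl _ _) (mem_par_zero _ _)
  exact ⟨d, u, h⟩

theorem common (x y : X k n) : ∃ b v u, x = mk b v ∧ y = mk b u := by
  obtain ⟨b, v, rfl⟩ := exists_mk x
  obtain ⟨d, u, h1, h2⟩ := cb0 b v y
  exact ⟨d, v, u, h1.symm, h2⟩

theorem common_par {c : Bs k n} {w : Fin n → ℝ} {x y : X k n} (hx : x ∈ Par c w)
    (hy : y ∈ Par c w) : ∃ d v u, Apt c w d ∧ x = mk d v ∧ y = mk d u := by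
  obtain ⟨b, v, hb, rfl⟩ := hx
  obtain ⟨d, u, h0, h1, h2⟩ := API.cb c b w v y hb hy
  exact ⟨d, v, u, h0, h1.symm, h2⟩

theorem ip_comm (x y : X k n) : ip x y = ip y x := by
  obtain ⟨b, v, u, rfl, rfl⟩ := common x y
  rw [ip_mk, ip_mk, dotProduct_comm]

theorem add_comm' (x y : X k n) : add x y = add y x := by
  obtain ⟨b, v, u, rfl, rfl⟩ := common x y
  rw [add_mk, add_mk, add_comm]

omit [API k n] in
theorem add_zero' (x : X k n) : add x zero = x := by
  obtain ⟨b, v, rfl⟩ := exists_mk x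
  rw [← mk_zero b, add_mk, add_zero]

omit [API k n] in
theorem zero_add' (x : X k n) : add zero x = x := by
  obtain ⟨b, v, rfl⟩ := exists_mk x
  rw [← mk_zero b, add_mk, zero_add]

omit [API k n] in
theorem one_smul' (x : X k n) : smul 1 x = x := by
  obtain ⟨b, v, rfl⟩ := exists_mk x
  rw [smul_mk _ _ zero_le_one, one_smul]

omit [API k n] in
theorem zero_smul' (x : X k n) : smul 0 x = zero := by
  obtain ⟨b, v, rfl⟩ := exists_mk x
  rw [smul_mk _ _ le_rfl, zero_smul, mk_zero]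

omit [API k n] in
theorem smul_zero' {r : ℝ} (hr : 0 ≤ r) : smul r (zero : X k n) = zero := by
  rw [← mk_zero (std k n), smul_mk _ _ hr, smul_zero]

omit [API k n] in
theorem smul_smul' {r s : ℝ} (hr : 0 ≤ r) (hs : 0 ≤ s) (x : X k n) :
    smul r (smul s x) = smul (r * s) x := by
  obtain ⟨b, v, rfl⟩ := exists_mk x
  rw [smul_mk _ _ hs, smul_mk _ _ hr, smul_mk _ _ (mul_nonneg hr hs), smul_smul]

theorem smul_add' {r : ℝ} (hr : 0 ≤ r) (x y : X k n) :
    smul r (add x y) = add (smul r x) (smul r y) := by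
  obtain ⟨b, v, u, rfl, rfl⟩ := common x y
  rw [add_mk, smul_mk _ _ hr, smul_mk _ _ hr, smul_mk _ _ hr, add_mk, smul_add]

theorem ip_zero_left (x : X k n) : ip zero x = 0 := by
  obtain ⟨b, v, rfl⟩ := exists_mk x
  rw [← mk_zero b, ip_mk, zero_dotProduct]

theorem ip_zero_right (x : X k n) : ip x zero = 0 := by rw [ip_comm, ip_zero_left]

theorem ip_smul_left {r : ℝ} (hr : 0 ≤ r) (x y : X k n) : ip (smul r x) y = r * ip x y := by
  obtain ⟨b, v, u, rfl, rfl⟩ := common x y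
  rw [smul_mk _ _ hr, ip_mk, ip_mk, smul_dotProduct, smul_eq_mul]

theorem ip_smul_right {r : ℝ} (hr : 0 ≤ r) (x y : X k n) : ip x (smul r y) = r * ip x y := by
  rw [ip_comm, ip_smul_left hr, ip_comm]

theorem ip_self_nonneg (x : X k n) : 0 ≤ ip x x := by
  obtain ⟨b, v, rfl⟩ := exists_mk x
  rw [ip_mk]
  exact dot_self_nonneg v

theorem eq_zero_of_ip_self {x : X k n} (h : ip x x ≤ 0) : x = zero := by
  obtain ⟨b, v, rfl⟩ := exists_mk x
  rw [ip_mk] at h
  rw [dotProduct_self_eq_zero.1 (le_antisymm h (dot_self_nonneg v)), mk_zero]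

theorem ip_self_pos {x : X k n} (h : x ≠ zero) : 0 < ip x x :=
  lt_of_not_ge fun h' => h (eq_zero_of_ip_self h')

theorem ip_add_left_self (x y : X k n) : ip (add x y) x = ip x x + ip y x := by
  obtain ⟨b, v, u, rfl, rfl⟩ := common x y
  rw [add_mk, ip_mk, ip_mk, ip_mk, add_dotProduct]

theorem ip_add_right_self (x y : X k n) : ip (add x y) y = ip x y + ip y y := by
  obtain ⟨b, v, u, rfl, rfl⟩ := common x y
  rw [add_mk, ip_mk, ip_mk, ip_mk, add_dotProduct]

theorem ip_add_add (x y : X k n) : ip (add x y) (add x y) = ip x x + 2 * ip x y + ip y y := by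
  obtain ⟨b, v, u, rfl, rfl⟩ := common x y
  rw [add_mk, ip_mk, ip_mk, ip_mk, ip_mk, add_dotProduct, dotProduct_add, dotProduct_add,
    dotProduct_comm u v]
  ring

theorem ip_sq_le (x y : X k n) : ip x y ^ 2 ≤ ip x x * ip y y := by
  obtain ⟨b, v, u, rfl, rfl⟩ := common x y
  rw [ip_mk, ip_mk, ip_mk]
  exact dot_sq_le v u

/-- Concavity of the inner product. -/
theorem ip_add_ge (x y z : X k n) : ip x z + ip y z ≤ ip (add x y) z := by
  obtain ⟨b, v, u, rfl, rfl⟩ := common x y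
  obtain ⟨ζ, -, h1, h2⟩ := API.ret b (v + u) z
  rw [add_mk, h1, add_dotProduct]
  exact add_le_add (h2 v) (h2 u)

theorem ip_add_ge' (x y z : X k n) : ip z x + ip z y ≤ ip z (add x y) := by
  rw [ip_comm z, ip_comm z, ip_comm z]
  exact ip_add_ge x y z

/-- The inner product with a fixed point is additive on a closed chamber. -/
theorem ip_add_compat (b : Bs k n) {φ ψ : Fin n → ℝ} (h : Compat φ ψ) (z : X k n) :
    ip (mk b (φ + ψ)) z = ip (mk b φ) z + ip (mk b ψ) z := by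
  obtain ⟨d, u, h1, rfl⟩ := cb0 b (φ + ψ) z
  rw [← h1, ← mk_comp h1 h.comono_add, ← mk_comp h1 h.comono_add', ip_mk, ip_mk, ip_mk,
    add_dotProduct]

theorem d2_mk (b : Bs k n) (v u : Fin n → ℝ) : d2 (mk b v) (mk b u) = (v - u) ⬝ᵥ (v - u) := by
  unfold d2
  rw [ip_mk, ip_mk, ip_mk, sub_dotProduct, dotProduct_sub, dotProduct_sub, dotProduct_comm u v]
  ring

theorem d2_nonneg (x y : X k n) : 0 ≤ d2 x y := by
  obtain ⟨b, v, u, rfl, rfl⟩ := common x y
  rw [d2_mk]
  exact dot_self_nonneg _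

theorem d2_comm (x y : X k n) : d2 x y = d2 y x := by
  unfold d2
  rw [ip_comm x y]
  ring

omit [API k n] in
theorem d2_self (x : X k n) : d2 x x = 0 := by
  unfold d2
  ring

theorem eq_of_d2 {x y : X k n} (h : d2 x y ≤ 0) : x = y := by
  obtain ⟨b, v, u, rfl, rfl⟩ := common x y
  rw [d2_mk] at h
  rw [sub_eq_zero.1 (dotProduct_self_eq_zero.1 (le_antisymm h (dot_self_nonneg _)))]

theorem d2_zero (x : X k n) : d2 x zero = ip x x := by
  unfold d2
  rw [ip_zero_right, ip_zero_right]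
  ring

noncomputable instance : MetricSpace (X k n) where
  dist x y := √(d2 x y)
  dist_self x := by rw [d2_self, Real.sqrt_zero]
  dist_comm x y := by rw [d2_comm]
  dist_triangle x y z := by
    obtain ⟨b, v, u, rfl, rfl⟩ := common x z
    obtain ⟨ζ, h0, h1, h2⟩ := API.ret b v y
    have e1 : d2 (mk b v) y = (v - ζ) ⬝ᵥ (v - ζ) := by
      unfold d2
      rw [h1, ← h0, ip_mk, sub_dotProduct, dotProduct_sub, dotProduct_sub, dotProduct_comm ζ v]
      ring
    have e2 : (ζ - u) ⬝ᵥ (ζ - u) ≤ d2 y (mk b u) := by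
      unfold d2
      have := h2 u
      rw [ip_comm y (mk b u), ← h0, ip_mk, sub_dotProduct, dotProduct_sub, dotProduct_sub,
        dotProduct_comm ζ u]
      linarith
    have e3 := sqrt_dot_add (v - ζ) (ζ - u)
    rw [sub_add_sub_cancel] at e3
    rw [d2_mk, e1]
    exact e3.trans (add_le_add le_rfl (Real.sqrt_le_sqrt e2))
  eq_of_dist_eq_zero h := eq_of_d2 (Real.sqrt_eq_zero'.1 h)

theorem dist_def (x y : X k n) : Dist.dist x y = √(d2 x y) := rfl

theorem dist_sq (x y : X k n) : Dist.dist x y ^ 2 = d2 x y := Real.sq_sqrt (d2_nonneg x y)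

theorem dist_zero' (x : X k n) : Dist.dist x zero = √(ip x x) := by rw [dist_def, d2_zero]

theorem ip_sub_le (x y z : X k n) : ip y z - ip x z ≤ Dist.dist x y * √(ip z z) := by
  obtain ⟨b, v, u, rfl, rfl⟩ := common x y
  obtain ⟨ζ, h0, h1, h2⟩ := API.ret b v z
  have h3 := dot_le (u - v) ζ
  have h4 := h2 u
  rw [dist_comm, dist_def, d2_mk, ← h0, h1]
  rw [sub_dotProduct u v ζ] at h3
  linarith

theorem abs_ip_sub_le (x y z : X k n) : |ip x z - ip y z| ≤ Dist.dist x y * √(ip z z) := by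
  refine abs_le.2 ⟨?_, ?_⟩
  · linarith [ip_sub_le x y z]
  · have := ip_sub_le y x z
    rwa [dist_comm] at this

theorem continuous_ip_left (z : X k n) : Continuous fun x : X k n => ip x z := by
  refine (LipschitzWith.of_dist_le_mul (K := Real.toNNReal √(ip z z)) fun x y => ?_).continuous
  rw [Real.coe_toNNReal _ (Real.sqrt_nonneg _), Real.dist_eq, mul_comm]
  exact abs_ip_sub_le x y z

theorem continuous_ip_right (z : X k n) : Continuous fun x : X k n => ip z x := by
  simp only [ip_comm z]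
  exact continuous_ip_left z

theorem continuous_ip_self : Continuous fun x : X k n => ip x x := by
  have : (fun x : X k n => ip x x) = fun x => Dist.dist x zero ^ 2 := by
    funext x
    rw [dist_sq, d2_zero]
  rw [this]
  fun_prop

theorem d2_add_le (x x' y : X k n) : d2 (add x y) (add x' y) ≤ d2 x x' := by
  have h1 := ip_add_ge x y (add x' y)
  have h2 := ip_add_ge' x' y x
  have h3 := ip_add_right_self x' y
  unfold d2
  rw [ip_add_add, ip_add_add]
  rw [ip_comm y (add x' y)] at h1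
  linarith

theorem dist_add_le (x x' y y' : X k n) :
    Dist.dist (add x y) (add x' y') ≤ Dist.dist x x' + Dist.dist y y' := by
  refine (dist_triangle _ (add x' y) _).trans (add_le_add ?_ ?_)
  · exact Real.sqrt_le_sqrt (d2_add_le x x' y)
  · rw [add_comm' x' y, add_comm' x' y']
    exact Real.sqrt_le_sqrt (d2_add_le y y' x')

theorem continuous_add' : Continuous fun p : X k n × X k n => add p.1 p.2 := by
  refine (LipschitzWith.of_dist_le_mul (K := 2) fun p q => ?_).continuous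
  have h1 := dist_add_le p.1 q.1 p.2 q.2
  have h2 : Dist.dist p.1 q.1 ≤ Dist.dist p q := le_max_left _ _
  have h3 : Dist.dist p.2 q.2 ≤ Dist.dist p q := le_max_right _ _
  push_cast
  linarith

theorem d2_smul {r : ℝ} (hr : 0 ≤ r) (x y : X k n) :
    d2 (smul r x) (smul r y) = r ^ 2 * d2 x y := by
  unfold d2
  simp only [ip_smul_left hr, ip_smul_right hr]
  ring

theorem dist_smul' {r : ℝ} (hr : 0 ≤ r) (x y : X k n) :
    Dist.dist (smul r x) (smul r y) = r * Dist.dist x y := by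
  rw [dist_def, d2_smul hr, Real.sqrt_mul (sq_nonneg r), Real.sqrt_sq hr, dist_def]

theorem continuous_smul' {r : ℝ} (hr : 0 ≤ r) : Continuous fun x : X k n => smul r x := by
  refine (LipschitzWith.of_dist_le_mul (K := Real.toNNReal r) fun x y => ?_).continuous
  rw [Real.coe_toNNReal _ hr, dist_smul' hr]

/-- The CN inequality along the segment from `x` to `y`. -/
theorem d2_seg (x y z : X k n) {t : ℝ} (h0 : 0 ≤ t) (h1 : t ≤ 1) :
    d2 z (add (smul (1 - t) x) (smul t y)) ≤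
      (1 - t) * d2 z x + t * d2 z y - t * (1 - t) * d2 x y := by
  have h1' : 0 ≤ 1 - t := by linarith
  have h := ip_add_ge' (smul (1 - t) x) (smul t y) z
  unfold d2
  rw [ip_add_add]
  simp only [ip_smul_left h0, ip_smul_left h1', ip_smul_right h0, ip_smul_right h1'] at h ⊢
  nlinarith

theorem deg_mk (b : Bs k n) (v : Fin n → ℝ) : deg (mk b v) = ∑ i, v i := by
  unfold deg
  rw [mk_const _ b, ip_mk]
  simp [dotProduct]

theorem deg_add (x y : X k n) : deg (add x y) = deg x + deg y := by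
  obtain ⟨b, v, u, rfl, rfl⟩ := common x y
  rw [add_mk, deg_mk, deg_mk, deg_mk, ← Finset.sum_add_distrib]
  rfl

theorem deg_smul {r : ℝ} (hr : 0 ≤ r) (x : X k n) : deg (smul r x) = r * deg x :=
  ip_smul_left hr _ _

theorem deg_zero : deg (zero : X k n) = 0 := ip_zero_left _

theorem continuous_deg : Continuous fun x : X k n => deg x := continuous_ip_left _

/-- Antipodes in terms of the inner product. -/
theorem add_eq_zero_of_ip {p q : X k n} (h1 : ip q q ≤ ip p p) (h2 : ip p q ≤ -ip p p) :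
    add p q = zero := by
  refine eq_zero_of_ip_self ?_
  rw [ip_add_add]
  linarith

omit [API k n] in
theorem eq_neg_of_add {b : Bs k n} {v u : Fin n → ℝ} (h : add (mk b v) (mk b u) = zero) :
    u = -v := by
  rw [add_mk, ← mk_zero b] at h
  exact eq_neg_of_add_eq_zero_right (mk_inj h)

theorem ip_of_add_eq_zero {p q : X k n} (h : add p q = zero) :
    ip p q = -ip p p ∧ ip q q = ip p p := by
  obtain ⟨b, v, u, rfl, rfl⟩ := common p q
  rw [eq_neg_of_add h, ip_mk, ip_mk, ip_mk]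
  simp

end Pool.Agent.P.MP_8ecd01_al.SL
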