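import Pool.Agent.P.MP_8ecd01_al.SL.Iface

/-! Step CB of the top-dimensional centre theorem for SL_n. -/

namespace Pool.Agent.P.MP_8ecd01_al.SL

open Matrix Module

section
variable {k : Type} [Field k] {n : ℕ}

theorem cb_mem {d : Bs k n} {S : Set (Fin n)} {x : Fin n → k} :
    x ∈ Submodule.span k (d '' S) ↔ ∀ j, d.repr x j ≠ 0 → j ∈ S := by
  rw [Module.Basis.mem_span_image]
  exact ⟨fun h j hj => h (Finset.mem_coe.2 (Finsupp.mem_support_iff.2 hj)),
    fun h j hj => h j (Finsupp.mem_support_iff.1 (Finset.mem_coe.1 hj))⟩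

/-- the level of a nonzero vector -/
theorem cb_val (e : Bs k n) (φ : Fin n → ℝ) {x : Fin n → k} (hx : x ≠ 0) :
    ∃ j, ∀ t, x ∈ pt e φ t ↔ t ≤ φ j := by
  have hne : (e.repr x).support.Nonempty := Finsupp.support_nonempty_iff.2 (by simpa using hx)
  obtain ⟨j, hj, hm⟩ := Finset.exists_min_image _ φ hne
  exact ⟨j, fun t => ⟨fun h => mem_pt.1 h j (Finsupp.mem_support_iff.1 hj),
    fun h => mem_pt.2 fun i hi => h.trans (hm i (Finsupp.mem_support_iff.2 hi))⟩⟩

theorem cb_split (d : Bs k n) (S : Set (Fin n)) (x : Fin n → k) :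
    ∃ x1 ∈ Submodule.span k (d '' S), ∃ x2 ∈ Submodule.span k (d '' Sᶜ), x1 + x2 = x := by
  rw [← Submodule.mem_sup, span_sup_span, Set.union_compl_self]
  exact cb_mem.2 fun _ _ => trivial

theorem cb_repr {d : Bs k n} {S : Set (Fin n)} {x1 x2 : Fin n → k}
    (h2 : x2 ∈ Submodule.span k (d '' Sᶜ)) {j : Fin n} (hj : j ∈ S) :
    d.repr (x1 + x2) j = d.repr x1 j := by
  have : d.repr x2 j = 0 := by
    by_contra h
    exact cb_mem.1 h2 j h hj
  simp [this]

/-- exchange of one basis vector -/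
theorem cb_exch (d : Bs k n) (i : Fin n) (x : Fin n → k) (hx : d.repr x i ≠ 0) :
    ∃ d2 : Bs k n, d2 i = x ∧ (∀ j, j ≠ i → d2 j = d j) ∧ ∀ S : Set (Fin n),
      (i ∈ S → ∀ j, d.repr x j ≠ 0 → j ∈ S) →
        Submodule.span k (d2 '' S) = Submodule.span k (d '' S) := by
  classical
  have key : ∀ S : Set (Fin n), (i ∈ S → ∀ j, d.repr x j ≠ 0 → j ∈ S) →
      Submodule.span k (Function.update d i x '' S) = Submodule.span k (d '' S) := by
    intro S hS
    have h1 : Submodule.span k (d '' (S \ {i})) ≤ Submodule.span k (Function.update d i x '' S) :=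
      Submodule.span_mono (by
        rintro _ ⟨j, ⟨hj, hi⟩, rfl⟩
        exact ⟨j, hj, Function.update_of_ne hi _ _⟩)
    apply le_antisymm
    · refine Submodule.span_le.2 ?_
      rintro _ ⟨j, hj, rfl⟩
      by_cases hi : j = i
      · subst hi
        rw [Function.update_self]
        exact cb_mem.2 (hS hj)
      · rw [Function.update_of_ne hi]
        exact Submodule.subset_span ⟨j, hj, rfl⟩
    · refine Submodule.span_le.2 ?_
      rintro _ ⟨j, hj, rfl⟩
      by_cases hi : j = i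
      · subst hi
        have h2 : x - d.repr x j • d j ∈ Submodule.span k (d '' (S \ {j})) := by
          refine cb_mem.2 fun l hl => ?_
          have h3 : l ≠ j := by
            rintro rfl
            simp at hl
          refine ⟨hS hj l ?_, h3⟩
          simpa [Finsupp.single_eq_of_ne h3] using hl
        have h3 : x ∈ Submodule.span k (Function.update d j x '' S) :=
          Submodule.subset_span ⟨j, hj, Function.update_self ..⟩
        have h4 := Submodule.sub_mem _ h3 (h1 h2)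
        rw [sub_sub_cancel] at h4
        exact (Submodule.smul_mem_iff _ hx).1 h4
      · exact h1 (Submodule.subset_span ⟨j, ⟨hj, hi⟩, rfl⟩)
  have htop : ⊤ ≤ Submodule.span k (Set.range (Function.update d i x)) := by
    rw [← Set.image_univ, key Set.univ fun _ _ _ => trivial, Set.image_univ, d.span_eq]
  refine ⟨basisOfTopLeSpanOfCardEqFinrank _ htop (by simp), ?_, fun j hj => ?_, ?_⟩
  · simp
  · simp [Function.update_of_ne hj]
  · simpa only [coe_basisOfTopLeSpanOfCardEqFinrank] using key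

/-- adapted bases span the same space on a union of blocks -/
theorem cb_apt {e d : Bs k n} {w : Fin n → ℝ} (h : Apt e w d) {S : Set (Fin n)}
    (hS : ∀ i j, w i = w j → (i ∈ S ↔ j ∈ S)) :
    Submodule.span k (d '' S) = Submodule.span k (e '' S) := by
  classical
  have h1 := congrFun (mk_eq_iff.1 (h (fun i => if i ∈ S then 1 else 0)
    fun i j hw => if_congr (hS i j hw) rfl rfl)) 1
  have h2 : {i | (1 : ℝ) ≤ if i ∈ S then 1 else 0} = S := by
    ext i
    by_cases hi : i ∈ S <;> simp [hi]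
  unfold pt at h1
  rwa [h2] at h1

theorem cb_main (c d0 e : Bs k n) (w v φ : Fin n → ℝ) (h0 : Apt c w d0) (he : Apt c w e) :
    ∃ (d : Bs k n) (u : Fin n → ℝ), Apt c w d ∧ mk d v = mk d0 v ∧ mk e φ = mk d u := by
  let M : Bs k n → Set (Fin n × Fin n) := fun d => {p | d p.1 ∈ pt e φ (φ p.2)}
  obtain ⟨d, ⟨hd, hv⟩, hmax⟩ := (InvImage.wf M wellFounded_gt).has_min
    {d | Apt c w d ∧ mk d v = mk d0 v} ⟨d0, h0, rfl⟩
  choose J hJ using fun i => cb_val e φ (d.ne_zero i)
  have hle : ∀ t, pt d (fun i => φ (J i)) t ≤ pt e φ t := fun t => Submodule.span_le.2 (by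
    rintro _ ⟨i, hi, rfl⟩
    exact (hJ i t).2 hi)
  refine ⟨d, fun i => φ (J i), hd, hv, mk_eq_iff.2 (funext fun t => le_antisymm ?_ (hle t))⟩
  intro x hx
  refine mem_pt.2 fun i hi => ?_
  by_contra hlt
  obtain ⟨x0, m0, x1, m1, rfl⟩ := cb_split d {j | t ≤ φ (J j)} x
  have p1 : x1 ∈ pt e φ t := by
    simpa using Submodule.sub_mem _ hx (hle t m0)
  have r1 : d.repr x1 i ≠ 0 := by
    rwa [add_comm, cb_repr (S := {j | t ≤ φ (J j)}ᶜ) (by rwa [compl_compl]) hlt] at hi
  obtain ⟨x2, m2, x3, m3, rfl⟩ := cb_split d {j | w j = w i} x1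
  have hde : Apt e w d := he.symm.trans hd
  have p2 : x2 ∈ pt e φ t := by
    rw [cb_apt hde fun a b hw => by simp [hw]] at m2 m3
    refine mem_pt.2 fun j hj => mem_pt.1 p1 j ?_
    rwa [cb_repr m3 (cb_mem.1 m2 j hj)]
  have r2 : d.repr x2 i ≠ 0 := by rwa [cb_repr m3 rfl] at r1
  have s2 : ∀ j, d.repr x2 j ≠ 0 → φ (J j) < t := fun j hj =>
    not_le.1 (cb_mem.1 m1 j (by rwa [cb_repr m3 (cb_mem.1 m2 j hj)]))
  obtain ⟨a, ha, hm⟩ := Finset.exists_min_image (d.repr x2).support v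
    ⟨i, Finsupp.mem_support_iff.2 r2⟩
  have ra := Finsupp.mem_support_iff.1 ha
  obtain ⟨d2, e1, e2, e3⟩ := cb_exch d a x2 ra
  obtain ⟨b, hb⟩ := cb_val e φ (x := x2) (by rintro rfl; simp at r2)
  refine hmax d2 ⟨fun ψ hψ => Eq.trans (mk_eq_iff.2 (funext fun s => e3 _ fun hs j hj => ?_))
    (hd ψ hψ), Eq.trans (mk_eq_iff.2 (funext fun s => e3 _ fun hs j hj => ?_)) hv⟩
    ((Set.ssubset_iff_of_subset ?_).2 ⟨(a, b), ?_, ?_⟩)
  · have : w a = w j := (cb_mem.1 m2 a ra).trans (cb_mem.1 m2 j hj).symm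
    exact le_of_le_of_eq hs (hψ a j this)
  · exact le_trans hs (hm j (Finsupp.mem_support_iff.2 hj))
  · rintro ⟨p, q⟩ hp
    show d2 p ∈ pt e φ (φ q)
    by_cases hpa : p = a
    · subst hpa
      rw [e1]
      exact (hb _).2 ((((hJ p _).1 hp).trans (s2 p ra).le).trans ((hb t).1 p2))
    · rw [e2 p hpa]
      exact hp
  · show d2 a ∈ pt e φ (φ b)
    rw [e1]
    exact (hb _).2 le_rfl
  · intro hp
    exact absurd (((hb t).1 p2).trans ((hJ a _).1 hp)) (not_le.2 (s2 a ra))

end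

theorem p_CB :
    S_CB := by
  rintro k _ n c d0 w v _ h0 ⟨e, φ, he, rfl⟩
  exact cb_main c d0 e w v φ h0 he

end Pool.Agent.P.MP_8ecd01_al.SL
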