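import Mathlib

/-!
The geometric realization `Δ(R)` of the spherical building of `SL_n(k)`. A maximal torus is given
by a basis `b` of `k^n`, a real cocharacter of it by weights `w` with sum zero, and two pairs
`(b, w)` give the same point of the building when they define the same filtration of `k^n`.
-/

namespace Pool.Agent.P.MP_8ecd01_al.SL

variable {k : Type} [Field k] {n : ℕ}

/-- The filtration (weighted flag) with weights `w` in the basis `b`. -/
def pt (b : Module.Basis (Fin n) k (Fin n → k)) (w : Fin n → ℝ) :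
    ℝ → Submodule k (Fin n → k) :=
  fun t => Submodule.span k (b '' {i | t ≤ w i})

variable (k n) in
/-- The spherical building: the union of the unit spheres of the apartments. -/
def Delta : Type :=
  {x : ℝ → Submodule k (Fin n → k) //
    ∃ b w, ∑ i, w i = 0 ∧ ∑ i, w i ^ 2 = 1 ∧ x = pt b w}

/-- The angular distance, measured in a common apartment. -/
noncomputable def dist (x y : Delta k n) : ℝ :=
  sInf {θ | ∃ b v w, x.1 = pt b v ∧ y.1 = pt b w ∧ θ = Real.arccos (∑ i, v i * w i)}

/-- Opposite points: antipodal in some common apartment. -/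
def Opp (x y : Delta k n) : Prop :=
  ∃ b v, x.1 = pt b v ∧ y.1 = pt b (-v)

/-- Convex sets contain the geodesic between any two of their non-opposite points. -/
def IsConvex (S : Set (Delta k n)) : Prop :=
  ∀ (b : Module.Basis (Fin n) k (Fin n → k)) (v w : Fin n → ℝ) (s t : ℝ) (x y z : Delta k n),
    x.1 = pt b v → y.1 = pt b w → z.1 = pt b (s • v + t • w) → 0 ≤ s → 0 ≤ t →
    x ∈ S → y ∈ S → ¬ Opp x y → z ∈ S

/-- Closed sets for the angular distance. -/
def IsClosed (S : Set (Delta k n)) : Prop :=
  ∀ z : Delta k n, (∀ ε : ℝ, 0 < ε → ∃ x ∈ S, dist z x < ε) → z ∈ S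

/-- The closed simplex of a flag `F`: the points whose proper steps belong to `F`. -/
def simplex (F : Set (Submodule k (Fin n → k))) : Set (Delta k n) :=
  {x | ∀ t, x.1 t = ⊥ ∨ x.1 t = ⊤ ∨ x.1 t ∈ F}

/-- Building automorphisms: isometries permuting the closed simplices. -/
def IsAut (β : Equiv.Perm (Delta k n)) : Prop :=
  (∀ x y, dist (β x) (β y) = dist x y) ∧
  (∀ F, IsChain (· ≤ ·) F → ∃ G, IsChain (· ≤ ·) G ∧ β '' simplex F = simplex G) ∧
  (∀ G, IsChain (· ≤ ·) G → ∃ F, IsChain (· ≤ ·) F ∧ β '' simplex F = simplex G)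

/-- Top-dimensional sets: some closed chamber contains `n - 1` points of the set with linearly
independent coordinates. -/
def TopDim (S : Set (Delta k n)) : Prop :=
  ∃ (b : Module.Basis (Fin n) k (Fin n → k)) (φ : Fin (n - 1) → Fin n → ℝ),
    LinearIndependent ℝ φ ∧ ∀ j, Monotone (φ j) ∧ ∃ x ∈ S, x.1 = pt b (φ j)

end Pool.Agent.P.MP_8ecd01_al.SL
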