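import Pool.Agent.P.MP_8ecd01_al.SL.Basic

/-!
Parallel sets, the projection `gr` to the link of a point, cones and families of finite type.
-/

namespace Pool.Agent.P.MP_8ecd01_al.SL

open Matrix

variable {k : Type} [Field k] {n : ℕ}

open Classical in
/-- The direction of `a` at the point `mk c w`, as a point of the parallel set. -/
noncomputable def gr (c : Bs k n) (w : Fin n → ℝ) (a : X k n) : X k n :=
  if h : ∃ g ∈ Par c w, ∃ ε0 : ℝ, 0 < ε0 ∧ ∀ ε : ℝ, 0 < ε → ε ≤ ε0 →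
    add (mk c w) (smul ε a) = add (mk c w) (smul ε g) then h.choose else a

/-- The weights of the members of `A` lie in a finite set. -/
def FinT (A : Set (X k n)) : Prop :=
  ∃ Λ : Finset ℝ, ∀ a ∈ A, ∀ (b : Bs k n) (α : Fin n → ℝ), a = mk b α → ∀ i, α i ∈ Λ

/-- Convex sets. -/
def Cvx (H : Set (X k n)) : Prop :=
  ∀ x ∈ H, ∀ y ∈ H, ∀ t : ℝ, 0 ≤ t → t ≤ 1 → add (smul (1 - t) x) (smul t y) ∈ H

/-- No nonzero point of `K` is at angle at most `π / 2` from all members of `A`. -/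
def Wide (K A : Set (X k n)) : Prop := ∀ y ∈ K, (∀ a ∈ A, 0 ≤ ip y a) → y = zero

/-- Top-dimensional cones (inside degree zero). -/
def Top (K : Set (X k n)) : Prop :=
  ∃ (b : Bs k n) (w : Fin n → ℝ), ∀ ψ : Fin n → ℝ, ∑ i, ψ i = 0 →
    (∀ φ, Comono w φ → mk b φ ∈ K → φ ⬝ᵥ ψ = 0) → ψ = 0

/-- `p` has an antipode in `K`. -/
def Ant (K : Set (X k n)) (p : X k n) : Prop := ∃ q ∈ K, add p q = zero

/-- The points of degree zero. -/
def X0 (k : Type) [Field k] (n : ℕ) : Set (X k n) := {x | deg x = 0}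

variable [API k n]

/-- Closed convex cones. -/
structure Cone (K : Set (X k n)) : Prop where
  closed : _root_.IsClosed K
  zero_mem : zero ∈ K
  add_mem : ∀ x ∈ K, ∀ y ∈ K, add x y ∈ K
  smul_mem : ∀ r : ℝ, 0 ≤ r → ∀ x ∈ K, smul r x ∈ K

theorem Cone.cvx {K : Set (X k n)} (h : Cone K) : Cvx K := fun x hx y hy t h0 h1 =>
  h.add_mem _ (h.smul_mem _ (by linarith) x hx) _ (h.smul_mem _ h0 y hy)

theorem Cone.inter {K L : Set (X k n)} (h : Cone K) (h' : Cone L) : Cone (K ∩ L) :=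
  ⟨h.closed.inter h'.closed, ⟨h.zero_mem, h'.zero_mem⟩,
    fun x hx y hy => ⟨h.add_mem x hx.1 y hy.1, h'.add_mem x hx.2 y hy.2⟩,
    fun r hr x hx => ⟨h.smul_mem r hr x hx.1, h'.smul_mem r hr x hx.2⟩⟩

theorem cone_univ : Cone (Set.univ : Set (X k n)) :=
  ⟨isClosed_univ, trivial, fun _ _ _ _ => trivial, fun _ _ _ _ => trivial⟩

theorem cone_X0 : Cone (X0 k n) :=
  ⟨isClosed_eq continuous_deg continuous_const, deg_zero,
    fun x hx y hy => by
      have hx' : deg x = 0 := hx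
      have hy' : deg y = 0 := hy
      show deg _ = 0
      rw [deg_add, hx', hy', add_zero],
    fun r hr x hx => by
      have hx' : deg x = 0 := hx
      show deg _ = 0
      rw [deg_smul hr, hx', mul_zero]⟩

/-- The half-space of a point is a closed convex cone. -/
theorem cone_half (z : X k n) : Cone {y | 0 ≤ ip y z} :=
  ⟨isClosed_le continuous_const (continuous_ip_left z), (ip_zero_left z).ge,
    fun x hx y hy => (add_nonneg hx hy).trans (ip_add_ge x y z),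
    fun r hr x hx => by
      show 0 ≤ ip _ z
      rw [ip_smul_left hr]
      exact mul_nonneg hr hx⟩

theorem par_add {c : Bs k n} {w : Fin n → ℝ} {x y : X k n} (hx : x ∈ Par c w)
    (hy : y ∈ Par c w) : add x y ∈ Par c w := by
  obtain ⟨d, v, u, h, rfl, rfl⟩ := common_par hx hy
  rw [add_mk]
  exact mk_mem_par h _

omit [API k n] in
theorem par_smul {c : Bs k n} {w : Fin n → ℝ} {x : X k n} {r : ℝ} (hr : 0 ≤ r)
    (hx : x ∈ Par c w) : smul r x ∈ Par c w := by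
  obtain ⟨d, v, h, rfl⟩ := hx
  rw [smul_mk _ _ hr]
  exact mk_mem_par h _

/-- Central elements are additive on the parallel set. -/
theorem ip_add_central {c : Bs k n} {w ψ : Fin n → ℝ} (hψ : Blk w ψ) {x y : X k n}
    (hx : x ∈ Par c w) (hy : y ∈ Par c w) :
    ip (add x (mk c ψ)) y = ip x y + ip (mk c ψ) y := by
  obtain ⟨d, v, u, h, rfl, rfl⟩ := common_par hx hy
  rw [← h ψ hψ, add_mk, ip_mk, ip_mk, ip_mk, add_dotProduct]

theorem ip_central_add {c : Bs k n} {w ψ : Fin n → ℝ} (hψ : Blk w ψ) {x y : X k n}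
    (hx : x ∈ Par c w) (hy : y ∈ Par c w) :
    ip (add x y) (mk c ψ) = ip x (mk c ψ) + ip y (mk c ψ) := by
  obtain ⟨d, v, u, h, rfl, rfl⟩ := common_par hx hy
  rw [← h ψ hψ, add_mk, ip_mk, ip_mk, ip_mk, add_dotProduct]

theorem ip_central_lin {c : Bs k n} {w ψ φ : Fin n → ℝ} (hψ : Blk w ψ) (hφ : Blk w φ)
    (s t : ℝ) {y : X k n} (hy : y ∈ Par c w) :
    ip (mk c (s • ψ + t • φ)) y = s * ip (mk c ψ) y + t * ip (mk c φ) y := by
  obtain ⟨d, u, h, rfl⟩ := hy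
  rw [← h ψ hψ, ← h φ hφ, ← h _ ((hψ.smul s).add (hφ.smul t)), ip_mk, ip_mk, ip_mk,
    add_dotProduct, smul_dotProduct, smul_dotProduct, smul_eq_mul, smul_eq_mul]

theorem ip_central_neg {c : Bs k n} {w ψ : Fin n → ℝ} (hψ : Blk w ψ) {y : X k n}
    (hy : y ∈ Par c w) : ip (mk c (-ψ)) y = -ip (mk c ψ) y := by
  obtain ⟨d, u, h, rfl⟩ := hy
  rw [← h ψ hψ, ← h _ hψ.neg, ip_mk, ip_mk, neg_dotProduct]

omit [API k n] in
theorem add_central_cancel {c : Bs k n} {w ψ : Fin n → ℝ} (hψ : Blk w ψ) {x : X k n}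
    (hx : x ∈ Par c w) : add (add (mk c ψ) x) (mk c (-ψ)) = x := by
  obtain ⟨d, u, h, rfl⟩ := hx
  rw [← h ψ hψ, ← h _ hψ.neg, add_mk, add_mk]
  congr 1
  abel

omit [API k n] in
theorem germ_unique {c : Bs k n} {w : Fin n → ℝ} {g g' : X k n} (hg : g ∈ Par c w)
    (hg' : g' ∈ Par c w) {ε : ℝ} (hε : 0 < ε)
    (h : add (mk c w) (smul ε g) = add (mk c w) (smul ε g')) : g = g' := by
  have h1 := add_central_cancel (Blk.refl w) (par_smul hε.le hg)
  rw [h, add_central_cancel (Blk.refl w) (par_smul hε.le hg')] at h1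
  have h2 := congrArg (smul ε⁻¹) h1
  rwa [smul_smul' (by positivity) hε.le, smul_smul' (by positivity) hε.le,
    inv_mul_cancel₀ hε.ne', one_smul', one_smul', eq_comm] at h2

omit [API k n] in
theorem gr_eq_of_germ {c : Bs k n} {w : Fin n → ℝ} {a g : X k n} (hg : g ∈ Par c w) {ε0 : ℝ}
    (h0 : 0 < ε0) (h : ∀ ε : ℝ, 0 < ε → ε ≤ ε0 →
      add (mk c w) (smul ε a) = add (mk c w) (smul ε g)) : gr c w a = g := by
  have hex : ∃ g ∈ Par c w, ∃ ε0 : ℝ, 0 < ε0 ∧ ∀ ε : ℝ, 0 < ε → ε ≤ ε0 →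
      add (mk c w) (smul ε a) = add (mk c w) (smul ε g) := ⟨g, hg, ε0, h0, h⟩
  unfold gr
  rw [dif_pos hex]
  obtain ⟨h1, ε1, h2, h3⟩ := hex.choose_spec
  refine germ_unique h1 hg (lt_min h0 h2) ?_
  rw [← h3 _ (lt_min h0 h2) (min_le_right _ _), h _ (lt_min h0 h2) (min_le_left _ _)]

omit [API k n] in
theorem gr_id {c : Bs k n} {w : Fin n → ℝ} {a : X k n} (ha : a ∈ Par c w) : gr c w a = a :=
  gr_eq_of_germ ha one_pos fun _ _ _ => rfl

/-- The description of `gr` on an apartment through `mk c w`. -/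
theorem gr_basis {c d : Bs k n} {w : Fin n → ℝ} (h : mk d w = mk c w) :
    ∃ d' : Bs k n, Apt c w d' ∧ (∀ α, gr c w (mk d α) = mk d' α) ∧
      ∀ φ, Compat w φ → mk d' φ = mk d φ := by
  obtain ⟨d', h1, h2⟩ := API.unip c d w h
  refine ⟨d', h1, fun α => ?_, h2⟩
  obtain ⟨ε0, h0, hs⟩ := exists_small w α
  refine gr_eq_of_germ (mk_mem_par h1 α) h0 fun ε hε hε' => ?_
  rw [smul_mk _ _ hε.le, smul_mk _ _ hε.le]
  conv_lhs => rw [← h]
  rw [← h1 w (Blk.refl w), add_mk, add_mk]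
  exact (h2 _ fun i j e => (hs ε (by rwa [abs_of_pos hε]) i j e).le).symm

theorem gr_type (c : Bs k n) (w : Fin n → ℝ) (a : X k n) :
    ∃ (d d' : Bs k n) (α : Fin n → ℝ), Apt c w d' ∧ mk d w = mk c w ∧ a = mk d α ∧
      gr c w a = mk d' α ∧ ∀ φ, Compat w φ → mk d' φ = mk d φ := by
  obtain ⟨d, α, h1, rfl⟩ := cb0 c w a
  obtain ⟨d', h2, h3, h4⟩ := gr_basis h1
  exact ⟨d, d', α, h2, h1, rfl, h3 α, h4⟩

theorem gr_mem (c : Bs k n) (w : Fin n → ℝ) (a : X k n) : gr c w a ∈ Par c w := by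
  obtain ⟨d, d', α, h, -, -, h', -⟩ := gr_type c w a
  exact ⟨d', α, h, h'⟩

theorem gr_germ (c : Bs k n) (w : Fin n → ℝ) (a : X k n) : ∃ ε0 : ℝ, 0 < ε0 ∧ ∀ ε : ℝ, 0 < ε →
    ε ≤ ε0 → add (mk c w) (smul ε a) = add (mk c w) (smul ε (gr c w a)) := by
  obtain ⟨d, d', α, h1, h2, rfl, h3, h4⟩ := gr_type c w a
  obtain ⟨ε0, h0, hs⟩ := exists_small w α
  refine ⟨ε0, h0, fun ε hε hε' => ?_⟩
  rw [h3, smul_mk _ _ hε.le, smul_mk _ _ hε.le]
  conv_lhs => rw [← h2]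
  rw [← h1 w (Blk.refl w), add_mk, add_mk]
  exact (h4 _ fun i j e => (hs ε (by rwa [abs_of_pos hε]) i j e).le).symm

theorem ip_gr_self (c : Bs k n) (w : Fin n → ℝ) (a : X k n) :
    ip (gr c w a) (gr c w a) = ip a a := by
  obtain ⟨d, d', α, -, -, rfl, h, -⟩ := gr_type c w a
  rw [h, ip_mk, ip_mk]

theorem deg_gr (c : Bs k n) (w : Fin n → ℝ) (a : X k n) : deg (gr c w a) = deg a := by
  obtain ⟨d, d', α, -, -, rfl, h, -⟩ := gr_type c w a
  rw [h, deg_mk, deg_mk]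

/-- Points in a common chamber with `mk c w` do not see the projection. -/
theorem ip_gr_compat {c d : Bs k n} {w φ : Fin n → ℝ} (hd : Apt c w d) (h : Compat w φ)
    (a : X k n) : ip (mk d φ) (gr c w a) = ip (mk d φ) a := by
  obtain ⟨e, α, h1, rfl⟩ := cb0 d (w + φ) a
  have h2 : mk e w = mk c w := (mk_comp h1 h.comono_add).trans (hd w (Blk.refl w))
  obtain ⟨e', -, h3, h4⟩ := gr_basis h2
  rw [h3, ← mk_comp h1 h.comono_add', ip_mk, ← h4 φ h, ip_mk]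

theorem ip_gr_base (c : Bs k n) (w : Fin n → ℝ) (a : X k n) :
    ip (mk c w) (gr c w a) = ip (mk c w) a :=
  ip_gr_compat (Apt.refl c w) (Compat.refl w) a

/-- First variation of the inner product. -/
theorem ip_germ {c : Bs k n} {w : Fin n → ℝ} {θ : X k n} (hθ : θ ∈ Par c w) :
    ∃ ε0 : ℝ, 0 < ε0 ∧ ∀ ε : ℝ, 0 < ε → ε ≤ ε0 → ∀ a,
      ip (add (mk c w) (smul ε θ)) a = ip (mk c w) a + ε * ip θ (gr c w a) := by
  obtain ⟨d, φ, hd, rfl⟩ := hθ
  obtain ⟨ε0, h0, hs⟩ := exists_small w φ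
  refine ⟨ε0, h0, fun ε hε hε' a => ?_⟩
  have h1 : Compat w (w + ε • φ) := fun i j e => (hs ε (by rwa [abs_of_pos hε]) i j e).le
  have h2 := ip_gr_compat hd h1 a
  have h3 := ip_add_central (Blk.refl w) (par_smul hε.le (mk_mem_par hd φ)) (gr_mem c w a)
  rw [add_comm', ip_smul_left hε.le, ip_gr_base] at h3
  have h4 : add (mk c w) (smul ε (mk d φ)) = mk d (w + ε • φ) := by
    rw [smul_mk _ _ hε.le, ← hd w (Blk.refl w), add_mk]
  rw [h4] at h3 ⊢
  rw [← h2, h3, add_comm]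

theorem ip_le_gr (c : Bs k n) (w : Fin n → ℝ) (x y : X k n) :
    ip x y ≤ ip (gr c w x) (gr c w y) := by
  obtain ⟨ε0, h0, h1⟩ := gr_germ c w x
  obtain ⟨ε1, h2, h3⟩ := ip_germ (gr_mem c w x)
  have hε := lt_min h0 h2
  have h4 := h3 _ hε (min_le_right _ _) y
  rw [← h1 _ hε (min_le_left _ _)] at h4
  have h5 := ip_add_ge (mk c w) (smul (min ε0 ε1) x) y
  rw [h4, ip_smul_left hε.le] at h5
  exact le_of_mul_le_mul_left (by linarith) hε

theorem dist_gr_le (c : Bs k n) (w : Fin n → ℝ) (x y : X k n) :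
    Dist.dist (gr c w x) (gr c w y) ≤ Dist.dist x y := by
  refine Real.sqrt_le_sqrt ?_
  unfold d2
  rw [ip_gr_self, ip_gr_self]
  linarith [ip_le_gr c w x y]

theorem cone_par (c : Bs k n) (w : Fin n → ℝ) : Cone (Par c w) := by
  refine ⟨?_, by rw [← mk_zero c]; exact mk_mem_par (Apt.refl c w) _,
    fun x hx y hy => par_add hx hy, fun r hr x hx => par_smul hr hx⟩
  have h1 : Par c w = {x | gr c w x = x} :=
    Set.ext fun x => ⟨fun h => gr_id h, fun h => (show gr c w x = x from h) ▸ gr_mem c w x⟩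
  have h2 : Continuous (gr c w) :=
    (LipschitzWith.of_dist_le_mul (K := 1) fun x y => by simpa using dist_gr_le c w x y).continuous
  rw [h1]
  exact isClosed_eq h2 continuous_id

/-- A cone containing the line through `mk c w` is stable under the projection. -/
theorem cone_gr_mem {K : Set (X k n)} (hK : Cone K) {c : Bs k n} {w : Fin n → ℝ}
    (h1 : mk c w ∈ K) (h2 : mk c (-w) ∈ K) {a : X k n} (ha : a ∈ K) : gr c w a ∈ K := by
  obtain ⟨ε, h0, h⟩ := gr_germ c w a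
  have h3 := hK.add_mem _ (hK.add_mem _ h1 _ (hK.smul_mem ε h0.le a ha)) _ h2
  rw [h ε h0 le_rfl, add_central_cancel (Blk.refl w) (par_smul h0.le (gr_mem c w a))] at h3
  have h4 := hK.smul_mem ε⁻¹ (by positivity) _ h3
  rwa [smul_smul' (by positivity) h0.le, inv_mul_cancel₀ h0.ne', one_smul'] at h4

/-- Projecting first to a face does not change the projection. -/
theorem gr_gr {c c1 : Bs k n} {ξ w : Fin n → ℝ} (h1 : mk c1 w = mk c w) (h2 : Comono ξ w)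
    (a : X k n) : gr c ξ (gr c1 w a) = gr c ξ a := by
  obtain ⟨d, α, h3, rfl⟩ := cb0 c ξ a
  obtain ⟨d', -, h4, h5⟩ := gr_basis ((mk_comp h3 h2).trans h1.symm)
  obtain ⟨ε0, h0, hs⟩ := gr_germ c ξ (mk d α)
  obtain ⟨ε1, h6, h7⟩ := exists_small ξ α
  refine gr_eq_of_germ (gr_mem c ξ _) (lt_min h0 h6) fun ε hε hε' => ?_
  rw [← hs ε hε (hε'.trans (min_le_left _ _)), h4, smul_mk _ _ hε.le, smul_mk _ _ hε.le, ← h3,
    add_mk, ← h5 ξ h2.compat', add_mk]
  refine h5 _ fun i j e => ?_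
  have : ξ i < ξ j := lt_of_not_ge fun h => absurd (h2 j i h) (not_le.2 e)
  exact (h7 ε (by rw [abs_of_pos hε]; exact hε'.trans (min_le_right _ _)) i j this).le

/-- Inside a parallel set, central elements do not see finer projections. -/
theorem ip_gr_central {c : Bs k n} {w w' ψ : Fin n → ℝ} (hb : Blk w' w) (hψ : Blk w ψ)
    {a : X k n} (ha : a ∈ Par c w) : ip (mk c ψ) (gr c w' a) = ip (mk c ψ) a := by
  obtain ⟨d, α, h0, h1, rfl⟩ := API.cb c c w w' a (Apt.refl c w) ha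
  obtain ⟨d', h2, h3, -⟩ := gr_basis h1
  rw [h3]
  conv_lhs => rw [← h2 ψ (hb.trans hψ)]
  rw [← h0 ψ hψ, ip_mk, ip_mk]

/-- First variation at `mk c ξ` inside `Par c w`, through the common refinement `ξ + t • w`. -/
theorem ip_germ_rel {c : Bs k n} {w ξ : Fin n → ℝ} {t : ℝ} (hb : Blk (ξ + t • w) w)
    {θ : X k n} (hθ : θ ∈ Par c (ξ + t • w)) :
    (∀ a ∈ Par c w, ip (mk c ξ) (gr c (ξ + t • w) a) = ip (mk c ξ) a) ∧
    ∃ ε0 : ℝ, 0 < ε0 ∧ ∀ ε : ℝ, 0 < ε → ε ≤ ε0 → ∀ a ∈ Par c w,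
      ip (add (mk c ξ) (smul ε θ)) a = ip (mk c ξ) a + ε * ip θ (gr c (ξ + t • w) a) := by
  have hc := Apt.refl c w
  have key : ∀ x ∈ Par c w, ∀ a ∈ Par c w,
      ip (add x (mk c (t • w))) a = ip x a + ip (mk c (t • w)) a :=
    fun x hx a ha => ip_add_central ((Blk.refl w).smul t) hx ha
  constructor
  · intro a ha
    have h1 := key _ (mk_mem_par hc ξ) a ha
    have h2 := key _ (mk_mem_par hc ξ) _ (par_mono hb (gr_mem c _ a))
    rw [add_mk] at h1 h2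
    rw [ip_gr_base, ip_gr_central hb ((Blk.refl w).smul t) ha] at h2
    linarith
  · obtain ⟨ε0, h0, h⟩ := ip_germ hθ
    refine ⟨ε0, h0, fun ε hε hε' a ha => ?_⟩
    have h1 := key _ (mk_mem_par hc ξ) a ha
    have h2 := key _ (par_add (mk_mem_par hc ξ) (par_smul hε.le (par_mono hb hθ))) a ha
    have h3 := h ε hε hε' a
    have h4 : add (add (mk c ξ) (smul ε θ)) (mk c (t • w)) = add (mk c (ξ + t • w)) (smul ε θ) := by
      obtain ⟨d, φ, hd, rfl⟩ := hθ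
      have hw : Blk (ξ + t • w) (t • w) := hb.smul t
      have hξ : Blk (ξ + t • w) ξ := by
        have := (Blk.refl (ξ + t • w)).add hw.neg
        rwa [add_neg_cancel_right] at this
      rw [← hd ξ hξ, ← hd _ hw, ← hd _ (Blk.refl _), smul_mk _ _ hε.le, add_mk, add_mk, add_mk,
        add_right_comm]
    rw [add_mk] at h1
    rw [h4, h3, h1] at h2
    linarith

omit [API k n] in
/-- A large multiple of `w` makes the order lexicographic. -/
theorem exists_large (w ξ : Fin n → ℝ) : ∃ t : ℝ, 0 < t ∧ Comono (ξ + t • w) w := by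
  obtain ⟨ε, h0, h⟩ := exists_small w ξ
  refine ⟨ε⁻¹, by positivity, comono_of_lt fun i j e => ?_⟩
  have h1 := h ε (by rw [abs_of_pos h0]) i j e
  have h2 := mul_lt_mul_of_pos_left h1 (inv_pos.2 h0)
  simp only [Pi.add_apply, Pi.smul_apply, smul_eq_mul, mul_add,
    inv_mul_cancel_left₀ h0.ne'] at h2 ⊢
  linarith

theorem Top.gr {K D : Set (X k n)} (h : Top K) (c : Bs k n) (w : Fin n → ℝ)
    (hD : ∀ a ∈ K, gr c w a ∈ D) : ∃ (d : Bs k n) (v : Fin n → ℝ), Apt c w d ∧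
      ∀ ψ : Fin n → ℝ, ∑ i, ψ i = 0 →
        (∀ φ, Comono v φ → mk d φ ∈ D → φ ⬝ᵥ ψ = 0) → ψ = 0 := by
  obtain ⟨b, v, hb⟩ := h
  obtain ⟨d, u, h1, h2⟩ := cb0 c w (mk b v)
  obtain ⟨σ, rfl⟩ := API.typ _ _ _ _ h2
  obtain ⟨d', h3, h4, -⟩ := gr_basis h1
  refine ⟨d', v ∘ σ, h3, fun ψ hψ hφ => ?_⟩
  have h5 := hb (ψ ∘ σ.symm) (by simpa using (Equiv.sum_comp σ.symm ψ).trans hψ) fun φ e1 e2 => by
    have e3 : Comono (v ∘ σ) (φ ∘ σ) := fun i j e => e1 _ _ e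
    have e4 : mk d (φ ∘ σ) = mk b φ := by
      rw [mk_comp (h2.symm.trans (mk_reidx b v σ).symm) e3, mk_reidx]
    have e5 := hφ _ e3 (by rw [← h4, e4]; exact hD _ e2)
    rw [← e5, ← comp_equiv_dotProduct_comp_equiv φ _ σ]
    congr 1
    funext i
    simp
  funext i
  simpa using congrFun h5 (σ i)

theorem Top.gr' {K D : Set (X k n)} (h : Top K) (c : Bs k n) (w : Fin n → ℝ)
    (hD : ∀ a ∈ K, SL.gr c w a ∈ D) : Top D := by
  obtain ⟨d, v, -, h'⟩ := h.gr c w hD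
  exact ⟨d, v, h'⟩

theorem finT_of {A : Set (X k n)} (Λ : Finset ℝ)
    (h : ∀ a ∈ A, ∃ (b : Bs k n) (α : Fin n → ℝ), a = mk b α ∧ ∀ i, α i ∈ Λ) : FinT A := by
  refine ⟨Λ, fun a ha d β e i => ?_⟩
  obtain ⟨b, α, rfl, h'⟩ := h a ha
  obtain ⟨σ, rfl⟩ := API.typ _ _ _ _ e
  exact h' _

omit [API k n] in
theorem FinT.mono {A B : Set (X k n)} (h : FinT B) (hs : A ⊆ B) : FinT A := by
  obtain ⟨Λ, h⟩ := h
  exact ⟨Λ, fun a ha => h a (hs ha)⟩

omit [API k n] in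
theorem FinT.union {A B : Set (X k n)} (h : FinT A) (h' : FinT B) : FinT (A ∪ B) := by
  classical
  obtain ⟨Λ, h⟩ := h
  obtain ⟨Λ', h'⟩ := h'
  refine ⟨Λ ∪ Λ', fun a ha b α e i => Finset.mem_union.2 ?_⟩
  exact ha.imp (fun ha => h a ha b α e i) fun ha => h' a ha b α e i

theorem finT_singleton (a : X k n) : FinT {a} := by
  classical
  obtain ⟨b, α, rfl⟩ := exists_mk a
  refine finT_of (Finset.univ.image α) ?_
  rintro _ rfl
  exact ⟨b, α, rfl, fun i => Finset.mem_image_of_mem _ (Finset.mem_univ i)⟩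

theorem FinT.insert {A : Set (X k n)} (h : FinT A) (a : X k n) : FinT (insert a A) :=
  (finT_singleton a).union h

theorem finT_finite {A : Set (X k n)} (h : A.Finite) : FinT A := by
  induction A, h using Set.Finite.induction_on with
  | empty => exact ⟨∅, fun _ h => h.elim⟩
  | insert _ _ ih => exact ih.insert _

theorem FinT.gr {A : Set (X k n)} (h : FinT A) (c : Bs k n) (w : Fin n → ℝ) :
    FinT (gr c w '' A) := by
  obtain ⟨Λ, h⟩ := h
  refine finT_of Λ ?_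
  rintro _ ⟨a, ha, rfl⟩
  obtain ⟨d, d', α, -, -, e, e', -⟩ := gr_type c w a
  exact ⟨d', α, e', h a ha d α e⟩

theorem FinT.add {A B : Set (X k n)} (h : FinT A) (h' : FinT B) :
    FinT {x | ∃ a ∈ A, ∃ b ∈ B, x = add a b} := by
  classical
  obtain ⟨Λ, h⟩ := h
  obtain ⟨Λ', h'⟩ := h'
  refine finT_of (Finset.image₂ (· + ·) Λ Λ') ?_
  rintro _ ⟨a, ha, b, hb, rfl⟩
  obtain ⟨d, v, u, rfl, rfl⟩ := common a b
  exact ⟨d, v + u, add_mk _ _ _, fun i =>
    Finset.mem_image₂_of_mem (h _ ha d v rfl i) (h' _ hb d u rfl i)⟩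

theorem FinT.smul {A : Set (X k n)} (h : FinT A) {r : ℝ} (hr : 0 ≤ r) : FinT (smul r '' A) := by
  classical
  obtain ⟨Λ, h⟩ := h
  refine finT_of (Λ.image (r * ·)) ?_
  rintro _ ⟨a, ha, rfl⟩
  obtain ⟨d, v, rfl⟩ := exists_mk a
  exact ⟨d, r • v, smul_mk _ _ hr, fun i => Finset.mem_image_of_mem _ (h _ ha d v rfl i)⟩

/-- Two families of finite type have finitely many inner products. -/
theorem FinT.finite_ip {A B : Set (X k n)} (h : FinT A) (h' : FinT B) :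
    {r | ∃ a ∈ A, ∃ b ∈ B, r = ip a b}.Finite := by
  classical
  obtain ⟨Λ, h⟩ := h
  obtain ⟨Λ', h'⟩ := h'
  refine (Finset.image₂ (· ⬝ᵥ ·) (Fintype.piFinset fun _ : Fin n => Λ)
    (Fintype.piFinset fun _ : Fin n => Λ')).finite_toSet.subset ?_
  rintro _ ⟨a, ha, b, hb, rfl⟩
  obtain ⟨d, v, u, rfl, rfl⟩ := common a b
  rw [ip_mk]
  exact Finset.mem_coe.2 (Finset.mem_image₂_of_mem (Fintype.mem_piFinset.2 (h _ ha d v rfl))
    (Fintype.mem_piFinset.2 (h' _ hb d u rfl)))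

omit [API k n] in
/-- A finite set of reals has a gap above every number. -/
theorem exists_gap {S : Set ℝ} (h : S.Finite) (m : ℝ) :
    ∃ δ : ℝ, 0 < δ ∧ ∀ r ∈ S, (m < r → m + δ ≤ r) ∧ (r < m → r ≤ m - δ) := by
  induction S, h using Set.Finite.induction_on with
  | empty => exact ⟨1, one_pos, fun _ h => h.elim⟩
  | @insert a s _ _ ih =>
    obtain ⟨δ, h0, h⟩ := ih
    by_cases ha : a = m
    · refine ⟨δ, h0, ?_⟩
      rintro r (rfl | hr)
      · exact ⟨fun e => absurd ha e.ne', fun e => absurd ha e.ne⟩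
      · exact h r hr
    · refine ⟨min δ |a - m|, lt_min h0 (abs_pos.2 (sub_ne_zero.2 ha)), ?_⟩
      have h1 := min_le_left δ |a - m|
      have h2 := min_le_right δ |a - m|
      rintro r (rfl | hr)
      · refine ⟨fun e => ?_, fun e => ?_⟩
        · rw [abs_of_pos (sub_pos.2 e)] at h2 ⊢
          linarith
        · rw [abs_of_neg (sub_neg.2 e)] at h2 ⊢
          linarith
      · exact ⟨fun e => by linarith [(h r hr).1 e], fun e => by linarith [(h r hr).2 e]⟩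

theorem FinT.gap {A : Set (X k n)} (h : FinT A) (y : X k n) (m : ℝ) :
    ∃ δ : ℝ, 0 < δ ∧ ∀ a ∈ A, (m < ip y a → m + δ ≤ ip y a) ∧ (ip y a < m → ip y a ≤ m - δ) := by
  obtain ⟨δ, h0, h1⟩ := exists_gap ((finT_singleton y).finite_ip h) m
  exact ⟨δ, h0, fun a ha => h1 _ ⟨y, rfl, a, ha, rfl⟩⟩

theorem FinT.bdd {A : Set (X k n)} (h : FinT A) : ∃ R : ℝ, 0 < R ∧ ∀ a ∈ A, √(ip a a) ≤ R := by
  obtain ⟨M, hM⟩ := (h.finite_ip h).bddAbove
  exact ⟨√M + 1, by positivity, fun a ha =>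
    (Real.sqrt_le_sqrt (hM ⟨a, ha, a, ha, rfl⟩)).trans (by linarith)⟩

/-- A family of finite type is uniformly discrete. -/
theorem FinT.discrete {A : Set (X k n)} (h : FinT A) :
    ∃ δ : ℝ, 0 < δ ∧ ∀ a ∈ A, ∀ b ∈ A, Dist.dist a b < δ → a = b := by
  have hf := h.finite_ip h
  have h1 : {r | ∃ a ∈ A, ∃ b ∈ A, r = Dist.dist a b}.Finite := by
    refine (((hf.prod hf).prod hf).image
      (fun p : (ℝ × ℝ) × ℝ => √(p.1.1 - 2 * p.1.2 + p.2))).subset ?_
    rintro _ ⟨a, ha, b, hb, rfl⟩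
    exact ⟨((ip a a, ip a b), ip b b),
      ⟨⟨⟨a, ha, a, ha, rfl⟩, ⟨a, ha, b, hb, rfl⟩⟩, ⟨b, hb, b, hb, rfl⟩⟩, rfl⟩
  obtain ⟨δ, h0, h2⟩ := exists_gap h1 0
  refine ⟨δ, h0, fun a ha b hb e => ?_⟩
  by_contra hne
  linarith [(h2 _ ⟨a, ha, b, hb, rfl⟩).1 (dist_pos.2 hne)]

end Pool.Agent.P.MP_8ecd01_al.SL
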