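import Pool.Agent.P.MP_8ecd01_al.SL.Tools

/-!
The statements of the steps of the proof for top-dimensional subsets of the building of `SL_n`.
-/

namespace Pool.Agent.P.MP_8ecd01_al.SL

open Matrix Module

-- deps:
def S_CB : Prop := ∀ (k : Type) [Field k] (n : ℕ), A_CB k n

-- deps:
def S_TYP : Prop := ∀ (k : Type) [Field k] (n : ℕ), A_TYP k n

open Classical in
-- deps:
def S_LC : Prop := ∀ (n : ℕ) (φ ζ φ' ζ' : Fin n → ℝ),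
  (∀ s t : ℝ, (Finset.univ.filter fun i => s ≤ φ' i ∧ t ≤ ζ' i).card ≤
    (Finset.univ.filter fun i => s ≤ φ i ∧ t ≤ ζ i).card) →
  ∑ i, φ' i = ∑ i, φ i → ∑ i, ζ' i = ∑ i, ζ i → φ' ⬝ᵥ ζ' ≤ φ ⬝ᵥ ζ

-- deps: LC TYP
def S_IP : Prop := ∀ (k : Type) [Field k] (n : ℕ), A_IP k n

-- deps: CB TYP LC IP
def S_RET : Prop := ∀ (k : Type) [Field k] (n : ℕ), A_RET k n

-- deps:
def S_UNIP : Prop := ∀ (k : Type) [Field k] (n : ℕ), A_UNIP k n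

-- deps:
def S_CPL : Prop := ∀ (k : Type) [Field k] (n : ℕ) [API k n], CompleteSpace (X k n)

-- deps: CPL
def S_PROJ : Prop := ∀ (k : Type) [Field k] (n : ℕ) [API k n] (H : Set (X k n)) (v : X k n),
  _root_.IsClosed H → Cvx H → H.Nonempty → ∃ p ∈ H, ∀ h ∈ H, d2 v p + d2 p h ≤ d2 v h

-- deps: PROJ
def S_PC : Prop := ∀ (k : Type) [Field k] (n : ℕ) [API k n] (K : Set (X k n)) (v : X k n),
  Cone K → ∃ p ∈ K, (∀ h ∈ K, d2 v p + d2 p h ≤ d2 v h) ∧ (∀ a ∈ K, ip v a ≤ ip p a) ∧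
    ip v p = ip p p

-- deps: PROJ PC
def S_UP : Prop := ∀ (k : Type) [Field k] (n : ℕ) [API k n] (K A : Set (X k n))
  (κ : X k n → ℝ) (z : X k n), Cone K → A ⊆ K → z ∈ K → (∃ y, ∀ a ∈ A, κ a ≤ ip y a) →
  ∃ p ∈ K, (∀ a ∈ A, κ a ≤ ip p a) ∧
    ∀ y, (∀ a ∈ A, κ a ≤ ip y a) → d2 z p + d2 p y ≤ d2 z y

-- deps: UP
def S_BND : Prop := ∀ (k : Type) [Field k] (n : ℕ) [API k n] (K A : Set (X k n)),
  Cone K → A ⊆ K → FinT A → Wide K A → ∃ R : ℝ, ∀ y ∈ K, y ∈ Lev A → ip y y ≤ R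

-- deps:
def S_FOOT : Prop := ∀ (k : Type) [Field k] (n : ℕ) [API k n] (A : Set (X k n)), FinT A →
  ∃ O : Set (X k n), FinT O ∧ ∀ z q : X k n, q ∈ Lev A →
    (∀ y ∈ Lev A, d2 (smul 2 z) q ≤ d2 (smul 2 z) y) →
    ∃ o ∈ O, Dist.dist q o ≤ 2 * Dist.dist z q

-- deps: UP BND FOOT
def S_MAX : Prop := ∀ (k : Type) [Field k] (n : ℕ) [API k n] (K A : Set (X k n)),
  Cone K → A ⊆ K → FinT A → Wide K A →
  ∃ x ∈ K, x ∈ Lev A ∧ ∀ y ∈ K, y ∈ Lev A → ip y y ≤ ip x x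

-- deps: UP
def S_LINK : Prop := ∀ (k : Type) [Field k] (n : ℕ) [API k n] (K A : Set (X k n)) (c : Bs k n)
  (w ξ : Fin n → ℝ) (t : ℝ), Cone K → K ⊆ X0 k n → K ⊆ Par c w → mk c w ∈ K → mk c (-w) ∈ K →
  A ⊆ K → 0 ≤ t → Blk (ξ + t • w) w → mk c ξ ∈ K → mk c ξ ∈ Lev A →
  (∀ y ∈ K, y ∈ Lev A → ip y y ≤ ip (mk c ξ) (mk c ξ)) →
  ∃ D : Set (X k n), Cone D ∧ D ⊆ X0 k n ∧ D ⊆ Par c (ξ + t • w) ∧
    (∀ a ∈ K, gr c (ξ + t • w) a ∈ D) ∧ Wide D (gr c (ξ + t • w) '' insert (mk c ξ) A)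

-- deps: PC
def S_CEN : Prop := ∀ (k : Type) [Field k] (n : ℕ) [API k n] (D : Set (X k n)) (c : Bs k n)
  (w ψ : Fin n → ℝ), Cone D → D ⊆ X0 k n → D ⊆ Par c w → Top D → Wide D D → Blk w ψ →
  ∑ i, ψ i = 0 → mk c ψ ∈ D

-- deps: PC
def S_SIMP : Prop := ∀ (k : Type) [Field k] (n : ℕ) [API k n] (K D B : Set (X k n)) (c : Bs k n)
  (ξ υ : Fin n → ℝ), Cone K → Cone D → D ⊆ Par c ξ → (∀ a ∈ K, gr c ξ a ∈ D) → B ⊆ K →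
  Wide D (gr c ξ '' B) → Comono ξ υ → mk c (-υ) ∈ D → mk c υ ∈ K

-- deps: CEN MAX
def S_NONC : Prop := ∀ (k : Type) [Field k] (n : ℕ) [API k n] (K A : Set (X k n)) (c : Bs k n)
  (w : Fin n → ℝ) (p : X k n), Cone K → K ⊆ X0 k n → Top K → mk c w ∈ K → mk c (-w) ∈ K →
  A ⊆ K ∩ Par c w → FinT A → Wide (K ∩ Par c w) A → p ∈ K → ¬ Ant K p →
  ∃ (A' : Set (X k n)) (d : Bs k n) (ξ : Fin n → ℝ), A' ⊆ K ∩ Par c w ∧ FinT A' ∧ Apt c w d ∧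
    ¬ Blk w ξ ∧ mk d ξ ∈ K ∧ mk d ξ ∈ Lev A' ∧
    ∀ y ∈ K ∩ Par c w, y ∈ Lev A' → ip y y ≤ ip (mk d ξ) (mk d ξ)

-- deps: NONC LINK CEN SIMP
def S_STEP : Prop := ∀ (k : Type) [Field k] (n : ℕ) [API k n] (K A : Set (X k n)) (c : Bs k n)
  (w : Fin n → ℝ) (p : X k n), Cone K → K ⊆ X0 k n → Top K → mk c w ∈ K → mk c (-w) ∈ K →
  A ⊆ K ∩ Par c w → FinT A → Wide (K ∩ Par c w) A → p ∈ K → ¬ Ant K p →
  ∃ (B : Set (X k n)) (d : Bs k n) (S : Finset (Fin n)) (ξ : Fin n → ℝ), B ⊆ K ∧ FinT B ∧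
    Apt c w d ∧ Compat w (ind S) ∧ ¬ Blk w (ind S) ∧ mk d (ind S) ∈ K ∧ Comono ξ (w + ind S) ∧
    ∀ y ∈ K ∩ Par c w, (∀ a ∈ B, 0 ≤ ip (gr d ξ y) (gr d ξ a)) → y = zero

-- deps:
def S_VTX : Prop := ∀ (k : Type) [Field k] (n : ℕ) [API k n],
  (∀ (b : Bs k n) (S : Finset (Fin n)),
    vtx (Submodule.span k (b '' (S : Set (Fin n)))) = mk b (ind S)) ∧
  (∀ U U' : Submodule k (Fin n → k), ∃ (b : Bs k n) (S S' : Finset (Fin n)),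
    U = Submodule.span k (b '' (S : Set (Fin n))) ∧
      U' = Submodule.span k (b '' (S' : Set (Fin n)))) ∧
  (∀ U U' : Submodule k (Fin n → k), ip (vtx U) (vtx U') =
    (finrank k (U ⊓ U' : Submodule k (Fin n → k)) : ℝ) -
      (finrank k U : ℝ) * (finrank k U' : ℝ) / n) ∧
  (∀ U U' : Submodule k (Fin n → k), add (vtx U) (vtx U') = add (vtx (U ⊓ U')) (vtx (U ⊔ U'))) ∧
  (vtx (⊥ : Submodule k (Fin n → k)) = zero ∧ vtx (⊤ : Submodule k (Fin n → k)) = zero) ∧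
  (∀ (U U' : Submodule k (Fin n → k)) (z : X k n), U ≤ U' →
    ip (add (vtx U) (vtx U')) z = ip (vtx U) z + ip (vtx U') z) ∧
  (∀ U : Submodule k (Fin n → k), vtx U ∈ X0 k n) ∧
  FinT (Set.range (vtx : Submodule k (Fin n → k) → X k n))

-- deps: STEP VTX
def S_NV : Prop := ∀ (k : Type) [Field k] (n : ℕ) [API k n] (K A : Set (X k n)) (p : X k n),
  Cone K → K ⊆ X0 k n → Top K → A ⊆ K → FinT A → Wide K A → p ∈ K → ¬ Ant K p →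
  ∃ U : Submodule k (Fin n → k), vtx U ∈ K ∧ ¬ Ant K (vtx U)

-- deps:
def S_IDEAL : Prop := ∀ (k : Type) [Field k] (n : ℕ) [API k n] (K : Set (X k n)) (p a : X k n),
  Cone K → p ∈ K → a ∈ K → Ant K (add p a) → Ant K p

-- deps: MAX
def S_JMIN : Prop := ∀ (k : Type) [Field k] (n : ℕ) [API k n] (K A : Set (X k n)),
  Cone K → A ⊆ K → FinT A → (∃ y ∈ K, y ≠ zero) → (∀ y ∈ K, ∃ a ∈ A, ip y a ≤ 0) →
  ∃ x ∈ K, ∃ m : ℝ, 0 ≤ m ∧ ip x x = 1 ∧ (∀ a ∈ A, -m ≤ ip x a) ∧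
    ∀ y ∈ K, ∃ a ∈ A, ip y a ≤ -m * √(ip y y)

-- deps:
def S_JSTEP : Prop := ∀ (k : Type) [Field k] (n : ℕ) [API k n] (c : Bs k n) (w : Fin n → ℝ)
  (W : Submodule ℝ (Fin n → ℝ)) (A : Set (X k n)) (x : X k n) (m : ℝ), (∀ ψ ∈ W, Blk w ψ) →
  A ⊆ KW c w W → FinT A → x ∈ KW c w W → ip x x = 1 → 0 ≤ m → (∀ a ∈ A, -m ≤ ip x a) →
  (∀ y ∈ KW c w W, ∃ a ∈ A, ip y a ≤ -m * √(ip y y)) →
  ∃ (c' : Bs k n) (w' : Fin n → ℝ) (W' : Submodule ℝ (Fin n → ℝ)) (pr : X k n → X k n),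
    (∀ ψ ∈ W', Blk w' ψ) ∧ finrank ℝ W' = finrank ℝ W + 1 ∧
    pr '' {a | a ∈ A ∧ ip x a = -m} ⊆ KW c' w' W' ∧ FinT (pr '' {a | a ∈ A ∧ ip x a = -m}) ∧
    (∀ a ∈ A, ip x a = -m → ip (pr a) (pr a) = ip a a - m ^ 2) ∧
    (∀ a ∈ A, ∀ a' ∈ A, ip x a = -m → ip x a' = -m → ip a a' - m ^ 2 ≤ ip (pr a) (pr a')) ∧
    (∀ η ∈ KW c' w' W', ∃ a ∈ A, ip x a = -m ∧ ip η (pr a) ≤ 0) ∧
    ∀ y ∈ KW c w W, ∃ η ∈ KW c' w' W', ∀ a ∈ A, ip x a = -m →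
      ip y a ≤ ip η (pr a) - m * ip y x

-- deps: JMIN JSTEP
def S_JUNG : Prop := ∀ (k : Type) [Field k] (n : ℕ) [API k n] (D : ℕ) (c : Bs k n)
  (w : Fin n → ℝ) (W : Submodule ℝ (Fin n → ℝ)) (A : Set (X k n)) (ρ : ℝ),
  (∀ ψ ∈ W, Blk w ψ) → finrank ℝ W + D = n → A ⊆ KW c w W → FinT A → 0 < ρ →
  (∀ a ∈ A, ip a a = ρ) → (∀ a ∈ A, ∀ a' ∈ A, -ρ ≤ (D : ℝ) * ip a a') →
  (∀ y ∈ KW c w W, ∃ a ∈ A, ip y a ≤ 0) → ∀ a0 ∈ A, ∃ l : Fin D → X k n, (∀ i, l i ∈ A) ∧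
    ∀ y ∈ KW c w W, ip y a0 + ∑ i, ip y (l i) ≤ 0

-- deps: JUNG
def S_JANT : Prop := ∀ (k : Type) [Field k] (n : ℕ) [API k n] (K A : Set (X k n)) (ρ : ℝ),
  Cone K → K ⊆ X0 k n → A ⊆ K → FinT A → 0 < ρ → (∀ a ∈ A, ip a a = ρ) →
  (∀ a ∈ A, ∀ a' ∈ A, -ρ ≤ ((n : ℝ) - 1) * ip a a') → (∀ y, ∃ a ∈ A, ip y a ≤ 0) →
  ∀ a0 ∈ A, Ant K a0

-- deps:
def S_SYM : Prop := ∀ (k : Type) [Field k] (n : ℕ) [API k n] (G : Set (X k n → X k n))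
  (K : Set (X k n)), Sym G K → ∀ g ∈ G, g zero = zero ∧
    (∀ x ∈ X0 k n, ∀ y ∈ X0 k n, g (add x y) = add (g x) (g y)) ∧
    (∀ r : ℝ, 0 ≤ r → ∀ x ∈ X0 k n, g (smul r x) = smul r (g x)) ∧
    (∀ x ∈ X0 k n, ∀ y ∈ X0 k n, Dist.dist (g x) (g y) = Dist.dist x y) ∧
    (K ⊆ X0 k n → ∀ p ∈ X0 k n, Ant K (g p) → Ant K p) ∧
    ∀ L : Set (X k n), Cone L → Cone {y | y ∈ X0 k n ∧ g y ∈ L}

-- deps: SYM VTX
def S_ORB : Prop := ∀ (k : Type) [Field k] (n : ℕ) [API k n] (G : Set (X k n → X k n))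
  (K : Set (X k n)), Sym G K → ∀ p ∈ X0 k n, FinT {x | ∃ g ∈ G, x = g p}

-- deps: PROJ PC
def S_FIX : Prop := ∀ (k : Type) [Field k] (n : ℕ) [API k n] (G : Set (X k n → X k n))
  (K A : Set (X k n)), Cone K → K ⊆ X0 k n → Sym G K → A ⊆ K → FinT A → A.Nonempty →
  (∀ g ∈ G, ∀ a ∈ A, g a ∈ A) → (∃ y, ∀ a ∈ A, 0 < ip y a) →
  ∃ c ∈ K, c ≠ zero ∧ ∀ g ∈ G, g c = c

-- deps: VTX IDEAL
def S_ROOT : Prop := ∀ (k : Type) [Field k] (n : ℕ) [API k n] (K : Set (X k n)),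
  Cone K → ∃ y, ∀ r ∈ Rt K, 0 < ip y r

-- deps: VTX SYM
def S_RINV : Prop := ∀ (k : Type) [Field k] (n : ℕ) [API k n] (G : Set (X k n → X k n))
  (K : Set (X k n)), 3 ≤ n → K ⊆ X0 k n → Sym G K →
  FinT (Rt K) ∧ ∀ g ∈ G, ∀ r ∈ Rt K, g r ∈ Rt K

-- deps:
def S_COMB : Prop := ∀ (k : Type) [Field k] (n : ℕ) (N : Set (Submodule k (Fin n → k))), n ≤ 8 →
  (∀ U ∈ N, 0 < finrank k U ∧ finrank k U < n) →
  (∀ U ∈ N, ∀ U' ∈ N, ¬ (U ⊓ U' = ⊥ ∧ U ⊔ U' = ⊤)) →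
  (∀ U ∈ N, ∀ U' ∈ N, U ⊓ U' = ⊥ → U ⊔ U' ∈ N) →
  (∀ U ∈ N, ∀ U' ∈ N, U ⊔ U' = ⊤ → U ⊓ U' ∈ N) →
  (3 ≤ n → ∀ U ∈ N, ∀ U' ∈ N, ¬ (finrank k (U ⊓ U' : Submodule k (Fin n → k)) = 1 ∧
    finrank k (U ⊔ U' : Submodule k (Fin n → k)) + 1 = n)) →
  (∀ U0 ∈ N, ∀ W : Submodule k (Fin n → k), ∃ U ∈ N,
    (finrank k U = finrank k U0 ∨ finrank k U + finrank k U0 = n) ∧
    n * finrank k (W ⊓ U : Submodule k (Fin n → k)) ≤ finrank k W * finrank k U) →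
  (∀ U0 ∈ N, ∃ U ∈ N, ∃ U' ∈ N, (finrank k U = finrank k U0 ∨ finrank k U + finrank k U0 = n) ∧
    (finrank k U' = finrank k U0 ∨ finrank k U' + finrank k U0 = n) ∧
    (n - 1) * n * finrank k (U ⊓ U' : Submodule k (Fin n → k)) +
      finrank k U0 * (n - finrank k U0) < (n - 1) * finrank k U * finrank k U') →
  N = ∅

-- deps: VTX SYM FIX JANT IDEAL ROOT RINV COMB
def S_FORB : Prop := ∀ (k : Type) [Field k] (n : ℕ) [API k n] (G : Set (X k n → X k n))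
  (K : Set (X k n)), n ≤ 8 → Cone K → K ⊆ X0 k n → Sym G K →
  (¬ ∃ c ∈ K, c ≠ zero ∧ ∀ g ∈ G, g c = c) →
  ∀ U : Submodule k (Fin n → k), vtx U ∈ K → Ant K (vtx U)

-- deps: SYM ORB FIX JANT NV FORB
def S_MAIN : Prop := ∀ (k : Type) [Field k] (n : ℕ) [API k n] (G : Set (X k n → X k n))
  (K F : Set (X k n)) (p : X k n), n ≤ 8 → Cone K → K ⊆ X0 k n → Sym G K → F.Finite → F ⊆ K →
  Top F → p ∈ K → ¬ Ant K p → ∃ c ∈ K, c ≠ zero ∧ ∀ g ∈ G, g c = c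

-- deps:
def S_TRA : Prop := ∀ (k : Type) [Field k] (n : ℕ) [API k n],
  (∀ s : Delta k n, emb s ∈ X0 k n ∧ ip (emb s) (emb s) = 1) ∧
  (∀ x ∈ X0 k n, x ≠ zero → ∃ r : ℝ, 0 < r ∧ ∃ s : Delta k n, x = smul r (emb s)) ∧
  (∀ (r r' : ℝ) (s s' : Delta k n), 0 < r → 0 < r' → smul r (emb s) = smul r' (emb s') →
    r = r' ∧ s = s') ∧
  (∀ (β : Equiv.Perm (Delta k n)) (r : ℝ) (s : Delta k n), 0 < r →
    lift β (smul r (emb s)) = smul r (emb (β s))) ∧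
  (∀ (β : Equiv.Perm (Delta k n)) (x : X k n),
    (¬ ∃ r : ℝ, 0 < r ∧ ∃ s : Delta k n, x = smul r (emb s)) → lift β x = x) ∧
  (∀ β : Equiv.Perm (Delta k n), lift β zero = zero) ∧
  (∀ s s' : Delta k n, SL.dist s s' = Real.arccos (ip (emb s) (emb s'))) ∧
  (∀ s s' : Delta k n, Opp s s' ↔ add (emb s) (emb s') = zero) ∧
  ∀ β : Equiv.Perm (Delta k n), IsAut β → ∀ s s' : Delta k n,
    ip (emb (β s)) (emb (β s')) = ip (emb s) (emb s')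

-- deps: TRA
def S_TRC : Prop := ∀ (k : Type) [Field k] (n : ℕ) [API k n] (S : Set (Delta k n)),
  SL.IsClosed S → IsConvex S → Cone (CS S) ∧ CS S ⊆ X0 k n

-- deps: TRA VTX
def S_TRU : Prop := ∀ (k : Type) [Field k] (n : ℕ) [API k n] (β : Equiv.Perm (Delta k n)),
  IsAut β → (∀ U s, UV U s → ∃ U', UV U' (β s)) ∧
    ∀ U U1 s s1 U' U1', UV U s → UV U1 s1 → U ≤ U1 → UV U' (β s) → UV U1' (β s1) →
      U' ≤ U1' ∨ U1' ≤ U'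

-- deps: TRA VTX TRU
def S_TRV : Prop := ∀ (k : Type) [Field k] (n : ℕ) [API k n] (β : Equiv.Perm (Delta k n)),
  IsAut β → ∀ U : Submodule k (Fin n → k), ∃ U' : Submodule k (Fin n → k),
    lift β (vtx U) = vtx U' ∧ (finrank k U' = finrank k U ∨ finrank k U' + finrank k U = n)

-- deps: TRA TRC TRV MAIN
def S_TRF : Prop := ∀ (k : Type) [Field k] (n : ℕ) [API k n] (S : Set (Delta k n)), n ≤ 8 →
  SL.IsClosed S → IsConvex S → TopDim S → (∀ x ∈ S, ∃ y ∈ S, Opp x y) ∨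
    ∃ c ∈ S, ∀ β : Equiv.Perm (Delta k n), IsAut β → β '' S = S → β c = c

end Pool.Agent.P.MP_8ecd01_al.SL
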