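import Pool.Agent.P.MP_8ecd01_al.SL.Gr

/-!
Vertices, symmetries, the cone over a subset of the spherical building, and small tools.
-/

namespace Pool.Agent.P.MP_8ecd01_al.SL

open Matrix Module

variable {k : Type} [Field k] {n : ℕ}

theorem finrank_span_basis (b : Bs k n) (S : Finset (Fin n)) :
    finrank k (Submodule.span k (b '' (S : Set (Fin n)))) = S.card := by
  have h : LinearIndependent k (fun i : S => b i) := b.linearIndependent.comp _ Subtype.val_injective
  have h2 := finrank_span_eq_card h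
  have h3 : Set.range (fun i : S => b i) = b '' (S : Set (Fin n)) := by
    ext x
    simp
  rw [h3] at h2
  simpa using h2

open Classical in
theorem finrank_pt (b : Bs k n) (w : Fin n → ℝ) (t : ℝ) :
    finrank k (pt b w t) = (Finset.univ.filter fun i => t ≤ w i).card := by
  have : {i | t ≤ w i} = ↑(Finset.univ.filter fun i => t ≤ w i) := by
    ext i
    simp
  rw [← finrank_span_basis b, ← this]
  rfl

theorem span_inf_span (b : Bs k n) (S T : Set (Fin n)) :
    Submodule.span k (b '' S) ⊓ Submodule.span k (b '' T) = Submodule.span k (b '' (S ∩ T)) := by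
  ext v
  simp only [Submodule.mem_inf, Module.Basis.mem_span_image, Set.subset_inter_iff]

theorem span_sup_span (b : Bs k n) (S T : Set (Fin n)) :
    Submodule.span k (b '' S) ⊔ Submodule.span k (b '' T) = Submodule.span k (b '' (S ∪ T)) := by
  rw [Set.image_union, Submodule.span_union]

open Classical in
theorem finrank_pt_inf (b : Bs k n) (v u : Fin n → ℝ) (s t : ℝ) :
    finrank k (pt b v s ⊓ pt b u t : Submodule k (Fin n → k)) =
      (Finset.univ.filter fun i => s ≤ v i ∧ t ≤ u i).card := by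
  have : {i | s ≤ v i} ∩ {i | t ≤ u i} = ↑(Finset.univ.filter fun i => s ≤ v i ∧ t ≤ u i) := by
    ext i
    simp
  rw [← finrank_span_basis b, ← this, ← span_inf_span]
  rfl

/-- The centred indicator vector of `S`. -/
noncomputable def ind (S : Finset (Fin n)) : Fin n → ℝ :=
  fun i => (if i ∈ S then 1 else 0) - (S.card : ℝ) / n

theorem sum_ind (S : Finset (Fin n)) : ∑ i, ind S i = 0 := by
  rcases Nat.eq_zero_or_pos n with h | h
  · subst h
    simp
  · have : (n : ℝ) ≠ 0 := by positivity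
    simp only [ind, Finset.sum_sub_distrib, Finset.sum_boole, Finset.filter_mem_eq_inter,
      Finset.univ_inter, Finset.sum_const, Finset.card_univ, Fintype.card_fin, nsmul_eq_mul]
    field_simp
    ring

theorem ind_dot (S : Finset (Fin n)) (v : Fin n → ℝ) :
    ind S ⬝ᵥ v = ∑ i ∈ S, v i - (S.card : ℝ) / n * ∑ i, v i := by
  simp [ind, dotProduct, sub_mul, Finset.sum_sub_distrib, Finset.mul_sum]

open Classical in
/-- The vertex of the subspace `U` (the origin for the zero and the full subspace). -/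
noncomputable def vtx (U : Submodule k (Fin n → k)) : X k n :=
  if h : ∃ p : Bs k n × Finset (Fin n), U = Submodule.span k (p.1 '' (p.2 : Set (Fin n))) then
    mk h.choose.1 (ind h.choose.2) else zero

/-- The level set of a family. -/
def Lev (A : Set (X k n)) : Set (X k n) := {y | ∀ a ∈ A, -1 ≤ ip y a}

/-- The part of a parallel set orthogonal to a space of central elements. -/
def KW (c : Bs k n) (w : Fin n → ℝ) (W : Submodule ℝ (Fin n → ℝ)) : Set (X k n) :=
  {y | y ∈ Par c w ∧ ∀ ψ ∈ W, ip y (mk c ψ) = 0}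

/-- The points of root type of `K` without antipode in `K`. -/
def Rt (K : Set (X k n)) : Set (X k n) :=
  {r | r ∈ K ∧ ¬ Ant K r ∧ ∃ P H : Submodule k (Fin n → k), finrank k P = 1 ∧
    finrank k H + 1 = n ∧ P ≤ H ∧ r = add (vtx P) (vtx H)}

/-- A group of symmetries of the cone of degree zero which preserves `K`. -/
structure Sym (G : Set (X k n → X k n)) (K : Set (X k n)) : Prop where
  x0 : ∀ g ∈ G, ∀ x ∈ X0 k n, g x ∈ X0 k n
  ip_eq : ∀ g ∈ G, ∀ x ∈ X0 k n, ∀ y ∈ X0 k n, ip (g x) (g y) = ip x y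
  vert : ∀ g ∈ G, ∀ U : Submodule k (Fin n → k), ∃ U' : Submodule k (Fin n → k),
    g (vtx U) = vtx U' ∧ (finrank k U' = finrank k U ∨ finrank k U' + finrank k U = n)
  maps : ∀ g ∈ G, ∀ x ∈ K, g x ∈ K
  inv : ∀ g ∈ G, ∃ h ∈ G, ∀ x ∈ X0 k n, g (h x) = x ∧ h (g x) = x
  comp : ∀ g ∈ G, ∀ h ∈ G, g ∘ h ∈ G
  one : id ∈ G

/-- The spherical building as the unit sphere of the cone. -/
def emb (s : Delta k n) : X k n := ⟨s.1, by
  obtain ⟨b, w, -, -, h⟩ := s.2
  exact ⟨b, w, h⟩⟩

/-- The cone over a subset of the spherical building. -/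
def CS (S : Set (Delta k n)) : Set (X k n) :=
  {x | x = zero ∨ ∃ r : ℝ, 0 < r ∧ ∃ s ∈ S, x = smul r (emb s)}

open Classical in
/-- The extension of a permutation of the spherical building to the cone. -/
noncomputable def lift (β : Equiv.Perm (Delta k n)) (x : X k n) : X k n :=
  if h : ∃ p : ℝ × Delta k n, 0 < p.1 ∧ x = smul p.1 (emb p.2) then
    smul h.choose.1 (emb (β h.choose.2)) else x

/-- `s` is the unit vertex of the proper subspace `U`. -/
def UV (U : Submodule k (Fin n → k)) (s : Delta k n) : Prop :=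
  0 < finrank k U ∧ finrank k U < n ∧ ∃ r : ℝ, 0 < r ∧ vtx U = smul r (emb s)

theorem IsAut.one : IsAut (1 : Equiv.Perm (Delta k n)) :=
  ⟨fun _ _ => rfl, fun F h => ⟨F, h, by simp⟩, fun F h => ⟨F, h, by simp⟩⟩

theorem IsAut.mul {β γ : Equiv.Perm (Delta k n)} (h : IsAut β) (h' : IsAut γ) :
    IsAut (β * γ) := by
  refine ⟨fun x y => (h.1 _ _).trans (h'.1 _ _), fun F hF => ?_, fun G hG => ?_⟩
  · obtain ⟨G, hG, e⟩ := h'.2.1 F hF
    obtain ⟨H, hH, e'⟩ := h.2.1 G hG
    exact ⟨H, hH, by rw [Equiv.Perm.coe_mul, Set.image_comp, e, e']⟩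
  · obtain ⟨H, hH, e⟩ := h.2.2 G hG
    obtain ⟨F, hF, e'⟩ := h'.2.2 H hH
    exact ⟨F, hF, by rw [Equiv.Perm.coe_mul, Set.image_comp, e', e]⟩

theorem IsAut.inv {β : Equiv.Perm (Delta k n)} (h : IsAut β) : IsAut β⁻¹ := by
  refine ⟨fun x y => ?_, fun F hF => ?_, fun G hG => ?_⟩
  · rw [← h.1]
    simp
  · obtain ⟨G, hG, e⟩ := h.2.2 F hF
    exact ⟨G, hG, by rw [← e, ← Set.image_comp]; simp⟩
  · obtain ⟨F, hF, e⟩ := h.2.1 G hG
    exact ⟨F, hF, by rw [← e, ← Set.image_comp]; simp⟩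

theorem Top.mono {K L : Set (X k n)} (h : Top K) (hs : K ⊆ L) : Top L := by
  obtain ⟨b, w, h⟩ := h
  exact ⟨b, w, fun ψ e h' => h ψ e fun φ e1 e2 => h' φ e1 (hs e2)⟩

theorem Wide.mono {K A B : Set (X k n)} (h : Wide K A) (hs : A ⊆ B) : Wide K B :=
  fun y hy h' => h y hy fun a ha => h' a (hs ha)

theorem KW_congr {c d : Bs k n} {w : Fin n → ℝ} {W : Submodule ℝ (Fin n → ℝ)} (h : Apt c w d)
    (hW : ∀ ψ ∈ W, Blk w ψ) : KW d w W = KW c w W := by
  ext y
  unfold KW
  rw [par_congr h]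
  exact and_congr_right fun _ => forall₂_congr fun ψ hψ => by rw [h ψ (hW ψ hψ)]

variable [API k n]

theorem cone_KW (c : Bs k n) {w : Fin n → ℝ} {W : Submodule ℝ (Fin n → ℝ)}
    (hW : ∀ ψ ∈ W, Blk w ψ) : Cone (KW c w W) := by
  refine ⟨?_, ⟨(cone_par c w).zero_mem, fun _ _ => ip_zero_left _⟩, fun x hx y hy =>
    ⟨par_add hx.1 hy.1, fun ψ hψ => ?_⟩, fun r hr x hx => ⟨par_smul hr hx.1, fun ψ hψ => ?_⟩⟩
  · have : KW c w W = Par c w ∩ ⋂ ψ ∈ W, {y | ip y (mk c ψ) = 0} := by
      ext y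
      simp [KW]
    rw [this]
    exact (cone_par c w).closed.inter (isClosed_biInter fun ψ _ =>
      isClosed_eq (continuous_ip_left _) continuous_const)
  · rw [ip_central_add (hW ψ hψ) hx.1 hy.1, hx.2 ψ hψ, hy.2 ψ hψ, add_zero]
  · rw [ip_smul_left hr, hx.2 ψ hψ, mul_zero]

/-- Sets cut out by lower bounds on inner products are closed and convex. -/
theorem closed_ge (A : Set (X k n)) (κ : X k n → ℝ) :
    _root_.IsClosed {y | ∀ a ∈ A, κ a ≤ ip y a} := by
  have : {y | ∀ a ∈ A, κ a ≤ ip y a} = ⋂ a ∈ A, {y | κ a ≤ ip y a} := by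
    ext y
    simp
  rw [this]
  exact isClosed_biInter fun a _ => isClosed_le continuous_const (continuous_ip_left a)

theorem cvx_ge (A : Set (X k n)) (κ : X k n → ℝ) : Cvx {y | ∀ a ∈ A, κ a ≤ ip y a} := by
  intro x hx y hy t h0 h1 a ha
  have h := ip_add_ge (smul (1 - t) x) (smul t y) a
  rw [ip_smul_left (by linarith), ip_smul_left h0] at h
  nlinarith [hx a ha, hy a ha]

theorem abs_ip_le (x y : X k n) : |ip x y| ≤ √(ip x x) * √(ip y y) := by
  rw [← Real.sqrt_mul (ip_self_nonneg x)]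
  exact Real.abs_le_sqrt (ip_sq_le x y)

end Pool.Agent.P.MP_8ecd01_al.SL
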