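import Pool.Agent.P.MP_8ecd01_al.SL.Iface

/-! Step TRU of the top-dimensional centre theorem for SL_n. -/

namespace Pool.Agent.P.MP_8ecd01_al.SL

open Matrix Module

section
variable {k : Type} [Field k] {n : ℕ}

theorem tru_ext (x : Delta k n) : ∃ (e : Bs k n) (w : Fin n → ℝ) (i0 i1 : Fin n), x.1 = pt e w ∧
    ∑ i, w i = 0 ∧ w i0 < w i1 ∧ (∀ i, w i0 ≤ w i ∧ w i ≤ w i1) ∧ pt e w (w i1) ≠ ⊥ ∧
    pt e w (w i1) ≠ ⊤ := by
  obtain ⟨e, w, h0, h1, hx⟩ := x.2
  have hne : (Finset.univ : Finset (Fin n)).Nonempty := by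
    by_contra h
    rw [Finset.not_nonempty_iff_eq_empty.1 h] at h1
    simp at h1
  obtain ⟨i0, -, m0⟩ := Finset.exists_min_image _ w hne
  obtain ⟨i1, -, m1⟩ := Finset.exists_max_image _ w hne
  have hb : ∀ i, w i0 ≤ w i ∧ w i ≤ w i1 := fun i =>
    ⟨m0 i (Finset.mem_univ _), m1 i (Finset.mem_univ _)⟩
  have hlt : w i0 < w i1 := by
    by_contra h
    have hc : ∀ i, w i = w i0 := fun i => le_antisymm ((hb i).2.trans (not_lt.1 h)) (hb i).1
    have hn : (n : ℝ) ≠ 0 := Nat.cast_ne_zero.2 i0.pos.ne'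
    simp only [hc, Finset.sum_const, Finset.card_univ, Fintype.card_fin, nsmul_eq_mul] at h0 h1
    rw [(mul_eq_zero.1 h0).resolve_left hn] at h1
    simp at h1
  refine ⟨e, w, i0, i1, hx, h0, hlt, hb, fun h => ?_, fun h => ?_⟩
  · have : e i1 ∈ pt e w (w i1) := self_mem_pt.2 le_rfl
    rw [h] at this
    exact e.ne_zero i1 this
  · have : e i0 ∈ pt e w (w i1) := h ▸ Submodule.mem_top
    exact absurd (self_mem_pt.1 this) (not_le.2 hlt)

theorem tru_ne {U : Submodule k (Fin n → k)} {s : Delta k n} (h : UV U s) : U ≠ ⊥ ∧ U ≠ ⊤ := by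
  constructor
  · rintro rfl
    simpa using h.1
  · rintro rfl
    simpa using h.2.1

variable [API k n]

theorem tru_lev (hVTX : S_VTX) {U : Submodule k (Fin n → k)} {s : Delta k n} (h : UV U s) :
    (∀ t, s.1 t = ⊥ ∨ s.1 t = ⊤ ∨ s.1 t = U) ∧ ∃ t, s.1 t = U := by
  obtain ⟨-, -, r, hr, h⟩ := h
  obtain ⟨b, S, -, rfl, -⟩ := (hVTX k n).2.1 U U
  rw [(hVTX k n).1] at h
  have hi := inv_pos.2 hr
  have h1 : emb s = mk b (r⁻¹ • ind S) := by
    rw [← smul_mk _ _ hi.le, h, smul_smul' hi.le hr.le, inv_mul_cancel₀ hr.ne', one_smul']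
  have h2 : s.1 = pt b (r⁻¹ • ind S) := congrArg Subtype.val h1
  have key : ∀ t, r⁻¹ * (0 - (S.card : ℝ) / n) < t → t ≤ r⁻¹ * (1 - (S.card : ℝ) / n) →
      s.1 t = Submodule.span k (b '' (S : Set (Fin n))) := by
    intro t a1 a2
    rw [h2]
    unfold pt
    congr 2
    ext i
    by_cases hS : i ∈ S
    · simpa [ind, hS] using a2
    · simpa [ind, hS] using a1
  refine ⟨fun t => ?_, _, key _ (by nlinarith) le_rfl⟩
  by_cases a1 : r⁻¹ * (0 - (S.card : ℝ) / n) < t
  · by_cases a2 : t ≤ r⁻¹ * (1 - (S.card : ℝ) / n)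
    · exact Or.inr (Or.inr (key t a1 a2))
    · left
      rw [h2, eq_bot_iff]
      intro v hv
      refine (Submodule.mem_bot k).2 (b.repr.map_eq_zero_iff.1 (Finsupp.ext fun i => ?_))
      by_contra hc
      have := mem_pt.1 hv i hc
      simp only [Pi.smul_apply, smul_eq_mul, ind] at this
      split_ifs at this
      · exact a2 this
      · linarith
  · right
    left
    rw [h2, eq_top_iff]
    refine fun v _ => mem_pt.2 fun i _ => ?_
    simp only [Pi.smul_apply, smul_eq_mul, ind]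
    split_ifs <;> nlinarith [not_lt.1 a1]

theorem tru_uniq (hTRA : S_TRA) (hVTX : S_VTX) {U : Submodule k (Fin n → k)} {s x : Delta k n}
    (h : UV U s) (hx : x ∈ simplex {U}) : x = s := by
  classical
  obtain ⟨-, -, r, hr, h⟩ := h
  obtain ⟨e, w, i0, i1, h1, h0, hlt, hb, n1, n2⟩ := tru_ext x
  have hx' : ∀ t, pt e w t = ⊥ ∨ pt e w t = ⊤ ∨ pt e w t = U := fun t => h1 ▸ hx t
  have hU : pt e w (w i1) = U := ((hx' _).resolve_left n1).resolve_left n2
  set T := Finset.univ.filter fun i => w i1 ≤ w i with hT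
  have hw : ∀ i, w i = (w i1 - w i0) * (if i ∈ T then 1 else 0) + w i0 := by
    intro i
    by_cases hi : w i1 ≤ w i
    · rw [if_pos (by simpa [hT] using hi)]
      linarith [(hb i).2]
    · rw [if_neg (by simpa [hT] using hi)]
      have m : e i ∈ pt e w (w i) := self_mem_pt.2 le_rfl
      rcases hx' (w i) with q | q | q
      · rw [q] at m
        exact absurd m (e.ne_zero i)
      · have : e i0 ∈ pt e w (w i) := q ▸ Submodule.mem_top
        linarith [self_mem_pt.1 this, (hb i).1]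
      · rw [q, ← hU] at m
        exact absurd (self_mem_pt.1 m) hi
  have hn : (n : ℝ) ≠ 0 := Nat.cast_ne_zero.2 i0.pos.ne'
  have hs : (w i1 - w i0) * T.card + n * w i0 = 0 := by
    rw [Finset.sum_congr rfl fun i _ => hw i] at h0
    simp only [Finset.sum_add_distrib, ← Finset.mul_sum, Finset.sum_boole, Finset.sum_const,
      Finset.filter_mem_eq_inter, Finset.univ_inter, Finset.card_univ, Fintype.card_fin,
      nsmul_eq_mul] at h0
    exact h0
  have hl : w = (w i1 - w i0) • ind T := by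
    funext i
    rw [hw i]
    simp only [Pi.smul_apply, smul_eq_mul, ind]
    field_simp
    linarith
  have hv : vtx U = mk e (ind T) := by
    rw [← (hVTX k n).1, ← hU]
    unfold pt
    congr 3
    ext i
    simp [hT]
  have hp := sub_pos.2 hlt
  have he : smul 1 (emb x) = smul ((w i1 - w i0) * r) (emb s) := by
    rw [one_smul', ← smul_smul' hp.le hr.le, ← h, hv, smul_mk _ _ hp.le, ← hl]
    exact Subtype.ext h1
  exact ((hTRA k n).2.2.1 _ _ _ _ one_pos (mul_pos hp hr) he).2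

theorem tru_ex (hTRA : S_TRA) (hVTX : S_VTX) {U : Submodule k (Fin n → k)} (h0 : U ≠ ⊥)
    (h1 : U ≠ ⊤) : ∃ s, UV U s := by
  have a0 : 0 < finrank k U := Nat.pos_of_ne_zero fun h => h0 (Submodule.finrank_eq_zero.1 h)
  have a1 : finrank k U < n := by simpa using Submodule.finrank_lt h1
  obtain ⟨r, hr, s, hs⟩ := (hTRA k n).2.1 _ ((hVTX k n).2.2.2.2.2.2.1 U) fun h => by
    have h2 := (hVTX k n).2.2.1 U U
    rw [h, ip_zero_left, inf_idem] at h2
    have b0 : (0 : ℝ) < finrank k U := Nat.cast_pos.2 a0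
    have b1 : (finrank k U : ℝ) < n := Nat.cast_lt.2 a1
    have : (finrank k U : ℝ) * finrank k U / n < finrank k U := by
      rw [div_lt_iff₀ (b0.trans b1)]
      nlinarith
    linarith
  exact ⟨s, a0, a1, r, hr, hs⟩

theorem tru_mem (hVTX : S_VTX) {U : Submodule k (Fin n → k)} {s : Delta k n} (h : UV U s)
    (G : Set (Submodule k (Fin n → k))) : s ∈ simplex G ↔ U ∈ G := by
  obtain ⟨h1, t, h2⟩ := tru_lev hVTX h
  refine ⟨fun hs => ?_, fun hU t => (h1 t).imp_right (Or.imp_right fun e => by rw [e]; exact hU)⟩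
  have := hs t
  rw [h2] at this
  exact (this.resolve_left (tru_ne h).1).resolve_left (tru_ne h).2

end

theorem p_TRU (hTRA : S_TRA) (hVTX : S_VTX) :
    S_TRU := by
  intro k _ n _ β hβ
  refine ⟨fun U s h => ?_, fun U U1 s s1 U' U1' h h1 hle g g1 => ?_⟩
  · obtain ⟨G, -, hG⟩ := hβ.2.1 {U} (Set.Subsingleton.isChain Set.subsingleton_singleton)
    have m : β s ∈ simplex G := hG ▸ Set.mem_image_of_mem _ ((tru_mem hVTX h _).2 rfl)
    obtain ⟨e, w, i0, i1, h1, -, -, -, n1, n2⟩ := tru_ext (β s)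
    have m2 := m (w i1)
    rw [h1] at m2
    obtain ⟨s2, h2⟩ := tru_ex hTRA hVTX n1 n2
    have m3 := (tru_mem hVTX h2 G).2 ((m2.resolve_left n1).resolve_left n2)
    rw [← hG] at m3
    obtain ⟨y, hy, rfl⟩ := m3
    rw [tru_uniq hTRA hVTX h hy] at h2
    exact ⟨_, h2⟩
  · obtain ⟨G, hc, hG⟩ := hβ.2.1 {U, U1} (by
      rintro a (rfl | rfl) b (rfl | rfl) hab
      · exact absurd rfl hab
      · exact Or.inl hle
      · exact Or.inr hle
      · exact absurd rfl hab)
    have m : β s ∈ simplex G := hG ▸ Set.mem_image_of_mem _ ((tru_mem hVTX h _).2 (Or.inl rfl))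
    have m1 : β s1 ∈ simplex G := hG ▸ Set.mem_image_of_mem _ ((tru_mem hVTX h1 _).2 (Or.inr rfl))
    exact hc.total ((tru_mem hVTX g G).1 m) ((tru_mem hVTX g1 G).1 m1)

end Pool.Agent.P.MP_8ecd01_al.SL
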